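import Pool.Agent.Tw11.Def

/-!
# Tw11 / Height: chains and heights (Mirsky), Erdos-Szekeres for three orders, diagonals

PROOFS.
* `height`: induction on `τ` (generalizing `H`). `τ = 0`: no chain of length 1, so `H = ∅`.
  Step: `H' = {a ∈ H | ∃ b ∈ H, r b a}`. `H'` has no chain of length `τ + 1`: otherwise put
  an element `b` with `r b (c 0)` in front (`Fin.cons`, transitivity) and get a chain of length `τ + 2`
  of `H`. Take `h'` for `H'` and put `h a = h' a + 1` for `a ∈ H'`, `h a = 0` otherwise. If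
  `r a b`, `a, b ∈ H`, then `b ∈ H'`.
* `height'`: weaker form, from `height` for `τ - 1` (for `τ = 0` the empty chain exists, so the
  hypothesis is false).
* `es3`: for `i ≠ j` let `r_{ij} a b := y i a < y i b ∧ y j a < y j b`. Let `m` be the largest
  length of a chain `Fin m → α` in `S` for one of `r_{01}, r_{02}, r_{12}` (lengths are at most
  `S.card`, as chains are injective). By `height` with `τ = m` there are three heights
  `h_{ij} < m` on `S`; the map `a ↦ (h_{01} a, h_{02} a, h_{12} a)` is injective on `S`: for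
  `a ≠ b` the three numbers `y i a - y i b` are nonzero and two of them have the same sign, so `a, b`
  are comparable for some `r_{ij}` and the heights differ. Hence `S.card ≤ m ^ 3`. `J` = image of the
  chain of length `m`, `J.card = m`, and on `J` the orders of `y i` and `y j` agree.
  (If `S = ∅` take `J = ∅`.)
* `diag`: take the height `h < τ` of `height'` for the relation `c.1 < d.1 ∧ c.2 < d.2`. The map
  `c ↦ (c.1 - a + L - (c.2 - a'), h c)` goes to `range (2 * L) × range τ` and is injective on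
  `H`: two different cells on the same diagonal are strictly comparable, so their heights differ.
-/

set_option autoImplicit false

namespace Tw11

theorem height {α : Type*} (r : α → α → Prop) (ht : ∀ a b c, r a b → r b c → r a c) (τ : ℕ)
    (H : Finset α)
    (hno : ¬ ∃ c : Fin (τ + 1) → α, (∀ i, c i ∈ H) ∧ ∀ i j, i < j → r (c i) (c j)) :
    ∃ h : α → ℕ, (∀ a ∈ H, h a < τ) ∧ ∀ a ∈ H, ∀ b ∈ H, r a b → h a < h b := by
  classical
  induction τ generalizing H with
  | zero =>
    have hH : ∀ a ∈ H, False := by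
      intro a ha
      apply hno
      refine ⟨fun _ => a, fun _ => ha, ?_⟩
      intro i j hij
      have h1 := i.isLt
      have h2 := j.isLt
      have h3 : (i : ℕ) < j := hij
      omega
    exact ⟨fun _ => 0, fun a ha => (hH a ha).elim, fun a ha => (hH a ha).elim⟩
  | succ τ ih =>
    obtain ⟨h', h1, h2⟩ := ih (H.filter (fun a => ∃ b ∈ H, r b a)) (by
      rintro ⟨c, hc1, hc2⟩
      obtain ⟨b, hb, hbc⟩ := (Finset.mem_filter.1 (hc1 0)).2
      apply hno
      refine ⟨Fin.cons b c, ?_, ?_⟩
      · intro i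
        refine Fin.cases ?_ (fun i => ?_) i
        · rw [Fin.cons_zero]
          exact hb
        · rw [Fin.cons_succ]
          exact (Finset.mem_filter.1 (hc1 i)).1
      · intro i j
        refine Fin.cases ?_ (fun i => ?_) i
        · refine Fin.cases ?_ (fun j => ?_) j
          · intro h
            exact absurd h (lt_irrefl _)
          · intro _
            rw [Fin.cons_zero, Fin.cons_succ]
            rcases Fin.eq_zero_or_eq_succ j with hj | ⟨j', hj⟩
            · rw [hj]
              exact hbc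
            · exact ht _ _ _ hbc (hc2 0 j (by rw [hj]; exact Fin.succ_pos _))
        · refine Fin.cases ?_ (fun j => ?_) j
          · intro h
            exact absurd h (Fin.not_lt_zero _)
          · intro h
            rw [Fin.cons_succ, Fin.cons_succ]
            exact hc2 i j (Fin.succ_lt_succ_iff.1 h))
    refine ⟨fun a => if a ∈ H.filter (fun a => ∃ b ∈ H, r b a) then h' a + 1 else 0, ?_, ?_⟩
    · intro a ha
      simp only
      split_ifs with h3
      · have := h1 a h3
        omega
      · omega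
    · intro a ha b hb hab
      have hb' : b ∈ H.filter (fun a => ∃ b ∈ H, r b a) := Finset.mem_filter.2 ⟨hb, a, ha, hab⟩
      simp only
      rw [if_pos hb']
      split_ifs with h3
      · have := h2 a h3 b hb' hab
        omega
      · omega

theorem height' {α : Type*} (r : α → α → Prop) (ht : ∀ a b c, r a b → r b c → r a c) (τ : ℕ)
    (H : Finset α)
    (hno : ¬ ∃ c : Fin τ → α, (∀ i, c i ∈ H) ∧ ∀ i j, i < j → r (c i) (c j)) :
    ∃ h : α → ℕ, (∀ a ∈ H, h a < τ) ∧ ∀ a ∈ H, ∀ b ∈ H, r a b → h a < h b := by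
  cases τ with
  | zero =>
    exfalso
    apply hno
    exact ⟨fun i => i.elim0, fun i => i.elim0, fun i => i.elim0⟩
  | succ τ =>
    obtain ⟨h, h1, h2⟩ := height r ht τ H hno
    exact ⟨h, fun a ha => lt_trans (h1 a ha) (Nat.lt_succ_self τ), h2⟩

/-- there is a chain of length `m` for two of the three orders -/
def Ch3 {α : Type*} (S : Finset α) (y : Fin 3 → α → ℕ) (i j : Fin 3) (m : ℕ) : Prop :=
  ∃ c : Fin m → α, (∀ k, c k ∈ S) ∧ ∀ k l, k < l →
    (y i (c k) < y i (c l) ∧ y j (c k) < y j (c l))

theorem ch3_inj {α : Type*} {m : ℕ} (c : Fin m → α) (f : α → ℕ)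
    (h : ∀ k l, k < l → f (c k) < f (c l)) : Function.Injective c := by
  intro k l hkl
  rcases lt_trichotomy k l with h1 | h1 | h1
  · have := h k l h1
    rw [hkl] at this
    exact absurd this (lt_irrefl _)
  · exact h1
  · have := h l k h1
    rw [hkl] at this
    exact absurd this (lt_irrefl _)

theorem ch3_card {α : Type*} (S : Finset α) (y : Fin 3 → α → ℕ) (i j : Fin 3) (m : ℕ)
    (h : Ch3 S y i j m) : m ≤ S.card := by
  classical
  obtain ⟨c, h1, h2⟩ := h
  have h3 := ch3_inj c (y i) (fun k l hkl => (h2 k l hkl).1)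
  have h4 : (Finset.univ.image c).card = m := by
    rw [Finset.card_image_of_injective _ h3, Finset.card_univ, Fintype.card_fin]
  rw [← h4]
  apply Finset.card_le_card
  intro a ha
  obtain ⟨k, _, rfl⟩ := Finset.mem_image.1 ha
  exact h1 k

theorem es3 {α : Type*} [DecidableEq α] (S : Finset α) (y : Fin 3 → α → ℕ)
    (hinj : ∀ i, ∀ a ∈ S, ∀ b ∈ S, y i a = y i b → a = b) :
    ∃ J ⊆ S, S.card ≤ J.card ^ 3 ∧
      ∃ i j : Fin 3, i ≠ j ∧ ∀ a ∈ J, ∀ b ∈ J, (y i a < y i b ↔ y j a < y j b) := by
  classical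
  obtain ⟨P, hP⟩ : ∃ P : ℕ → Prop, P = fun m => ∃ i j : Fin 3, i ≠ j ∧ Ch3 S y i j m := ⟨_, rfl⟩
  have hP0 : P 0 := by
    rw [hP]
    exact ⟨0, 1, by decide, fun k => k.elim0, fun k => k.elim0, fun k => k.elim0⟩
  have hPc : ∀ m, P m → m ≤ S.card := by
    intro m hm
    rw [hP] at hm
    obtain ⟨i, j, _, h⟩ := hm
    exact ch3_card S y i j m h
  obtain ⟨m, hm⟩ : ∃ m, m = Nat.findGreatest P S.card := ⟨_, rfl⟩
  have hPm : P m := by
    rw [hm]
    exact Nat.findGreatest_spec (Nat.zero_le _) hP0
  have hPm1 : ¬ P (m + 1) := by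
    intro h
    have h1 := hPc _ h
    have h2 : Nat.findGreatest P S.card < m + 1 := by
      rw [hm]
      exact Nat.lt_succ_self _
    exact Nat.findGreatest_is_greatest h2 h1 h
  have hhe : ∀ i j : Fin 3, i ≠ j → ∃ h : α → ℕ, (∀ a ∈ S, h a < m) ∧
      ∀ a ∈ S, ∀ b ∈ S, (y i a < y i b ∧ y j a < y j b) → h a < h b := by
    intro i j hij
    apply height (fun a b => y i a < y i b ∧ y j a < y j b)
    · intro a b c h1 h2
      exact ⟨h1.1.trans h2.1, h1.2.trans h2.2⟩
    · intro h
      apply hPm1
      rw [hP]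
      exact ⟨i, j, hij, h⟩
  obtain ⟨h01, a01, b01⟩ := hhe 0 1 (by decide)
  obtain ⟨h02, a02, b02⟩ := hhe 0 2 (by decide)
  obtain ⟨h12, a12, b12⟩ := hhe 1 2 (by decide)
  have hcard : S.card ≤ m ^ 3 := by
    have h1 : S.card ≤ (Finset.range m ×ˢ Finset.range m ×ˢ Finset.range m).card := by
      apply Finset.card_le_card_of_injOn (fun a => (h01 a, h02 a, h12 a))
      · intro a ha
        have ha' : a ∈ S := ha
        simp only [Finset.coe_product, Set.mem_prod, Finset.coe_range, Set.mem_Iio]
        exact ⟨a01 a ha', a02 a ha', a12 a ha'⟩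
      · intro a ha b hb hab
        have ha' : a ∈ S := ha
        have hb' : b ∈ S := hb
        obtain ⟨e1, e2⟩ := Prod.mk.inj hab
        obtain ⟨e2, e3⟩ := Prod.mk.inj e2
        by_contra hne
        have n0 : y 0 a ≠ y 0 b := fun h => hne (hinj 0 a ha' b hb' h)
        have n1 : y 1 a ≠ y 1 b := fun h => hne (hinj 1 a ha' b hb' h)
        have n2 : y 2 a ≠ y 2 b := fun h => hne (hinj 2 a ha' b hb' h)
        rcases Nat.lt_or_gt_of_ne n0 with l0 | l0 <;> rcases Nat.lt_or_gt_of_ne n1 with l1 | l1 <;>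
          rcases Nat.lt_or_gt_of_ne n2 with l2 | l2
        · have := b01 a ha' b hb' ⟨l0, l1⟩
          omega
        · have := b01 a ha' b hb' ⟨l0, l1⟩
          omega
        · have := b02 a ha' b hb' ⟨l0, l2⟩
          omega
        · have := b12 b hb' a ha' ⟨l1, l2⟩
          omega
        · have := b12 a ha' b hb' ⟨l1, l2⟩
          omega
        · have := b02 b hb' a ha' ⟨l0, l2⟩
          omega
        · have := b01 b hb' a ha' ⟨l0, l1⟩
          omega
        · have := b01 b hb' a ha' ⟨l0, l1⟩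
          omega
    rw [Finset.card_product, Finset.card_product, Finset.card_range] at h1
    refine h1.trans (le_of_eq ?_)
    ring
  rw [hP] at hPm
  obtain ⟨i, j, hij, c, hc1, hc2⟩ := hPm
  have hcinj := ch3_inj c (y i) (fun k l hkl => (hc2 k l hkl).1)
  refine ⟨Finset.univ.image c, ?_, ?_, i, j, hij, ?_⟩
  · intro a ha
    obtain ⟨k, _, rfl⟩ := Finset.mem_image.1 ha
    exact hc1 k
  · rw [Finset.card_image_of_injective _ hcinj, Finset.card_univ, Fintype.card_fin]
    exact hcard
  · intro a ha b hb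
    obtain ⟨k, _, rfl⟩ := Finset.mem_image.1 ha
    obtain ⟨l, _, rfl⟩ := Finset.mem_image.1 hb
    rcases lt_trichotomy k l with h1 | h1 | h1
    · have := hc2 k l h1
      exact ⟨fun _ => this.2, fun _ => this.1⟩
    · subst h1
      exact ⟨fun h => absurd h (lt_irrefl _), fun h => absurd h (lt_irrefl _)⟩
    · have := hc2 l k h1
      constructor
      · intro h
        exact absurd h (not_lt.2 this.1.le)
      · intro h
        exact absurd h (not_lt.2 this.2.le)

theorem diag (H : Finset (ℕ × ℕ)) (a a' L τ : ℕ)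
    (hbox : ∀ c ∈ H, a ≤ c.1 ∧ c.1 < a + L ∧ a' ≤ c.2 ∧ c.2 < a' + L)
    (hno : ¬ ∃ c : Fin τ → ℕ × ℕ, (∀ i, c i ∈ H) ∧
      ∀ i j, i < j → (c i).1 < (c j).1 ∧ (c i).2 < (c j).2) :
    H.card ≤ 2 * L * τ := by
  obtain ⟨h, h1, h2⟩ := height' (fun c d : ℕ × ℕ => c.1 < d.1 ∧ c.2 < d.2)
    (fun a b c h1 h2 => ⟨h1.1.trans h2.1, h1.2.trans h2.2⟩) τ H hno
  have h3 : H.card ≤ (Finset.range (2 * L) ×ˢ Finset.range τ).card := by
    apply Finset.card_le_card_of_injOn (fun c => (c.1 - a + L - (c.2 - a'), h c))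
    · intro c hc
      have hc' : c ∈ H := hc
      obtain ⟨b1, b2, b3, b4⟩ := hbox c hc'
      have h4 := h1 c hc'
      simp only [Finset.coe_product, Set.mem_prod, Finset.coe_range, Set.mem_Iio]
      exact ⟨by omega, h4⟩
    · intro c hc d hd hcd
      have hc' : c ∈ H := hc
      have hd' : d ∈ H := hd
      obtain ⟨b1, b2, b3, b4⟩ := hbox c hc'
      obtain ⟨d1, d2, d3, d4⟩ := hbox d hd'
      obtain ⟨e1, e2⟩ := Prod.mk.inj hcd
      by_contra hne
      rcases Nat.lt_trichotomy c.1 d.1 with l | l | l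
      · have := h2 c hc' d hd' ⟨l, by omega⟩
        omega
      · apply hne
        exact Prod.ext l (by omega)
      · have := h2 d hd' c hc' ⟨l, by omega⟩
        omega
  rwa [Finset.card_product, Finset.card_range, Finset.card_range] at h3

end Tw11
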