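import Pool.Agent.Tw11.Basics
import Pool.Agent.Tw11.Height

/-!
# Tw11 / BRCore: the Bukh-Rudenko step at one scale

`C` is a set of cells (column block of width `u`) x (window of height `h`) with at least three points.

PROOF. For every `c ∈ C` choose three different points `p 0 c, p 1 c, p 2 c ∈ P` of the cell
`c` (`Finset.two_lt_card` or `Finset.exists_subset_card_eq`), and `y i c = (p i c).2`. Different
cells have different points, so by `Gen P` each `y i` is injective on `C`, and so is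
`c ↦ (p i c).1`. Consequences: for `W : ℕ` at most `h` cells of `C` have `c.2 = W` (the numbers
`y 0 c` are different and lie in an interval of length `h`); for `b : ℕ` at most `u` cells have
`c.1 = b`.

Call `𝒥 ⊆ C` admissible if (1) the `c.1`, `c ∈ 𝒥`, are different; (2) for every `W` there are
`i ≠ j` with `y i a < y i b ↔ y j a < y j b` for all `a, b ∈ 𝒥` with `a.2 = b.2 = W`; (3) for every
`W` at most `j` elements of `𝒥` have `c.2 = W`. Choose an admissible `𝒥` of maximal cardinality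
(`∅` is admissible). For `W` let `𝒥_W = {c ∈ 𝒥 | c.2 = W}`, `S_W = {c ∈ C | c.2 = W, c.1 is not
the first coordinate of an element of 𝒥}`.

Claim `S_W.card ≤ 𝒥_W.card * j ^ 2`. If `𝒥_W.card = j` then `S_W.card ≤ h ≤ j ^ 3`. If
`𝒥_W.card < j`: by `es3` there is a nice `J ⊆ S_W` with `S_W.card ≤ J.card ^ 3`. If
`J.card ≥ 𝒥_W.card + 1` choose a subset of `J` with exactly `𝒥_W.card + 1 ≤ j` elements and put it
in place of `𝒥_W`: admissible and larger, contradiction. So `J.card ≤ 𝒥_W.card ≤ j` and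
`S_W.card ≤ 𝒥_W.card ^ 3 ≤ 𝒥_W.card * j ^ 2`. CAREFUL: the elements of `S_W` in `J` must have
different first coordinates: yes, `S_W` lies in one window `W`, and a cell is determined by
`(c.1, W)`.

Sum over the windows (`W` in `C.image Prod.snd`): `∑ S_W.card ≤ 𝒥.card * j ^ 2`. The cells
`c ∈ C` which are in no `S_W` have `c.1 ∈ 𝒥.image Prod.fst`: at most `𝒥.card * u` of them. Hence
`C.card ≤ 𝒥.card * (j ^ 2 + u)`.

`M = {(p i c, p j c) | c ∈ 𝒥}` with `(i, j)` chosen for the window `c.2`. `M.card = 𝒥.card`, and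
`WT P M`: `p i c ≠ p j c`; for `c ≠ c'` in `𝒥`: `c.1 ≠ c'.1` so the first coordinates of both points
of the pair are compared as `c.1, c'.1`; second coordinates: if `c.2 ≠ c'.2` they are compared as
`c.2, c'.2`, otherwise by (2) and injectivity.
-/

namespace Tw11

/-- admissible selection of cells with the two indices `I W`, `J W` for every window `W` -/
def BAdm (C : Finset (ℕ × ℕ)) (y : Fin 3 → ℕ × ℕ → ℕ) (j : ℕ) (B : Finset (ℕ × ℕ))
    (I J : ℕ → Fin 3) : Prop :=
  B ⊆ C ∧ (∀ c ∈ B, ∀ c' ∈ B, c.1 = c'.1 → c = c') ∧ (∀ W, I W ≠ J W) ∧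
  (∀ a ∈ B, ∀ b ∈ B, a.2 = b.2 → (y (I a.2) a < y (I a.2) b ↔ y (J a.2) a < y (J a.2) b)) ∧
  ∀ W, (B.filter fun c => c.2 = W).card ≤ j

theorem br_adm (C : Finset (ℕ × ℕ)) (u h j : ℕ) (hj : h ≤ j ^ 3) (y : Fin 3 → ℕ × ℕ → ℕ)
    (hinj : ∀ i, ∀ a ∈ C, ∀ b ∈ C, y i a = y i b → a = b)
    (hH : ∀ W, (C.filter fun c => c.2 = W).card ≤ h)
    (hU : ∀ x, (C.filter fun c => c.1 = x).card ≤ u) :
    ∃ (B : Finset (ℕ × ℕ)) (I J : ℕ → Fin 3), BAdm C y j B I J ∧ C.card ≤ B.card * (j ^ 2 + u) := by
  classical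
  obtain ⟨B, hB, hBmax⟩ : ∃ B : Finset (ℕ × ℕ), (∃ I J, BAdm C y j B I J) ∧
      ∀ B' : Finset (ℕ × ℕ), (∃ I J, BAdm C y j B' I J) → B'.card ≤ B.card := by
    have hne : (C.powerset.filter (fun B => ∃ I J, BAdm C y j B I J)).Nonempty := by
      refine ⟨∅, ?_⟩
      rw [Finset.mem_filter]
      exact ⟨Finset.empty_mem_powerset _, fun _ => 0, fun _ => 1, Finset.empty_subset _, by simp,
        fun _ => by show (0 : Fin 3) ≠ 1; decide, by simp, by simp⟩
    obtain ⟨B, hB, hmax⟩ := Finset.exists_max_image _ Finset.card hne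
    rw [Finset.mem_filter] at hB
    refine ⟨B, hB.2, fun B' hB' => hmax B' ?_⟩
    rw [Finset.mem_filter, Finset.mem_powerset]
    obtain ⟨I, J, hty⟩ := hB'
    exact ⟨hty.1, I, J, hty⟩
  obtain ⟨I, J, hadm⟩ := hB
  obtain ⟨hsub, hcolB, hIJ, hch, hcap⟩ := hadm
  -- the cells of a window in free columns
  obtain ⟨F, hmF⟩ : ∃ F : ℕ → Finset (ℕ × ℕ), ∀ W c, c ∈ F W ↔ c ∈ C ∧ c.2 = W ∧
      ∀ b ∈ B, b.1 ≠ c.1 :=
    ⟨fun W => C.filter (fun c => c.2 = W ∧ ∀ b ∈ B, b.1 ≠ c.1), fun W c => Finset.mem_filter⟩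
  have hexch : ∀ (W : ℕ) (i k : Fin 3) (D : Finset (ℕ × ℕ)), D ⊆ F W → D.card ≤ j → i ≠ k →
      (∀ a ∈ D, ∀ b ∈ D, (y i a < y i b ↔ y k a < y k b)) →
      D.card ≤ (B.filter (fun c => c.2 = W)).card := by
    intro W i k D hD hDj hik hDc
    have hDr : ∀ c ∈ D, c ∈ C ∧ c.2 = W ∧ ∀ b ∈ B, b.1 ≠ c.1 := fun c hc => (hmF W c).1 (hD hc)
    have hval : ∃ I' J', BAdm C y j (B.filter (fun c => c.2 ≠ W) ∪ D) I' J' := by
      refine ⟨Function.update I W i, Function.update J W k, ?_, ?_, ?_, ?_, ?_⟩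
      · intro c hc
        rw [Finset.mem_union, Finset.mem_filter] at hc
        rcases hc with hc | hc
        · exact hsub hc.1
        · exact (hDr c hc).1
      · intro c hc c' hc' hcc
        rw [Finset.mem_union, Finset.mem_filter] at hc hc'
        rcases hc with hc | hc <;> rcases hc' with hc' | hc'
        · exact hcolB c hc.1 c' hc'.1 hcc
        · exact absurd hcc ((hDr c' hc').2.2 c hc.1)
        · exact absurd hcc.symm ((hDr c hc).2.2 c' hc'.1)
        · exact Prod.ext hcc ((hDr c hc).2.1.trans (hDr c' hc').2.1.symm)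
      · intro W'
        by_cases hW : W' = W
        · subst hW
          rw [Function.update_self, Function.update_self]
          exact hik
        · rw [Function.update_of_ne hW, Function.update_of_ne hW]
          exact hIJ W'
      · intro a ha b hb hab
        rw [Finset.mem_union, Finset.mem_filter] at ha hb
        rcases ha with ha | ha <;> rcases hb with hb | hb
        · rw [Function.update_of_ne ha.2, Function.update_of_ne ha.2]
          exact hch a ha.1 b hb.1 hab
        · exact absurd (hab.trans (hDr b hb).2.1) ha.2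
        · exact absurd (hab.symm.trans (hDr a ha).2.1) hb.2
        · rw [(hDr a ha).2.1, Function.update_self, Function.update_self]
          exact hDc a ha b hb
      · intro W'
        by_cases hW : W' = W
        · subst hW
          refine (Finset.card_le_card ?_).trans hDj
          intro c hc
          rw [Finset.mem_filter, Finset.mem_union, Finset.mem_filter] at hc
          rcases hc.1 with h1 | h1
          · exact absurd hc.2 h1.2
          · exact h1
        · refine (Finset.card_le_card ?_).trans (hcap W')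
          intro c hc
          rw [Finset.mem_filter, Finset.mem_union, Finset.mem_filter] at hc
          rcases hc.1 with h1 | h1
          · exact Finset.mem_filter.2 ⟨h1.1, hc.2⟩
          · exact absurd (hc.2.symm.trans (hDr c h1).2.1) hW
    have h1 := hBmax _ hval
    have hdis : Disjoint (B.filter (fun c => c.2 ≠ W)) D := by
      rw [Finset.disjoint_left]
      intro c hc hc'
      rw [Finset.mem_filter] at hc
      exact hc.2 (hDr c hc').2.1
    rw [Finset.card_union_of_disjoint hdis] at h1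
    have h2 : (B.filter (fun c => c.2 = W)).card + (B.filter (fun c => c.2 ≠ W)).card =
        B.card := Finset.card_filter_add_card_filter_not (s := B) (fun c => c.2 = W)
    omega
  have hstrip : ∀ W, (F W).card ≤ (B.filter (fun c => c.2 = W)).card * j ^ 2 := by
    intro W
    have hFC : (F W).card ≤ h := by
      refine (Finset.card_le_card ?_).trans (hH W)
      intro c hc
      rw [hmF] at hc
      exact Finset.mem_filter.2 ⟨hc.1, hc.2.1⟩
    rcases Nat.lt_or_ge (B.filter (fun c => c.2 = W)).card j with hlt | hge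
    · obtain ⟨D, hD, hDc, i, k, hik, hDm⟩ := es3 (F W) y (fun i a ha b hb =>
        hinj i a ((hmF W a).1 ha).1 b ((hmF W b).1 hb).1)
      have h1 : D.card ≤ (B.filter (fun c => c.2 = W)).card := by
        by_contra hcon
        push Not at hcon
        obtain ⟨D', hD', hcard⟩ := Finset.exists_subset_card_eq (s := D)
          (n := (B.filter (fun c => c.2 = W)).card + 1) hcon
        have h2 := hexch W i k D' (hD'.trans hD) (by omega) hik
          (fun a ha b hb => hDm a (hD' ha) b (hD' hb))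
        omega
      calc (F W).card ≤ D.card ^ 3 := hDc
        _ ≤ (B.filter (fun c => c.2 = W)).card ^ 3 := Nat.pow_le_pow_left h1 3
        _ = (B.filter (fun c => c.2 = W)).card * (B.filter (fun c => c.2 = W)).card ^ 2 := by ring
        _ ≤ _ := Nat.mul_le_mul_left _ (Nat.pow_le_pow_left (hcap W) 2)
    · calc (F W).card ≤ h := hFC
        _ ≤ j ^ 3 := hj
        _ = j * j ^ 2 := by ring
        _ ≤ _ := Nat.mul_le_mul_right _ hge
  refine ⟨B, I, J, ⟨hsub, hcolB, hIJ, hch, hcap⟩, ?_⟩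
  have h1 := Finset.card_filter_add_card_filter_not (s := C) (fun c => ∃ b ∈ B, b.1 = c.1)
  have h2 : (C.filter (fun c => ∃ b ∈ B, b.1 = c.1)).card ≤ B.card * u := by
    have h3 : C.filter (fun c => ∃ b ∈ B, b.1 = c.1) ⊆
        B.biUnion (fun b => C.filter (fun c => c.1 = b.1)) := by
      intro c hc
      rw [Finset.mem_filter] at hc
      obtain ⟨h, b, hb, hcc⟩ := hc
      rw [Finset.mem_biUnion]
      exact ⟨b, hb, Finset.mem_filter.mpr ⟨h, hcc.symm⟩⟩
    refine (Finset.card_le_card h3).trans ?_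
    exact Finset.card_biUnion_le_card_mul _ _ _ fun b _ => hU b.1
  have h4 : (C.filter (fun c => ¬ ∃ b ∈ B, b.1 = c.1)).card ≤ B.card * j ^ 2 := by
    obtain ⟨G, hG⟩ : ∃ G, G = C.filter (fun c => ¬ ∃ b ∈ B, b.1 = c.1) := ⟨_, rfl⟩
    rw [← hG]
    have h5 : G.card = ∑ W ∈ C.image Prod.snd, (G.filter (fun c => c.2 = W)).card := by
      refine Finset.card_eq_sum_card_fiberwise (fun c hc => ?_)
      have : c ∈ C := by
        rw [hG] at hc
        exact (Finset.mem_filter.mp hc).1
      exact Finset.mem_coe.mpr (Finset.mem_image_of_mem _ this)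
    have h6 : B.card = ∑ W ∈ C.image Prod.snd, (B.filter (fun c => c.2 = W)).card := by
      refine Finset.card_eq_sum_card_fiberwise (fun c hc => ?_)
      exact Finset.mem_coe.mpr (Finset.mem_image_of_mem _ (hsub hc))
    rw [h5, h6, Finset.sum_mul]
    refine Finset.sum_le_sum fun W _ => ?_
    refine le_trans (Finset.card_le_card ?_) (hstrip W)
    intro c hc
    rw [Finset.mem_filter, hG, Finset.mem_filter] at hc
    rw [hmF]
    exact ⟨hc.1.1, hc.2, fun b hb h => hc.1.2 ⟨b, hb, h⟩⟩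
  rw [mul_add]
  omega

theorem br_core (P : Finset Pt) (hP : Gen P) (u h j : ℕ) (hu : 0 < u) (hh : 0 < h)
    (hj : h ≤ j ^ 3) (C : Finset (ℕ × ℕ))
    (hC : ∀ c ∈ C, 3 ≤ (P.filter fun p => p.1 / u = c.1 ∧ p.2 / h = c.2).card) :
    ∃ M : Finset (Pt × Pt), WT P M ∧ C.card ≤ M.card * (j ^ 2 + u) := by
  classical
  have hch : ∀ c : ℕ × ℕ, ∃ t : Fin 3 → Pt, c ∈ C → (∀ i, t i ∈ P ∧ (t i).1 / u = c.1 ∧
      (t i).2 / h = c.2) ∧ ∀ i k, i ≠ k → t i ≠ t k := by
    intro c
    by_cases hc : c ∈ C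
    · obtain ⟨a, ha, b, hb, d, hd, hab, had, hbd⟩ := Finset.two_lt_card.1 (hC c hc)
      rw [Finset.mem_filter] at ha hb hd
      refine ⟨![a, b, d], fun _ => ⟨?_, ?_⟩⟩
      · intro i
        fin_cases i
        · exact ha
        · exact hb
        · exact hd
      · intro i k hik
        fin_cases i <;> fin_cases k <;> first | exact absurd rfl hik | skip
        · exact hab
        · exact had
        · exact hab.symm
        · exact hbd
        · exact had.symm
        · exact hbd.symm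
    · exact ⟨fun _ => (0, 0), fun h => absurd h hc⟩
  choose t ht using hch
  have htm : ∀ c ∈ C, ∀ i, t c i ∈ P ∧ (t c i).1 / u = c.1 ∧ (t c i).2 / h = c.2 :=
    fun c hc => (ht c hc).1
  have hcell : ∀ c ∈ C, ∀ c' ∈ C, ∀ i k, t c i = t c' k → c = c' := by
    intro c hc c' hc' i k e
    have h1 := htm c hc i
    have h2 := htm c' hc' k
    rw [e] at h1
    exact Prod.ext (h1.2.1.symm.trans h2.2.1) (h1.2.2.symm.trans h2.2.2)
  have hy : ∀ i, ∀ a ∈ C, ∀ b ∈ C, (t a i).2 = (t b i).2 → a = b := by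
    intro i a ha b hb e
    exact hcell a ha b hb i i (hP.2 _ (htm a ha i).1 _ (htm b hb i).1 e)
  have hx : ∀ a ∈ C, ∀ b ∈ C, (t a 0).1 = (t b 0).1 → a = b := by
    intro a ha b hb e
    exact hcell a ha b hb 0 0 (hP.1 _ (htm a ha 0).1 _ (htm b hb 0).1 e)
  have hH : ∀ W, (C.filter fun c => c.2 = W).card ≤ h := by
    intro W
    have h1 : (C.filter fun c => c.2 = W).card ≤ (Finset.Ico (W * h) (W * h + h)).card := by
      refine Finset.card_le_card_of_injOn (fun c => (t c 0).2) ?_ ?_
      · intro c hc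
        have hc' := Finset.mem_filter.1 (Finset.mem_coe.1 hc)
        have h2 := (htm c hc'.1 0).2.2
        rw [hc'.2] at h2
        refine Finset.mem_coe.2 (Finset.mem_Ico.2 ?_)
        have h3 := Nat.div_mul_le_self (t c 0).2 h
        have h4 := Nat.lt_div_mul_add (a := (t c 0).2) hh
        rw [h2] at h3 h4
        exact ⟨h3, h4⟩
      · intro a ha b hb e
        exact hy 0 a (Finset.mem_filter.1 (Finset.mem_coe.1 ha)).1 b
          (Finset.mem_filter.1 (Finset.mem_coe.1 hb)).1 e
    rwa [Nat.card_Ico, Nat.add_sub_cancel_left] at h1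
  have hU : ∀ x, (C.filter fun c => c.1 = x).card ≤ u := by
    intro x
    have h1 : (C.filter fun c => c.1 = x).card ≤ (Finset.Ico (x * u) (x * u + u)).card := by
      refine Finset.card_le_card_of_injOn (fun c => (t c 0).1) ?_ ?_
      · intro c hc
        have hc' := Finset.mem_filter.1 (Finset.mem_coe.1 hc)
        have h2 := (htm c hc'.1 0).2.1
        rw [hc'.2] at h2
        refine Finset.mem_coe.2 (Finset.mem_Ico.2 ?_)
        have h3 := Nat.div_mul_le_self (t c 0).1 u
        have h4 := Nat.lt_div_mul_add (a := (t c 0).1) hu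
        rw [h2] at h3 h4
        exact ⟨h3, h4⟩
      · intro a ha b hb e
        exact hx a (Finset.mem_filter.1 (Finset.mem_coe.1 ha)).1 b
          (Finset.mem_filter.1 (Finset.mem_coe.1 hb)).1 e
    rwa [Nat.card_Ico, Nat.add_sub_cancel_left] at h1
  obtain ⟨B, I, J, ⟨hsub, hcolB, hIJ, hchB, hcap⟩, hcount⟩ :=
    br_adm C u h j hj (fun i c => (t c i).2) hy hH hU
  obtain ⟨f, hf⟩ : ∃ f : ℕ × ℕ → Pt × Pt, ∀ c, f c = (t c (I c.2), t c (J c.2)) :=
    ⟨_, fun _ => rfl⟩
  have hfinj : ∀ c ∈ B, ∀ c' ∈ B, f c = f c' → c = c' := by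
    intro c hc c' hc' e
    rw [hf, hf] at e
    exact hcell c (hsub hc) c' (hsub hc') _ _ (congrArg Prod.fst e)
  -- comparison of coordinates
  have hdx : ∀ c ∈ B, ∀ c' ∈ B, c.1 < c'.1 → ∀ i k, (t c i).1 < (t c' k).1 := by
    intro c hc c' hc' hlt i k
    by_contra hcon
    push Not at hcon
    have h1 := Nat.div_le_div_right (c := u) hcon
    rw [(htm c (hsub hc) i).2.1, (htm c' (hsub hc') k).2.1] at h1
    omega
  have hdy : ∀ c ∈ B, ∀ c' ∈ B, c.2 < c'.2 → ∀ i k, (t c i).2 < (t c' k).2 := by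
    intro c hc c' hc' hlt i k
    by_contra hcon
    push Not at hcon
    have h1 := Nat.div_le_div_right (c := h) hcon
    rw [(htm c (hsub hc) i).2.2, (htm c' (hsub hc') k).2.2] at h1
    omega
  refine ⟨B.image f, ⟨?_, ?_⟩, ?_⟩
  · intro e he
    rw [Finset.mem_image] at he
    obtain ⟨c, hc, rfl⟩ := he
    rw [hf]
    exact ⟨(htm c (hsub hc) _).1, (htm c (hsub hc) _).1, (ht c (hsub hc)).2 _ _ (hIJ _)⟩
  · intro e he g hg hne
    rw [Finset.mem_image] at he hg
    obtain ⟨c, hc, rfl⟩ := he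
    obtain ⟨c', hc', rfl⟩ := hg
    have hcc : c ≠ c' := fun h => hne (by rw [h])
    rw [hf, hf]
    refine ⟨?_, ?_⟩
    · rcases lt_trichotomy c.1 c'.1 with h1 | h1 | h1
      · exact Or.inl ⟨hdx c hc c' hc' h1 _ _, hdx c hc c' hc' h1 _ _⟩
      · exact absurd (hcolB c hc c' hc' h1) hcc
      · exact Or.inr ⟨hdx c' hc' c hc h1 _ _, hdx c' hc' c hc h1 _ _⟩
    · rcases lt_trichotomy c.2 c'.2 with h1 | h1 | h1
      · exact Or.inl ⟨hdy c hc c' hc' h1 _ _, hdy c hc c' hc' h1 _ _⟩
      · have h2 := hchB c hc c' hc' h1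
        simp only at h2
        have h3 : (t c (I c.2)).2 ≠ (t c' (I c'.2)).2 := by
          rw [← h1]
          exact fun h => hcc (hy _ c (hsub hc) c' (hsub hc') h)
        have h4 : (t c (J c.2)).2 ≠ (t c' (J c'.2)).2 := by
          rw [← h1]
          exact fun h => hcc (hy _ c (hsub hc) c' (hsub hc') h)
        rw [← h1] at h3 h4 ⊢
        show ((t c (I c.2)).2 < (t c' (I c.2)).2 ∧ (t c (J c.2)).2 < (t c' (J c.2)).2) ∨
          ((t c' (I c.2)).2 < (t c (I c.2)).2 ∧ (t c' (J c.2)).2 < (t c (J c.2)).2)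
        omega
      · exact Or.inr ⟨hdy c' hc' c hc h1 _ _, hdy c' hc' c hc h1 _ _⟩
  · rw [Finset.card_image_of_injOn]
    · exact hcount
    · intro c hc c' hc' e
      exact hfinj c hc c' hc' e

end Tw11
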