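import Pool.Agent.Tw11.BRCore

/-!
# Tw11 / BRScale: the Bukh-Rudenko step, choice of the dyadic scale

If `B` points of `P` lie in cells (column block of width `u`) x (window of height `2 ^ s`) with at least
three points, then there are weak twins `M` with `B ≤ 4 * s * (M.card * (j ^ 2 + u))`, `2 ^ s ≤ j ^ 3`.

PROOF. For `p ∈ P` and `i ≤ s` let `cnt i p` = number of `q ∈ P` with `q.1 / u = p.1 / u` and
`q.2 / 2 ^ i = p.2 / 2 ^ i`; `Bad i = {p ∈ P | 3 ≤ cnt i p}`. `cnt 0 p ≤ 1` (`Gen P`), so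
`Bad 0 = ∅`. Let `FB i = Bad (i+1) \ Bad i` for `i < s`. `Bad s ⊆ ⋃_{i < s} FB i` (least `i` with
`p ∈ Bad i`), hence `(Bad s).card ≤ ∑_{i < s} (FB i).card`.
For `i < s` let `C_i = (FB i).image (fun p => (p.1 / u, p.2 / 2 ^ (i+1)))`. Every cell `c ∈ C_i`
has at least 3 points, so `br_core` (with `h = 2 ^ (i+1) ≤ 2 ^ s ≤ j ^ 3`) gives `M_i` with
`C_i.card ≤ M_i.card * (j ^ 2 + u)`. Every cell `c` of `C_i` contains at most 4 points of `FB i`:
it is the union of two half cells `(c.1, 2 c.2)`, `(c.1, 2 c.2 + 1)` at scale `2 ^ i`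
(`p.2 / 2 ^ (i+1) = p.2 / 2 ^ i / 2`), and a half cell which contains a point of `FB i` (not in `Bad i`)
has at most 2 points of `P`. So `(FB i).card ≤ 4 * C_i.card` (`Finset.card_le_mul_card_image`).
Take `M` = the `M_i` of maximal cardinality (if `s = 0`: `Bad 0 = ∅`, `M = ∅`).
-/

set_option autoImplicit false

namespace Tw11

namespace BRScaleAux

/-- the bad points at scale `i` -/
def Bad (P : Finset Pt) (u i : ℕ) : Finset Pt :=
  P.filter fun p => 3 ≤ (P.filter fun q => q.1 / u = p.1 / u ∧ q.2 / 2 ^ i = p.2 / 2 ^ i).card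

theorem bad_zero (P : Finset Pt) (hP : Gen P) (u : ℕ) : (Bad P u 0).card = 0 := by
  rw [Finset.card_eq_zero, Bad, Finset.filter_eq_empty_iff]
  intro p hp
  have h1 : (P.filter fun q => q.1 / u = p.1 / u ∧ q.2 / 2 ^ 0 = p.2 / 2 ^ 0) ⊆ {p} := by
    intro q hq
    rw [Finset.mem_filter, pow_zero, Nat.div_one, Nat.div_one] at hq
    rw [Finset.mem_singleton]
    exact hP.2 q hq.1 p hp hq.2.2
  have h2 := Finset.card_le_card h1
  rw [Finset.card_singleton] at h2
  omega

theorem fiber_le (P : Finset Pt) (u s : ℕ) (a : ℕ × ℕ) (v : ℕ) :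
    ((Bad P u (s + 1) \ Bad P u s).filter fun p => p.1 / u = a.1 ∧ p.2 / 2 ^ s = v).card ≤ 2 := by
  rcases Finset.eq_empty_or_nonempty
    ((Bad P u (s + 1) \ Bad P u s).filter fun p => p.1 / u = a.1 ∧ p.2 / 2 ^ s = v) with h | ⟨p, hp⟩
  · rw [h, Finset.card_empty]
    exact Nat.zero_le _
  · rw [Finset.mem_filter, Finset.mem_sdiff] at hp
    obtain ⟨⟨h1, h2⟩, h3, h4⟩ := hp
    have hpP : p ∈ P := (Finset.mem_filter.1 h1).1
    have h5 : (P.filter fun q => q.1 / u = p.1 / u ∧ q.2 / 2 ^ s = p.2 / 2 ^ s).card ≤ 2 := by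
      by_contra h
      apply h2
      rw [Bad, Finset.mem_filter]
      exact ⟨hpP, by omega⟩
    refine (Finset.card_le_card ?_).trans h5
    intro q hq
    rw [Finset.mem_filter, Finset.mem_sdiff] at hq
    rw [Finset.mem_filter]
    exact ⟨(Finset.mem_filter.1 hq.1.1).1, hq.2.1.trans h3.symm, hq.2.2.trans h4.symm⟩

theorem fb_le (P : Finset Pt) (u s : ℕ) :
    (Bad P u (s + 1) \ Bad P u s).card ≤ 4 *
      ((Bad P u (s + 1) \ Bad P u s).image fun p => (p.1 / u, p.2 / 2 ^ (s + 1))).card := by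
  apply Finset.card_le_mul_card_image
  intro a _
  have h1 : ((Bad P u (s + 1) \ Bad P u s).filter fun p =>
      (p.1 / u, p.2 / 2 ^ (s + 1)) = a) ⊆
      ((Bad P u (s + 1) \ Bad P u s).filter fun p => p.1 / u = a.1 ∧ p.2 / 2 ^ s = 2 * a.2) ∪
      ((Bad P u (s + 1) \ Bad P u s).filter fun p => p.1 / u = a.1 ∧
        p.2 / 2 ^ s = 2 * a.2 + 1) := by
    intro p hp
    rw [Finset.mem_filter] at hp
    obtain ⟨hp1, hp2⟩ := hp
    have h2 : p.1 / u = a.1 := by rw [← hp2]
    have h3 : p.2 / 2 ^ s / 2 = a.2 := by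
      rw [← hp2, Nat.div_div_eq_div_mul, pow_succ]
    rw [Finset.mem_union, Finset.mem_filter, Finset.mem_filter]
    rcases Nat.even_or_odd' (p.2 / 2 ^ s) with ⟨k, hk | hk⟩
    · left
      exact ⟨hp1, h2, by omega⟩
    · right
      exact ⟨hp1, h2, by omega⟩
  have h4 := (Finset.card_le_card h1).trans (Finset.card_union_le _ _)
  have h5 := fiber_le P u s a (2 * a.2)
  have h6 := fiber_le P u s a (2 * a.2 + 1)
  omega

end BRScaleAux

open BRScaleAux in
theorem br_scale (P : Finset Pt) (hP : Gen P) (u s j : ℕ) (hu : 0 < u) (hj : 2 ^ s ≤ j ^ 3) :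
    ∃ M : Finset (Pt × Pt), WT P M ∧
      (P.filter fun p => 3 ≤ (P.filter fun q => q.1 / u = p.1 / u ∧
        q.2 / 2 ^ s = p.2 / 2 ^ s).card).card ≤ 4 * s * (M.card * (j ^ 2 + u)) := by
  have key : ∃ M : Finset (Pt × Pt), WT P M ∧
      (Bad P u s).card ≤ 4 * s * (M.card * (j ^ 2 + u)) := by
    induction s with
    | zero =>
      refine ⟨∅, ⟨by simp, by simp⟩, ?_⟩
      rw [bad_zero P hP u]
      exact Nat.zero_le _
    | succ s ih =>
      have hj' : 2 ^ s ≤ j ^ 3 := (Nat.pow_le_pow_right (by norm_num) (Nat.le_succ s)).trans hj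
      obtain ⟨M1, hM1, hB1⟩ := ih hj'
      obtain ⟨M2, hM2, hB2⟩ := br_core P hP u (2 ^ (s + 1)) j hu (by positivity) hj
        ((Bad P u (s + 1) \ Bad P u s).image fun p => (p.1 / u, p.2 / 2 ^ (s + 1))) (by
          intro c hc
          rw [Finset.mem_image] at hc
          obtain ⟨p, hp, rfl⟩ := hc
          rw [Finset.mem_sdiff] at hp
          exact (Finset.mem_filter.1 hp.1).2)
      have h1 := fb_le P u s
      have h2 : (Bad P u (s + 1)).card ≤ (Bad P u s).card + (Bad P u (s + 1) \ Bad P u s).card := by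
        have := Finset.card_le_card_sdiff_add_card (s := Bad P u (s + 1)) (t := Bad P u s)
        omega
      have h3 : (Bad P u (s + 1)).card ≤ 4 * s * (M1.card * (j ^ 2 + u)) +
          4 * (M2.card * (j ^ 2 + u)) := by
        have := Nat.mul_le_mul_left 4 hB2
        omega
      rcases le_total M1.card M2.card with h | h
      · refine ⟨M2, hM2, h3.trans ?_⟩
        have h4 : 4 * s * (M1.card * (j ^ 2 + u)) ≤ 4 * s * (M2.card * (j ^ 2 + u)) :=
          Nat.mul_le_mul_left _ (Nat.mul_le_mul_right _ h)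
        calc _ ≤ 4 * s * (M2.card * (j ^ 2 + u)) + 4 * (M2.card * (j ^ 2 + u)) :=
              Nat.add_le_add_right h4 _
          _ = 4 * (s + 1) * (M2.card * (j ^ 2 + u)) := by ring
      · refine ⟨M1, hM1, h3.trans ?_⟩
        have h4 : 4 * (M2.card * (j ^ 2 + u)) ≤ 4 * (M1.card * (j ^ 2 + u)) :=
          Nat.mul_le_mul_left _ (Nat.mul_le_mul_right _ h)
        calc _ ≤ 4 * s * (M1.card * (j ^ 2 + u)) + 4 * (M1.card * (j ^ 2 + u)) :=
              Nat.add_le_add_left h4 _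
          _ = 4 * (s + 1) * (M1.card * (j ^ 2 + u)) := by ring
  exact key

end Tw11
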