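import Pool.Agent.Tw11.Def

/-!
# Tw11 / Basics: reflection, independent sets, from weak twins to twins

PROOFS.
* `mem_sw, card_sw, gen_sw`: `Prod.swap` is an involution, `Finset.mem_image`,
  `Finset.card_image_of_injective`.
* `wt_of_sw`: take `M' = M.image (fun e => (e.1.swap, e.2.swap))`; `Par` is symmetric under the
  exchange of the coordinates.
* `indep`: choose `I ⊆ T` with `∀ a ∈ I, ∀ b ∈ I, a ≠ b → ¬ r a b` of maximal cardinality. Every
  `a ∈ T \ I` has some `b ∈ I` with `r a b` or `r b a` (otherwise `insert a I`), hence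
  `T ⊆ I ∪ ⋃_{b ∈ I} {a ∈ T | a ≠ b ∧ r b a}` and the cardinality is at most `(d+1) * I.card`.
* `hasTwin_of_wt`: sources `e.1` of different `e ∈ M` are different (by `Par` the first
  coordinates differ), targets `e.2` too. Relation `r e f := e.2 = f.1 ∨ f.2 = e.1`: each `e` has at
  most 2 neighbours (one `f` with source `e.2`, one `f` with target `e.1`). By `indep` with `d = 2`
  there is `I ⊆ M`, `M.card ≤ 3 * I.card`, with no source equal to a target (for `e = f` use
  `e.1 ≠ e.2`). Put `t = I.card`. Let `X = I.image (fun e => e.1.1)`, `X.card = t`; for `k : Fin t`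
  let `e_k ∈ I` be the pair whose source has first coordinate the `k`-th element of `X`
  (`Finset.orderEmbOfFin`). Then `k ↦ e_k.1.1` is strictly increasing, so by `Par`
  `k ↦ e_k.2.1` is strictly increasing; all these numbers are `< n` because the points are in
  `gr π`, and `π ⟨e_k.1.1, _⟩ = e_k.1.2` etc. `f k = ⟨e_k.1.1, _⟩`, `g k = ⟨e_k.2.1, _⟩`
  (`OrderEmbedding.ofStrictMono`); the values are compared with the second half of `Par`.
* `hasTwin_one`: `f = (0)`, `g = (1)`, as functions from `Fin 1`.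
-/

set_option autoImplicit false

namespace Tw11

theorem mem_sw {P : Finset Pt} {p : Pt} : p ∈ sw P ↔ p.swap ∈ P := by
  unfold sw
  rw [Finset.mem_image]
  constructor
  · rintro ⟨q, hq, rfl⟩
    simpa using hq
  · intro h
    exact ⟨p.swap, h, Prod.swap_swap p⟩

theorem card_sw (P : Finset Pt) : (sw P).card = P.card :=
  Finset.card_image_of_injective _ Prod.swap_injective

theorem gen_sw {P : Finset Pt} (h : Gen P) : Gen (sw P) := by
  refine ⟨fun p hp q hq e => ?_, fun p hp q hq e => ?_⟩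
  · rw [mem_sw] at hp hq
    exact Prod.swap_injective (h.2 _ hp _ hq e)
  · rw [mem_sw] at hp hq
    exact Prod.swap_injective (h.1 _ hp _ hq e)

theorem wt_mono {P P' : Finset Pt} {M : Finset (Pt × Pt)} (h : P' ⊆ P) (hM : WT P' M) :
    WT P M :=
  ⟨fun e he => ⟨h (hM.1 e he).1, h (hM.1 e he).2.1, (hM.1 e he).2.2⟩, hM.2⟩

theorem wt_of_sw {P : Finset Pt} {M : Finset (Pt × Pt)} (hM : WT (sw P) M) :
    ∃ M' : Finset (Pt × Pt), WT P M' ∧ M'.card = M.card := by
  have hinj : Function.Injective (fun e : Pt × Pt => (e.1.swap, e.2.swap)) := by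
    rintro ⟨⟨a, b⟩, ⟨c, d⟩⟩ ⟨⟨a', b'⟩, ⟨c', d'⟩⟩ h
    simp only [Prod.swap_prod_mk, Prod.mk.injEq] at h ⊢
    tauto
  refine ⟨M.image (fun e => (e.1.swap, e.2.swap)), ⟨?_, ?_⟩, Finset.card_image_of_injective _ hinj⟩
  · intro e he
    rw [Finset.mem_image] at he
    obtain ⟨e', he', rfl⟩ := he
    obtain ⟨h1, h2, h3⟩ := hM.1 e' he'
    rw [mem_sw] at h1 h2
    exact ⟨h1, h2, fun h => h3 (Prod.swap_injective h)⟩
  · intro e he f hf hef
    rw [Finset.mem_image] at he hf
    obtain ⟨e', he', rfl⟩ := he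
    obtain ⟨f', hf', rfl⟩ := hf
    have hne : e' ≠ f' := fun h => hef (by rw [h])
    have := hM.2 e' he' f' hf' hne
    exact ⟨this.2, this.1⟩

theorem gen_gr {n : ℕ} (π : Equiv.Perm (Fin n)) : Gen (gr π) := by
  refine ⟨fun p hp q hq e => ?_, fun p hp q hq e => ?_⟩
  · unfold gr at hp hq
    rw [Finset.mem_image] at hp hq
    obtain ⟨i, _, rfl⟩ := hp
    obtain ⟨j, _, rfl⟩ := hq
    have : i = j := Fin.ext e
    rw [this]
  · unfold gr at hp hq
    rw [Finset.mem_image] at hp hq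
    obtain ⟨i, _, rfl⟩ := hp
    obtain ⟨j, _, rfl⟩ := hq
    have : i = j := π.injective (Fin.ext e)
    rw [this]

theorem card_gr {n : ℕ} (π : Equiv.Perm (Fin n)) : (gr π).card = n := by
  unfold gr
  rw [Finset.card_image_of_injective, Finset.card_univ, Fintype.card_fin]
  intro i j h
  simp only [Prod.mk.injEq] at h
  exact Fin.ext h.1

theorem gr_lt {n : ℕ} (π : Equiv.Perm (Fin n)) {p : Pt} (hp : p ∈ gr π) : p.1 < n ∧ p.2 < n := by
  unfold gr at hp
  rw [Finset.mem_image] at hp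
  obtain ⟨i, _, rfl⟩ := hp
  exact ⟨i.2, (π i).2⟩

/-- an independent set in a graph of bounded degree -/
theorem indep {α : Type*} [DecidableEq α] (T : Finset α) (r : α → α → Prop) [DecidableRel r]
    (hs : ∀ a b, r a b → r b a) (d : ℕ)
    (hd : ∀ a ∈ T, (T.filter fun b => b ≠ a ∧ r a b).card ≤ d) :
    ∃ I ⊆ T, T.card ≤ (d + 1) * I.card ∧ ∀ a ∈ I, ∀ b ∈ I, a ≠ b → ¬ r a b := by
  obtain ⟨I, hI, hmax⟩ := Finset.exists_max_image
    (T.powerset.filter fun I => ∀ a ∈ I, ∀ b ∈ I, a ≠ b → ¬ r a b) (fun I => I.card)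
    ⟨∅, by simp⟩
  rw [Finset.mem_filter, Finset.mem_powerset] at hI
  obtain ⟨hIT, hind⟩ := hI
  refine ⟨I, hIT, ?_, hind⟩
  have hsub : T ⊆ I.biUnion fun b => insert b (T.filter fun a => a ≠ b ∧ r b a) := by
    intro a ha
    rw [Finset.mem_biUnion]
    by_cases haI : a ∈ I
    · exact ⟨a, haI, Finset.mem_insert_self _ _⟩
    · by_contra hcon
      push Not at hcon
      have hno : ∀ b ∈ I, ¬ r b a := by
        intro b hb hr
        refine hcon b hb (Finset.mem_insert_of_mem (Finset.mem_filter.2 ⟨ha, ?_, hr⟩))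
        rintro rfl
        exact haI hb
      have hmem : insert a I ∈ T.powerset.filter fun I => ∀ a ∈ I, ∀ b ∈ I, a ≠ b → ¬ r a b := by
        rw [Finset.mem_filter, Finset.mem_powerset]
        refine ⟨Finset.insert_subset ha hIT, ?_⟩
        intro x hx y hy hxy hr
        rcases Finset.mem_insert.1 hx with h1 | h1
        · rcases Finset.mem_insert.1 hy with h2 | h2
          · exact hxy (h1.trans h2.symm)
          · rw [h1] at hr
            exact hno y h2 (hs _ _ hr)
        · rcases Finset.mem_insert.1 hy with h2 | h2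
          · rw [h2] at hr
            exact hno x h1 hr
          · exact hind x h1 y h2 hxy hr
      have := hmax _ hmem
      rw [Finset.card_insert_of_notMem haI] at this
      omega
  calc T.card ≤ _ := Finset.card_le_card hsub
    _ ≤ ∑ b ∈ I, (insert b (T.filter fun a => a ≠ b ∧ r b a)).card := Finset.card_biUnion_le
    _ ≤ ∑ _b ∈ I, (d + 1) := by
        refine Finset.sum_le_sum fun b hb => ?_
        refine (Finset.card_insert_le _ _).trans ?_
        have := hd b (hIT hb)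
        omega
    _ = (d + 1) * I.card := by
        rw [Finset.sum_const, smul_eq_mul, mul_comm]

namespace Basics

theorem val_of_gr {n : ℕ} (π : Equiv.Perm (Fin n)) (p : Pt) (hp : p ∈ gr π) (h : p.1 < n) :
    (π ⟨p.1, h⟩).val = p.2 := by
  unfold gr at hp
  rw [Finset.mem_image] at hp
  obtain ⟨i, _, rfl⟩ := hp
  rfl

theorem inj1 {P : Finset Pt} {M : Finset (Pt × Pt)} (hM : WT P M) :
    ∀ e ∈ M, ∀ f ∈ M, e.1.1 = f.1.1 → e = f := by
  intro e he f hf h
  by_contra hne
  rcases (hM.2 e he f hf hne).1 with h1 | h1 <;> omega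

theorem inj2 {P : Finset Pt} {M : Finset (Pt × Pt)} (hM : WT P M) :
    ∀ e ∈ M, ∀ f ∈ M, e.2.1 = f.2.1 → e = f := by
  intro e he f hf h
  by_contra hne
  rcases (hM.2 e he f hf hne).1 with h1 | h1 <;> omega

theorem third {P : Finset Pt} {M : Finset (Pt × Pt)} (hM : WT P M) :
    ∃ I ⊆ M, M.card ≤ 3 * I.card ∧ ∀ e ∈ I, ∀ f ∈ I, e ≠ f → ¬ (e.2 = f.1 ∨ f.2 = e.1) := by
  refine indep M (fun e f => e.2 = f.1 ∨ f.2 = e.1) (fun a b h => h.symm) 2 ?_
  intro e he
  have hsub : (M.filter fun f => f ≠ e ∧ (e.2 = f.1 ∨ f.2 = e.1)) ⊆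
      (M.filter fun f => e.2 = f.1) ∪ (M.filter fun f => f.2 = e.1) := by
    intro f hf
    simp only [Finset.mem_filter, Finset.mem_union] at hf ⊢
    tauto
  refine (Finset.card_le_card hsub).trans ((Finset.card_union_le _ _).trans ?_)
  have c1 : (M.filter fun f => e.2 = f.1).card ≤ 1 := by
    rw [Finset.card_le_one]
    intro a ha b hb
    rw [Finset.mem_filter] at ha hb
    exact inj1 hM a ha.1 b hb.1 (by rw [← ha.2, ← hb.2])
  have c2 : (M.filter fun f => f.2 = e.1).card ≤ 1 := by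
    rw [Finset.card_le_one]
    intro a ha b hb
    rw [Finset.mem_filter] at ha hb
    exact inj2 hM a ha.1 b hb.1 (by rw [ha.2, hb.2])
  omega

theorem enumX (X : Finset ℕ) (t : ℕ) (hX : X.card = t) :
    ∃ em : Fin t → ℕ, StrictMono em ∧ ∀ k, em k ∈ X :=
  ⟨X.orderEmbOfFin hX, OrderEmbedding.strictMono _, Finset.orderEmbOfFin_mem X hX⟩

theorem enum {P : Finset Pt} {M : Finset (Pt × Pt)} (hM : WT P M) (I : Finset (Pt × Pt)) (hIM : I ⊆ M) :
    ∃ e : Fin I.card → Pt × Pt, (∀ k, e k ∈ I) ∧ (∀ i j, i < j → (e i).1.1 < (e j).1.1) := by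
  have hXc : (I.image fun e => e.1.1).card = I.card := by
    refine Finset.card_image_of_injOn ?_
    intro a ha b hb h
    exact inj1 hM a (hIM ha) b (hIM hb) h
  obtain ⟨em, hem, hemX⟩ := enumX _ _ hXc
  have hex : ∀ k : Fin I.card, ∃ e ∈ I, e.1.1 = em k := by
    intro k
    have := hemX k
    rw [Finset.mem_image] at this
    exact this
  choose e heI he using hex
  refine ⟨e, heI, ?_⟩
  intro i j hij
  rw [he, he]
  exact hem hij

end Basics

theorem hasTwin_of_wt {n : ℕ} (π : Equiv.Perm (Fin n)) (M : Finset (Pt × Pt))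
    (hM : WT (gr π) M) : ∃ t, HasTwin π t ∧ M.card ≤ 3 * t := by
  obtain ⟨I, hIM, hcard, hind⟩ := Basics.third hM
  refine ⟨I.card, ?_, hcard⟩
  obtain ⟨e, heI, hlt⟩ := Basics.enum hM I hIM
  have heM : ∀ k, e k ∈ M := fun k => hIM (heI k)
  have hlt2 : ∀ i j, i < j → (e i).2.1 < (e j).2.1 := by
    intro i j hij
    have h1 := hlt i j hij
    have hne : e i ≠ e j := fun h => by rw [h] at h1; exact lt_irrefl _ h1
    rcases (hM.2 _ (heM i) _ (heM j) hne).1 with h | h
    · exact h.2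
    · omega
  have hn1 : ∀ k, (e k).1.1 < n := fun k => (gr_lt π (hM.1 _ (heM k)).1).1
  have hn2 : ∀ k, (e k).2.1 < n := fun k => (gr_lt π (hM.1 _ (heM k)).2.1).1
  refine ⟨OrderEmbedding.ofStrictMono (fun k => ⟨(e k).1.1, hn1 k⟩) (fun i j h => hlt i j h),
    OrderEmbedding.ofStrictMono (fun k => ⟨(e k).2.1, hn2 k⟩) (fun i j h => hlt2 i j h), ?_, ?_⟩
  · intro i j h
    have h1 : (e i).1.1 = (e j).2.1 := congrArg Fin.val h
    have h2 : (e i).1 = (e j).2 :=
      (gen_gr π).1 _ (hM.1 _ (heM i)).1 _ (hM.1 _ (heM j)).2.1 h1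
    by_cases hij : e i = e j
    · rw [hij] at h2
      exact (hM.1 _ (heM j)).2.2 h2
    · exact hind _ (heI i) _ (heI j) hij (Or.inr h2.symm)
  · intro i j
    show π ⟨(e i).1.1, hn1 i⟩ < π ⟨(e j).1.1, hn1 j⟩ ↔ π ⟨(e i).2.1, hn2 i⟩ < π ⟨(e j).2.1, hn2 j⟩
    rw [Fin.lt_def, Fin.lt_def, Basics.val_of_gr π _ (hM.1 _ (heM i)).1,
      Basics.val_of_gr π _ (hM.1 _ (heM j)).1,
      Basics.val_of_gr π _ (hM.1 _ (heM i)).2.1, Basics.val_of_gr π _ (hM.1 _ (heM j)).2.1]
    by_cases hij : e i = e j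
    · rw [hij]
      simp
    · rcases (hM.2 _ (heM i) _ (heM j) hij).2 with h | h
      · exact ⟨fun _ => h.2, fun _ => h.1⟩
      · constructor <;> intro h' <;> omega

theorem hasTwin_one {n : ℕ} (hn : 2 ≤ n) (π : Equiv.Perm (Fin n)) : HasTwin π 1 := by
  refine ⟨OrderEmbedding.ofStrictMono (fun _ => ⟨0, by omega⟩)
      (fun i j h => absurd h (by rw [Subsingleton.elim i j]; exact lt_irrefl _)),
    OrderEmbedding.ofStrictMono (fun _ => ⟨1, by omega⟩)
      (fun i j h => absurd h (by rw [Subsingleton.elim i j]; exact lt_irrefl _)), ?_, ?_⟩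
  · intro i j h
    have := congrArg Fin.val h
    simp at this
  · intro i j
    rw [Subsingleton.elim i j]
    simp

end Tw11
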