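import Pool.Agent.Tw11.Match

/-!
# Tw11 / Prob: the second moment lemma

`Gs` is a finite set of candidates. `ω : 𝒜 → Ω` and `ω' : 𝒮 → Ω'` are random (uniform)
functions; `g` is captured by `ω` if `ω (A g) = e g` and by `ω'` if `ω' (S g) = e' g`. Hypothesis
`hcol`: for every `ω` and every `c`, the elements `g` captured by `ω` with `i g = c` are at most `θ`
and have different `S g`; `hrow` is the same with the roles exchanged.

PROOF (double counting, `m = card Ω`, `m' = card Ω'`, `Z = card (𝒜 → Ω)`, `Z' = card (𝒮 → Ω')`;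
work in `ℝ` or `ℕ`).
(0) For `a : 𝒜`, `x : Ω`: `#{ω | ω a = x} * m = Z`; for `a ≠ b`:
`#{ω | ω a = x ∧ ω b = y} * m ^ 2 = Z` (e.g. `Fintype.card_piFinset`, or the bijection which changes
the value at one point: `Function.update`; or `Fintype.card_filter_piFinset...`). Same for `ω'`.
(1) Let `M(ω, ω')` = set of the `g ∈ Gs` captured by `ω` and `ω'`. By `match_lemma` there is
`T(ω, ω') ⊆ M(ω, ω')`, `i, j` injective on it, with
`M.card ^ 2 ≤ 2 * T.card * (X2 + Y2)`, `X2 = #{(g, h) ∈ M × M | i g = i h}`, `Y2` = same for `j`.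
Let `t` be the maximum of `T(ω, ω').card` over all pairs (finite, nonempty).
(2) `∑_{ω, ω'} M.card = Gs.card * Z * Z' / (m * m')` (exchange sums, (0)).
(3) `∑_{ω, ω'} X2 = ∑_ω ∑_{g, h captured by ω, i g = i h} #{ω' | ω' (S g) = e' g ∧ ω' (S h) = e' h}`.
For `h = g` the number is `Z' / m'`; for `h ≠ g` we have `S g ≠ S h` by `hcol` and the number is
`Z' / m' ^ 2`; for given `ω, g` there are at most `θ` elements `h`. So
`∑ X2 ≤ ∑_ω ∑_{g captured} (Z' / m') * (1 + θ / m') = Gs.card * (Z / m) * (Z' / m') * (1 + θ / m')`.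
Same for `Y2` with `1 + θ' / m`.
(4) Cauchy-Schwarz: `(∑ M.card) ^ 2 ≤ Z * Z' * ∑ M.card ^ 2 ≤ Z * Z' * 2 * t * (∑ X2 + ∑ Y2)`, hence
`(Gs.card * Z * Z' / (m m')) ^ 2 ≤ Z * Z' * 2 * t * (Gs.card * Z * Z' / (m m')) * (2 + θ / m' + θ' / m)`.
If `Gs.card = 0` the statement is trivial; otherwise divide:
`Gs.card ≤ 2 * t * (m m') * (2 + θ / m' + θ' / m) = 2 * t * (2 m m' + θ m + θ' m')`.
The maximizing `(ω, ω')` and its `T` are as required.
-/

set_option autoImplicit false

namespace Tw11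

section counting

variable {𝒜 Ω : Type} [Fintype 𝒜] [Fintype Ω] [DecidableEq 𝒜] [DecidableEq Ω]

theorem cnt_one (a : 𝒜) (x : Ω) :
    ((Finset.univ : Finset (𝒜 → Ω)).filter fun ω => ω a = x).card * Fintype.card Ω =
      Fintype.card (𝒜 → Ω) := by
  have h : ((Finset.univ : Finset (𝒜 → Ω)).filter fun ω => ω a = x) =
      Fintype.piFinset fun c => if c = a then {x} else Finset.univ := by
    ext ω
    rw [Finset.mem_filter, Fintype.mem_piFinset]
    constructor
    · rintro ⟨_, h⟩ c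
      split_ifs with hc
      · rw [hc, Finset.mem_singleton]
        exact h
      · exact Finset.mem_univ _
    · intro h
      refine ⟨Finset.mem_univ _, ?_⟩
      have := h a
      rw [if_pos rfl, Finset.mem_singleton] at this
      exact this
  rw [h, Fintype.card_piFinset, Fintype.card_fun]
  have h2 : ∀ c : 𝒜, (if c = a then ({x} : Finset Ω) else Finset.univ).card =
      if c = a then 1 else Fintype.card Ω := by
    intro c
    split_ifs <;> simp
  simp_rw [h2]
  rw [← Finset.prod_erase_mul Finset.univ _ (Finset.mem_univ a), if_pos rfl, mul_one]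
  have h3 : ∏ c ∈ Finset.univ.erase a, (if c = a then 1 else Fintype.card Ω) =
      ∏ c ∈ Finset.univ.erase a, Fintype.card Ω := by
    apply Finset.prod_congr rfl
    intro c hc
    rw [if_neg (Finset.ne_of_mem_erase hc)]
  rw [h3, Finset.prod_const, ← pow_succ, Finset.card_erase_add_one (Finset.mem_univ a)]
  rfl

theorem cnt_two {a b : 𝒜} (hab : a ≠ b) (x y : Ω) :
    ((Finset.univ : Finset (𝒜 → Ω)).filter fun ω => ω a = x ∧ ω b = y).card *
      Fintype.card Ω ^ 2 = Fintype.card (𝒜 → Ω) := by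
  have h : ((Finset.univ : Finset (𝒜 → Ω)).filter fun ω => ω a = x ∧ ω b = y) =
      Fintype.piFinset fun c => if c = a then {x} else if c = b then {y} else Finset.univ := by
    ext ω
    rw [Finset.mem_filter, Fintype.mem_piFinset]
    constructor
    · rintro ⟨_, h, h'⟩ c
      split_ifs with hc hc'
      · rw [hc, Finset.mem_singleton]
        exact h
      · rw [hc', Finset.mem_singleton]
        exact h'
      · exact Finset.mem_univ _
    · intro h
      refine ⟨Finset.mem_univ _, ?_, ?_⟩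
      · have := h a
        rw [if_pos rfl, Finset.mem_singleton] at this
        exact this
      · have := h b
        rw [if_neg hab.symm, if_pos rfl, Finset.mem_singleton] at this
        exact this
  rw [h, Fintype.card_piFinset, Fintype.card_fun]
  have h2 : ∀ c : 𝒜, (if c = a then ({x} : Finset Ω) else if c = b then {y} else
      Finset.univ).card = if c = a then 1 else if c = b then 1 else Fintype.card Ω := by
    intro c
    split_ifs <;> simp
  simp_rw [h2]
  have hb : b ∈ Finset.univ.erase a := Finset.mem_erase.2 ⟨hab.symm, Finset.mem_univ _⟩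
  rw [← Finset.prod_erase_mul Finset.univ _ (Finset.mem_univ a), if_pos rfl, mul_one,
    ← Finset.prod_erase_mul _ _ hb, if_neg hab.symm, if_pos rfl, mul_one]
  have h3 : ∏ c ∈ (Finset.univ.erase a).erase b,
      (if c = a then 1 else if c = b then 1 else Fintype.card Ω) =
      ∏ c ∈ (Finset.univ.erase a).erase b, Fintype.card Ω := by
    apply Finset.prod_congr rfl
    intro c hc
    rw [if_neg (Finset.ne_of_mem_erase (Finset.mem_of_mem_erase hc)),
      if_neg (Finset.ne_of_mem_erase hc)]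
  rw [h3, Finset.prod_const, ← pow_add]
  congr 1
  have h4 := Finset.card_erase_add_one hb
  have h5 := Finset.card_erase_add_one (Finset.mem_univ a)
  have h6 : (Finset.univ : Finset 𝒜).card = Fintype.card 𝒜 := rfl
  omega

end counting

/-- the elements captured by both functions -/
def capt {G 𝒜 𝒮 Ω Ω' : Type} [DecidableEq Ω] [DecidableEq Ω'] (Gs : Finset G) (A : G → 𝒜)
    (S : G → 𝒮) (e : G → Ω) (e' : G → Ω') (ω : 𝒜 → Ω) (ω' : 𝒮 → Ω') : Finset G :=
  Gs.filter fun g => ω (A g) = e g ∧ ω' (S g) = e' g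

theorem capt_swap {G 𝒜 𝒮 Ω Ω' : Type} [DecidableEq Ω] [DecidableEq Ω'] (Gs : Finset G) (A : G → 𝒜)
    (S : G → 𝒮) (e : G → Ω) (e' : G → Ω') (ω : 𝒜 → Ω) (ω' : 𝒮 → Ω') :
    capt Gs S A e' e ω' ω = capt Gs A S e e' ω ω' := by
  unfold capt
  apply Finset.filter_congr
  intro g _
  exact and_comm

theorem sum_capt {G 𝒜 𝒮 Ω Ω' : Type} [Fintype 𝒜] [Fintype 𝒮] [Fintype Ω] [Fintype Ω']
    [DecidableEq 𝒜] [DecidableEq 𝒮]
    [DecidableEq Ω] [DecidableEq Ω'] (Gs : Finset G) (A : G → 𝒜)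
    (S : G → 𝒮) (e : G → Ω) (e' : G → Ω') :
    (∑ ω : 𝒜 → Ω, ∑ ω' : 𝒮 → Ω', (capt Gs A S e e' ω ω').card) *
      (Fintype.card Ω * Fintype.card Ω') =
      Gs.card * (Fintype.card (𝒜 → Ω) * Fintype.card (𝒮 → Ω')) := by
  have h1 : ∑ ω : 𝒜 → Ω, ∑ ω' : 𝒮 → Ω', (capt Gs A S e e' ω ω').card =
      ∑ g ∈ Gs, ((Finset.univ : Finset (𝒜 → Ω)).filter fun ω => ω (A g) = e g).card *
        ((Finset.univ : Finset (𝒮 → Ω')).filter fun ω => ω (S g) = e' g).card := by
    have h2 : ∀ (ω : 𝒜 → Ω) (ω' : 𝒮 → Ω'), (capt Gs A S e e' ω ω').card =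
        ∑ g ∈ Gs, (if ω (A g) = e g then 1 else 0) * (if ω' (S g) = e' g then 1 else 0) := by
      intro ω ω'
      rw [capt, Finset.card_filter]
      apply Finset.sum_congr rfl
      intro g _
      by_cases h1 : ω (A g) = e g <;> by_cases h2 : ω' (S g) = e' g <;> simp [h1, h2]
    simp_rw [h2]
    have h3 : ∀ ω : 𝒜 → Ω, ∑ ω' : 𝒮 → Ω', ∑ g ∈ Gs, (if ω (A g) = e g then 1 else 0) *
        (if ω' (S g) = e' g then 1 else 0) = ∑ g ∈ Gs, ∑ ω' : 𝒮 → Ω',
        (if ω (A g) = e g then 1 else 0) * (if ω' (S g) = e' g then 1 else 0) :=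
      fun ω => Finset.sum_comm
    simp_rw [h3]
    rw [Finset.sum_comm]
    apply Finset.sum_congr rfl
    intro g _
    rw [Finset.card_filter, Finset.card_filter, Finset.sum_mul_sum]
  rw [h1, Finset.sum_mul]
  have h4 : ∀ g ∈ Gs, ((Finset.univ : Finset (𝒜 → Ω)).filter fun ω => ω (A g) = e g).card *
        ((Finset.univ : Finset (𝒮 → Ω')).filter fun ω => ω (S g) = e' g).card *
      (Fintype.card Ω * Fintype.card Ω') = Fintype.card (𝒜 → Ω) * Fintype.card (𝒮 → Ω') := by
    intro g _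
    rw [← cnt_one (A g) (e g), ← cnt_one (S g) (e' g)]
    ring
  rw [Finset.sum_congr rfl h4, Finset.sum_const, smul_eq_mul]

theorem sum_pairs {G 𝒜 𝒮 Ω Ω' I : Type} [DecidableEq G] [DecidableEq I]
    [Fintype 𝒜] [Fintype 𝒮] [Fintype Ω] [Fintype Ω'] [DecidableEq 𝒜] [DecidableEq 𝒮]
    [DecidableEq Ω] [DecidableEq Ω'] [Nonempty Ω] [Nonempty Ω']
    (Gs : Finset G) (A : G → 𝒜) (S : G → 𝒮) (i : G → I) (e : G → Ω) (e' : G → Ω') (θ : ℕ)
    (hcol : ∀ (ω : 𝒜 → Ω) (c : I), (Gs.filter fun g => i g = c ∧ ω (A g) = e g).card ≤ θ ∧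
      ∀ g ∈ Gs, ∀ h ∈ Gs, i g = c → i h = c → ω (A g) = e g → ω (A h) = e h → S g = S h → g = h) :
    ((∑ ω : 𝒜 → Ω, ∑ ω' : 𝒮 → Ω', (((capt Gs A S e e' ω ω') ×ˢ
      (capt Gs A S e e' ω ω')).filter fun x => i x.1 = i x.2).card : ℕ) : ℝ) *
      (Fintype.card Ω * Fintype.card Ω') ≤
      Gs.card * (Fintype.card (𝒜 → Ω) * Fintype.card (𝒮 → Ω')) *
        (1 + θ / Fintype.card Ω') := by
  have hm : (0 : ℝ) < Fintype.card Ω := by exact_mod_cast Fintype.card_pos
  have hm' : (0 : ℝ) < Fintype.card Ω' := by exact_mod_cast Fintype.card_pos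
  -- for fixed ω
  have key : ∀ ω : 𝒜 → Ω, ((∑ ω' : 𝒮 → Ω', (((capt Gs A S e e' ω ω') ×ˢ
      (capt Gs A S e e' ω ω')).filter fun x => i x.1 = i x.2).card : ℕ) : ℝ) ≤
      ((Gs.filter fun g => ω (A g) = e g).card : ℝ) *
        ((Fintype.card (𝒮 → Ω') : ℝ) / Fintype.card Ω' +
          θ * ((Fintype.card (𝒮 → Ω') : ℝ) / Fintype.card Ω' ^ 2)) := by
    intro ω
    obtain ⟨C, hC⟩ : ∃ C, C = Gs.filter fun g => ω (A g) = e g := ⟨_, rfl⟩
    rw [← hC]
    have h1 : ∀ ω' : 𝒮 → Ω', (((capt Gs A S e e' ω ω') ×ˢ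
      (capt Gs A S e e' ω ω')).filter fun x => i x.1 = i x.2).card =
        ∑ g ∈ C, ∑ h ∈ C.filter (fun h => i h = i g),
          if ω' (S g) = e' g ∧ ω' (S h) = e' h then 1 else 0 := by
      intro ω'
      rw [Finset.card_filter, Finset.sum_product]
      have e1 : capt Gs A S e e' ω ω' = C.filter fun g => ω' (S g) = e' g := by
        rw [hC, Finset.filter_filter]
        rfl
      rw [e1, Finset.sum_filter]
      apply Finset.sum_congr rfl
      intro g _
      rw [Finset.sum_filter]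
      by_cases hg : ω' (S g) = e' g
      · rw [if_pos hg, Finset.sum_filter]
        apply Finset.sum_congr rfl
        intro h _
        by_cases h1 : ω' (S h) = e' h
        · by_cases h2 : i h = i g
          · simp [hg, h1, h2]
          · simp [h1, h2, Ne.symm h2]
        · simp [h1]
      · rw [if_neg hg]
        symm
        apply Finset.sum_eq_zero
        intro h _
        simp [hg]
    simp_rw [h1]
    have h2 : ∑ ω' : 𝒮 → Ω', ∑ g ∈ C, ∑ h ∈ C.filter (fun h => i h = i g),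
          (if ω' (S g) = e' g ∧ ω' (S h) = e' h then 1 else 0) =
        ∑ g ∈ C, ∑ h ∈ C.filter (fun h => i h = i g),
          ((Finset.univ : Finset (𝒮 → Ω')).filter fun ω' =>
            ω' (S g) = e' g ∧ ω' (S h) = e' h).card := by
      rw [Finset.sum_comm]
      apply Finset.sum_congr rfl
      intro g _
      rw [Finset.sum_comm]
      apply Finset.sum_congr rfl
      intro h _
      rw [Finset.card_filter]
    rw [h2]
    push_cast
    rw [← nsmul_eq_mul, ← Finset.sum_const]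
    apply Finset.sum_le_sum
    intro g hg
    have hgG : g ∈ Gs ∧ ω (A g) = e g := by
      rw [hC, Finset.mem_filter] at hg
      exact hg
    have hgm : g ∈ C.filter (fun h => i h = i g) := Finset.mem_filter.2 ⟨hg, rfl⟩
    rw [← Finset.add_sum_erase _ _ hgm]
    apply add_le_add
    · have h3 : ((Finset.univ : Finset (𝒮 → Ω')).filter fun ω' =>
            ω' (S g) = e' g ∧ ω' (S g) = e' g).card =
          ((Finset.univ : Finset (𝒮 → Ω')).filter fun ω' => ω' (S g) = e' g).card := by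
        simp
      rw [h3, le_div_iff₀ hm']
      have := cnt_one (S g) (e' g)
      exact_mod_cast this.le
    · calc ∑ h ∈ (C.filter (fun h => i h = i g)).erase g,
          (((Finset.univ : Finset (𝒮 → Ω')).filter fun ω' =>
            ω' (S g) = e' g ∧ ω' (S h) = e' h).card : ℝ)
          ≤ ∑ h ∈ (C.filter (fun h => i h = i g)).erase g,
            ((Fintype.card (𝒮 → Ω') : ℝ) / Fintype.card Ω' ^ 2) := by
            apply Finset.sum_le_sum
            intro h hh
            rw [Finset.mem_erase, Finset.mem_filter] at hh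
            obtain ⟨hne, hhC, hi⟩ := hh
            rw [hC, Finset.mem_filter] at hhC
            have hS : S g ≠ S h := by
              intro hS
              exact hne ((hcol ω (i g)).2 g hgG.1 h hhC.1 rfl hi hgG.2 hhC.2 hS).symm
            have := cnt_two hS (e' g) (e' h)
            rw [le_div_iff₀ (by positivity)]
            exact_mod_cast this.le
        _ = (((C.filter (fun h => i h = i g)).erase g).card : ℝ) *
            ((Fintype.card (𝒮 → Ω') : ℝ) / Fintype.card Ω' ^ 2) := by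
            rw [Finset.sum_const, nsmul_eq_mul]
        _ ≤ θ * ((Fintype.card (𝒮 → Ω') : ℝ) / Fintype.card Ω' ^ 2) := by
            gcongr
            refine (Finset.card_le_card (Finset.erase_subset _ _)).trans ?_
            refine le_trans (le_of_eq ?_) (hcol ω (i g)).1
            rw [hC, Finset.filter_filter]
            congr 1
            apply Finset.filter_congr
            intro h _
            exact and_comm
  have h5 : (∑ ω : 𝒜 → Ω, ((Gs.filter fun g => ω (A g) = e g).card : ℝ)) * Fintype.card Ω =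
      Gs.card * Fintype.card (𝒜 → Ω) := by
    have h6 : (∑ ω : 𝒜 → Ω, (Gs.filter fun g => ω (A g) = e g).card) * Fintype.card Ω =
      Gs.card * Fintype.card (𝒜 → Ω) := by
      simp_rw [Finset.card_filter]
      rw [Finset.sum_comm, Finset.sum_mul]
      have h7 : ∀ g ∈ Gs, (∑ ω : 𝒜 → Ω, if ω (A g) = e g then 1 else 0) * Fintype.card Ω =
          Fintype.card (𝒜 → Ω) := by
        intro g _
        rw [← Finset.card_filter, cnt_one]
      rw [Finset.sum_congr rfl h7, Finset.sum_const, smul_eq_mul]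
    exact_mod_cast h6
  set Z : ℝ := ((Fintype.card (𝒜 → Ω) : ℕ) : ℝ)
  set Z' : ℝ := ((Fintype.card (𝒮 → Ω') : ℕ) : ℝ)
  set m : ℝ := ((Fintype.card Ω : ℕ) : ℝ)
  set m' : ℝ := ((Fintype.card Ω' : ℕ) : ℝ)
  calc ((∑ ω : 𝒜 → Ω, ∑ ω' : 𝒮 → Ω', (((capt Gs A S e e' ω ω') ×ˢ
      (capt Gs A S e e' ω ω')).filter fun x => i x.1 = i x.2).card : ℕ) : ℝ) * (m * m')
      ≤ (∑ ω : 𝒜 → Ω, ((Gs.filter fun g => ω (A g) = e g).card : ℝ) *
        (Z' / m' + θ * (Z' / m' ^ 2))) * (m * m') := by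
        gcongr
        rw [Nat.cast_sum]
        apply Finset.sum_le_sum
        intro ω _
        exact key ω
    _ = ((∑ ω : 𝒜 → Ω, ((Gs.filter fun g => ω (A g) = e g).card : ℝ)) * m) *
        (Z' / m' + θ * (Z' / m' ^ 2)) * m' := by
        rw [← Finset.sum_mul]
        ring
    _ = Gs.card * Z * (Z' / m' + θ * (Z' / m' ^ 2)) * m' := by rw [h5]
    _ = Gs.card * (Z * Z') * (1 + θ / m') := by
        field_simp

theorem prob_core {G 𝒜 𝒮 Ω Ω' I J : Type} [DecidableEq G] [DecidableEq I] [DecidableEq J]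
    [Fintype 𝒜] [Fintype 𝒮] [Fintype Ω] [Fintype Ω'] [DecidableEq 𝒜] [DecidableEq 𝒮]
    [DecidableEq Ω] [DecidableEq Ω'] [Nonempty Ω] [Nonempty Ω']
    (Gs : Finset G) (A : G → 𝒜) (S : G → 𝒮) (i : G → I) (j : G → J) (e : G → Ω) (e' : G → Ω')
    (θ θ' : ℕ)
    (hcol : ∀ (ω : 𝒜 → Ω) (c : I), (Gs.filter fun g => i g = c ∧ ω (A g) = e g).card ≤ θ ∧
      ∀ g ∈ Gs, ∀ h ∈ Gs, i g = c → i h = c → ω (A g) = e g → ω (A h) = e h → S g = S h → g = h)
    (hrow : ∀ (ω : 𝒮 → Ω') (c : J), (Gs.filter fun g => j g = c ∧ ω (S g) = e' g).card ≤ θ' ∧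
      ∀ g ∈ Gs, ∀ h ∈ Gs, j g = c → j h = c → ω (S g) = e' g → ω (S h) = e' h → A g = A h → g = h) :
    ∃ (ω : 𝒜 → Ω) (ω' : 𝒮 → Ω') (T : Finset G), T ⊆ Gs ∧
      (∀ g ∈ T, ω (A g) = e g ∧ ω' (S g) = e' g) ∧
      Set.InjOn i (T : Set G) ∧ Set.InjOn j (T : Set G) ∧
      Gs.card ≤ 2 * T.card * (2 * (Fintype.card Ω * Fintype.card Ω') + θ * Fintype.card Ω +
        θ' * Fintype.card Ω') := by
  have hch : ∀ p : (𝒜 → Ω) × (𝒮 → Ω'), ∃ T ⊆ capt Gs A S e e' p.1 p.2,
      Set.InjOn i (T : Set G) ∧ Set.InjOn j (T : Set G) ∧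
      (capt Gs A S e e' p.1 p.2).card ^ 2 ≤ 2 * T.card *
        ((((capt Gs A S e e' p.1 p.2) ×ˢ (capt Gs A S e e' p.1 p.2)).filter
          fun x => i x.1 = i x.2).card +
        (((capt Gs A S e e' p.1 p.2) ×ˢ (capt Gs A S e e' p.1 p.2)).filter
          fun x => j x.1 = j x.2).card) :=
    fun p => match_lemma _ i j
  choose T hT using hch
  obtain ⟨p0, hp0⟩ := Finite.exists_max fun p : (𝒜 → Ω) × (𝒮 → Ω') => (T p).card
  refine ⟨p0.1, p0.2, T p0, ?_, ?_, (hT p0).2.1, (hT p0).2.2.1, ?_⟩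
  · exact (hT p0).1.trans (Finset.filter_subset _ _)
  · intro g hg
    have := (hT p0).1 hg
    rw [capt, Finset.mem_filter] at this
    exact this.2
  set t := (T p0).card with ht
  rcases Nat.eq_zero_or_pos Gs.card with h0 | hpos
  · rw [h0]
    exact Nat.zero_le _
  have hm : (0 : ℝ) < Fintype.card Ω := by exact_mod_cast Fintype.card_pos
  have hm' : (0 : ℝ) < Fintype.card Ω' := by exact_mod_cast Fintype.card_pos
  have hZ : (0 : ℝ) < Fintype.card (𝒜 → Ω) := by exact_mod_cast Fintype.card_pos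
  have hZ' : (0 : ℝ) < Fintype.card (𝒮 → Ω') := by exact_mod_cast Fintype.card_pos
  have hn : (0 : ℝ) < Gs.card := by exact_mod_cast hpos
  have hX := sum_pairs Gs A S i e e' θ hcol
  have hY := sum_pairs Gs S A j e' e θ' hrow
  have hM := sum_capt Gs A S e e'
  rw [Finset.sum_comm] at hY
  simp_rw [capt_swap Gs A S e e'] at hY
  -- move everything to sums over pairs
  have hM' : ((∑ p : (𝒜 → Ω) × (𝒮 → Ω'), (capt Gs A S e e' p.1 p.2).card : ℕ) : ℝ) *
      (Fintype.card Ω * Fintype.card Ω') =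
      Gs.card * (Fintype.card (𝒜 → Ω) * Fintype.card (𝒮 → Ω')) := by
    rw [Fintype.sum_prod_type]
    exact_mod_cast hM
  rw [← Fintype.sum_prod_type' (f := fun (ω : 𝒜 → Ω) (ω' : 𝒮 → Ω') =>
    (((capt Gs A S e e' ω ω') ×ˢ (capt Gs A S e e' ω ω')).filter
      fun x => i x.1 = i x.2).card)] at hX
  rw [← Fintype.sum_prod_type' (f := fun (ω : 𝒜 → Ω) (ω' : 𝒮 → Ω') =>
    (((capt Gs A S e e' ω ω') ×ˢ (capt Gs A S e e' ω ω')).filter
      fun x => j x.1 = j x.2).card)] at hY
  set X : ℝ := ((∑ p : (𝒜 → Ω) × (𝒮 → Ω'),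
    (((capt Gs A S e e' p.1 p.2) ×ˢ (capt Gs A S e e' p.1 p.2)).filter
      fun x => i x.1 = i x.2).card : ℕ) : ℝ) with hXdef
  set Y : ℝ := ((∑ p : (𝒜 → Ω) × (𝒮 → Ω'),
    (((capt Gs A S e e' p.1 p.2) ×ˢ (capt Gs A S e e' p.1 p.2)).filter
      fun x => j x.1 = j x.2).card : ℕ) : ℝ) with hYdef
  set N : ℝ := ((∑ p : (𝒜 → Ω) × (𝒮 → Ω'), (capt Gs A S e e' p.1 p.2).card : ℕ) : ℝ) with hN
  have hCS : N ^ 2 ≤ (Fintype.card (𝒜 → Ω) * Fintype.card (𝒮 → Ω')) *
      ∑ p : (𝒜 → Ω) × (𝒮 → Ω'), ((capt Gs A S e e' p.1 p.2).card : ℝ) ^ 2 := by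
    have h := sq_sum_le_card_mul_sum_sq (s := (Finset.univ : Finset ((𝒜 → Ω) × (𝒮 → Ω'))))
      (f := fun p => ((capt Gs A S e e' p.1 p.2).card : ℝ))
    rw [Finset.card_univ, Fintype.card_prod] at h
    rw [hN]
    push_cast at h ⊢
    exact h
  have hsq : ∑ p : (𝒜 → Ω) × (𝒮 → Ω'), ((capt Gs A S e e' p.1 p.2).card : ℝ) ^ 2 ≤
      2 * t * (X + Y) := by
    rw [hXdef, hYdef, ← Nat.cast_add, ← Finset.sum_add_distrib]
    push_cast
    rw [Finset.mul_sum]
    apply Finset.sum_le_sum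
    intro p _
    have h1 := (hT p).2.2.2
    have h2 : (T p).card ≤ t := hp0 p
    have h3 : ((capt Gs A S e e' p.1 p.2).card) ^ 2 ≤ 2 * t *
        ((((capt Gs A S e e' p.1 p.2) ×ˢ (capt Gs A S e e' p.1 p.2)).filter
          fun x => i x.1 = i x.2).card +
        (((capt Gs A S e e' p.1 p.2) ×ˢ (capt Gs A S e e' p.1 p.2)).filter
          fun x => j x.1 = j x.2).card) := h1.trans (by gcongr)
    exact_mod_cast h3
  set Z : ℝ := ((Fintype.card (𝒜 → Ω) : ℕ) : ℝ) with hZd
  set Z' : ℝ := ((Fintype.card (𝒮 → Ω') : ℕ) : ℝ) with hZd'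
  set m : ℝ := ((Fintype.card Ω : ℕ) : ℝ) with hmd
  set m' : ℝ := ((Fintype.card Ω' : ℕ) : ℝ) with hmd'
  have hgoal : (Gs.card : ℝ) ≤ 2 * t * (2 * (m * m') + θ * m + θ' * m') := by
    have ht0 : (0 : ℝ) ≤ t := Nat.cast_nonneg _
    have hX' : X ≤ Gs.card * (Z * Z') * (1 + θ / m') / (m * m') := by
      rw [le_div_iff₀ (by positivity)]
      exact hX
    have hY' : Y ≤ Gs.card * (Z * Z') * (1 + θ' / m) / (m * m') := by
      rw [le_div_iff₀ (by positivity)]
      calc Y * (m * m') = Y * (m' * m) := by ring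
        _ ≤ Gs.card * (Z' * Z) * (1 + θ' / m) := hY
        _ = _ := by ring
    have hN' : N = Gs.card * (Z * Z') / (m * m') := by
      rw [eq_div_iff (by positivity)]
      exact hM'
    have h1 : N ^ 2 ≤ (Z * Z') * (2 * t * (Gs.card * (Z * Z') * (1 + θ / m') / (m * m') +
        Gs.card * (Z * Z') * (1 + θ' / m) / (m * m'))) := by
      refine hCS.trans ?_
      gcongr
      refine hsq.trans ?_
      gcongr
    rw [hN'] at h1
    have h2 : (Gs.card * (Z * Z') / (m * m')) ^ 2 =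
        (Gs.card * (Z * Z') ^ 2 / (m * m') ^ 2) * Gs.card := by ring
    have h3 : (Z * Z') * (2 * t * (Gs.card * (Z * Z') * (1 + θ / m') / (m * m') +
        Gs.card * (Z * Z') * (1 + θ' / m) / (m * m'))) =
        (Gs.card * (Z * Z') ^ 2 / (m * m') ^ 2) *
          (2 * t * (2 * (m * m') + θ * m + θ' * m')) := by
      field_simp
      ring
    rw [h2, h3] at h1
    exact le_of_mul_le_mul_left h1 (by positivity)
  rw [hmd, hmd'] at hgoal
  exact_mod_cast hgoal

end Tw11
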