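import Pool.Agent.Tw11.Basics
import Pool.Agent.Tw11.Prob

/-!
# Tw11 / Capture: random shifts and random slots

Notation: `u = w * L`, `v = w * L * Q`; `bl p = p.1 / u`, `A p = p.1 / v`, `S p = p.2 / v`,
`rb p = p.2 / u`.

PROOF. Apply `prob_core` with `G = Pt × Pt`, `Gs` = the filtered set of the statement,
`𝒜 = 𝒮 = Fin R`, `Ω = Ω' = Fin (2 * Q) × Fin N`, `I = J = ℕ`, `i g = g.1.1 / w`,
`j g = g.1.2 / w`, `A g = g.1.1 / v`, `S g = g.1.2 / v` (in `Fin R` because of `hX`; use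
`Fin.ofNat` or `if h : _ < R then ⟨_, h⟩ else ⟨0, _⟩`; if `P` is empty take `T = ∅`, so `R > 0`),
`e g = (s, σ)` with `s = bl g.2 % Q + Q - bl g.1 % Q < 2 * Q` and
`slotC g.1 g.2 = some σ`, `σ < N`; `e' g = (s', σ')` with
`s' = rb g.2 % Q + Q - rb g.1 % Q` and `slotR g.1.swap g.2.swap = some σ'`; `θ = θ' = 2 ^ k`.
KEY FACT (*): let `g, h ∈ Gs` be captured by the same `ω` (`ω (A g) = e g`, `ω (A h) = e h`) with
`A g = A h`. Then `e g = e h`, so both have the same slot, and, as `bl g.1 / Q = A g = bl g.2 / Q`,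
`bl g.1 = Q * A g + bl g.1 % Q` etc.: `bl g.2 + bl h.1 = bl h.2 + bl g.1` (equal shifts).
* `hcol`: the `g ∈ Gs` captured by `ω` with `g.1.1 / w = c` have the same `bl g.1 = c / L`, the same
  `A g`, so by (*) the same `bl g.2 =: b` and the same slot `σ`; `bl g.1 ≠ bl g.2` (same super row and
  `g.1 ≠ g.2`, `hcc`). So they are contained in the set of the field `mult` of `hC` (if nonempty):
  at most `2 ^ k`. If moreover `S g = S h` then `g.1 = h.1` (same block, same super row, `hcc`) and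
  `g.2 = h.2` (same block `b`, same super row `S g.2 = S g.1`).
* `hrow`: the same for the reflected points, with `hrc` and `hR : ColS (sw P) ...`.
Result: `ω, ω', T`. `WT P T`: for `g ≠ h` in `T` we have `g.1.1 / w ≠ h.1.1 / w`, say `<` (else
exchange `g, h`). Then `g.1.1 < h.1.1`. And `g.2.1 < h.2.1`: if `A g < A h` then
`g.2.1 / v = A g < A h = h.2.1 / v`. If `A g = A h` and `bl g.1 < bl h.1` then by (*)
`bl g.2 < bl h.2`. If `bl g.1 = bl h.1` then `bl g.2 = bl h.2`, the slots are equal, and `mono`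
gives `g.2.1 / w < h.2.1 / w`. The same for the second coordinates with `hR`.
The inequality of `prob_core` is the inequality of the statement (`Fintype.card Ω = 2 * Q * N`).
-/

set_option autoImplicit false

namespace Tw11

/-- the shift of two blocks -/
private def shf (Q a b : ℕ) : ℕ := b % Q + Q - a % Q

private theorem shf_lt {Q : ℕ} (hQ : 0 < Q) (a b : ℕ) : shf Q a b < 2 * Q := by
  have := Nat.mod_lt b hQ
  unfold shf
  omega

/-- the colour of a pair -/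
private def eC (w L Q N : ℕ) (hQ : 0 < Q) (hN : 0 < N) (slot : Pt → Pt → Option ℕ)
    (g : Pt × Pt) : Fin (2 * Q) × Fin N :=
  (⟨shf Q (g.1.1 / (w * L)) (g.2.1 / (w * L)) % (2 * Q), Nat.mod_lt _ (by omega)⟩,
    ⟨(slot g.1 g.2).getD 0 % N, Nat.mod_lt _ hN⟩)

/-- the super column -/
private def aC (w L Q R : ℕ) (hR : 0 < R) (x : ℕ) : Fin R :=
  ⟨x / (w * L * Q) % R, Nat.mod_lt _ hR⟩

private theorem aC_eq {w L Q R : ℕ} (hw : 0 < w) (hL : 0 < L) (hQ : 0 < Q) (hR : 0 < R)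
    {x y : ℕ} (hx : x < w * L * Q * R) (hy : y < w * L * Q * R) :
    aC w L Q R hR x = aC w L Q R hR y ↔ x / (w * L * Q) = y / (w * L * Q) := by
  have h1 : x / (w * L * Q) < R := by
    rw [Nat.div_lt_iff_lt_mul (by positivity)]
    rw [mul_comm]
    exact hx
  have h2 : y / (w * L * Q) < R := by
    rw [Nat.div_lt_iff_lt_mul (by positivity)]
    rw [mul_comm]
    exact hy
  unfold aC
  rw [Fin.mk.injEq, Nat.mod_eq_of_lt h1, Nat.mod_eq_of_lt h2]

/-- a candidate -/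
private def Cand (P : Finset Pt) (w L Q : ℕ) (slot : Pt → Pt → Option ℕ) (g : Pt × Pt) : Prop :=
  g.1 ∈ P ∧ g.2 ∈ P ∧ g.1 ≠ g.2 ∧ g.1.1 / (w * L * Q) = g.2.1 / (w * L * Q) ∧
    g.1.2 / (w * L * Q) = g.2.2 / (w * L * Q) ∧ slot g.1 g.2 ≠ none

section

variable {P : Finset Pt} {w L Q R τ k N : ℕ} (hw : 0 < w) (hL : 0 < L)
  (hQ : 0 < Q) (hN : 0 < N) (hR : 0 < R) (hX : ∀ p ∈ P, p.1 < w * L * Q * R)
  (hcc : ∀ p ∈ P, ∀ q ∈ P, p.1 / (w * L) = q.1 / (w * L) →
    p.2 / (w * L * Q) = q.2 / (w * L * Q) → p = q)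
  {slot : Pt → Pt → Option ℕ} {Lt Hv : Finset (Pt × Pt)}
  (hC : ColS P w L Q R τ k N slot Lt Hv) (ω : Fin R → Fin (2 * Q) × Fin N)

include hw hL hQ hN hR hX hC in
/-- equal super columns: equal shifts and equal slots -/
private theorem key {g h : Pt × Pt} (hg : Cand P w L Q slot g) (hh : Cand P w L Q slot h)
    (hgc : ω (aC w L Q R hR g.1.1) = eC w L Q N hQ hN slot g)
    (hhc : ω (aC w L Q R hR h.1.1) = eC w L Q N hQ hN slot h)
    (hA : g.1.1 / (w * L * Q) = h.1.1 / (w * L * Q)) :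
    g.2.1 / (w * L) + h.1.1 / (w * L) = h.2.1 / (w * L) + g.1.1 / (w * L) ∧
      slot g.1 g.2 = slot h.1 h.2 := by
  obtain ⟨g1, g2, g3, g4, g5, g6⟩ := hg
  obtain ⟨h1, h2, h3, h4, h5, h6⟩ := hh
  have e1 : eC w L Q N hQ hN slot g = eC w L Q N hQ hN slot h := by
    rw [← hgc, ← hhc, (aC_eq hw hL hQ hR (hX _ g1) (hX _ h1)).2 hA]
  unfold eC at e1
  rw [Prod.mk.injEq, Fin.mk.injEq, Fin.mk.injEq, Nat.mod_eq_of_lt (shf_lt hQ _ _),
    Nat.mod_eq_of_lt (shf_lt hQ _ _)] at e1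
  obtain ⟨e2, e3⟩ := e1
  constructor
  · have hd : ∀ x : ℕ, x / (w * L) = Q * (x / (w * L * Q)) + (x / (w * L)) % Q := by
      intro x
      rw [← Nat.div_div_eq_div_mul x (w * L) Q]
      exact (Nat.div_add_mod _ _).symm
    have d1 := hd g.1.1
    have d2 := hd g.2.1
    have d3 := hd h.1.1
    have d4 := hd h.2.1
    rw [← g4] at d2
    rw [← h4, ← hA] at d4
    rw [← hA] at d3
    unfold shf at e2
    have m1 := Nat.mod_lt (g.1.1 / (w * L)) hQ
    have m2 := Nat.mod_lt (g.2.1 / (w * L)) hQ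
    have m3 := Nat.mod_lt (h.1.1 / (w * L)) hQ
    have m4 := Nat.mod_lt (h.2.1 / (w * L)) hQ
    generalize Q * (g.1.1 / (w * L * Q)) = t at *
    generalize (g.1.1 / (w * L)) % Q = r1 at *
    generalize (g.2.1 / (w * L)) % Q = r2 at *
    generalize (h.1.1 / (w * L)) % Q = r3 at *
    generalize (h.2.1 / (w * L)) % Q = r4 at *
    omega
  · obtain ⟨σ, hσ⟩ := Option.ne_none_iff_exists'.1 g6
    obtain ⟨σ', hσ'⟩ := Option.ne_none_iff_exists'.1 h6
    have s1 := hC.slot_lt _ g1 _ g2 σ hσ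
    have s2 := hC.slot_lt _ h1 _ h2 σ' hσ'
    rw [hσ, hσ', Option.getD_some, Option.getD_some, Nat.mod_eq_of_lt s1,
      Nat.mod_eq_of_lt s2] at e3
    rw [hσ, hσ', e3]

include hcc in
private theorem bl_ne {g : Pt × Pt} (hg : Cand P w L Q slot g) :
    g.1.1 / (w * L) ≠ g.2.1 / (w * L) := by
  obtain ⟨g1, g2, g3, g4, g5, g6⟩ := hg
  intro h
  exact g3 (hcc _ g1 _ g2 h g5)

include hw hL hQ hN hR hX hC hcc in
private theorem same_strip {g h : Pt × Pt} (hg : Cand P w L Q slot g) (hh : Cand P w L Q slot h)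
    (hgc : ω (aC w L Q R hR g.1.1) = eC w L Q N hQ hN slot g)
    (hhc : ω (aC w L Q R hR h.1.1) = eC w L Q N hQ hN slot h)
    (hA : g.1.1 / w = h.1.1 / w) :
    g.2.1 / (w * L) = h.2.1 / (w * L) ∧ slot g.1 g.2 = slot h.1 h.2 := by
  have b1 : g.1.1 / (w * L) = h.1.1 / (w * L) := by
    rw [← Nat.div_div_eq_div_mul, ← Nat.div_div_eq_div_mul, hA]
  have b2 : g.1.1 / (w * L * Q) = h.1.1 / (w * L * Q) := by
    rw [← Nat.div_div_eq_div_mul, ← Nat.div_div_eq_div_mul _ (w * L), b1]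
  obtain ⟨k1, k2⟩ := key hw hL hQ hN hR hX hC ω hg hh hgc hhc b2
  refine ⟨?_, k2⟩
  omega

include hw hL hQ hN hR hX hC hcc in
private theorem strip_inj {g h : Pt × Pt} (hg : Cand P w L Q slot g) (hh : Cand P w L Q slot h)
    (hgc : ω (aC w L Q R hR g.1.1) = eC w L Q N hQ hN slot g)
    (hhc : ω (aC w L Q R hR h.1.1) = eC w L Q N hQ hN slot h)
    (hA : g.1.1 / w = h.1.1 / w) (hS : g.1.2 / (w * L * Q) = h.1.2 / (w * L * Q)) :
    g = h := by
  obtain ⟨k1, k2⟩ := same_strip hw hL hQ hN hR hX hcc hC ω hg hh hgc hhc hA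
  have b1 : g.1.1 / (w * L) = h.1.1 / (w * L) := by
    rw [← Nat.div_div_eq_div_mul, ← Nat.div_div_eq_div_mul, hA]
  obtain ⟨g1, g2, g3, g4, g5, g6⟩ := hg
  obtain ⟨h1, h2, h3, h4, h5, h6⟩ := hh
  have e1 := hcc _ g1 _ h1 b1 hS
  have e2 := hcc _ g2 _ h2 k1 (by rw [← g5, ← h5, hS])
  exact Prod.ext e1 e2

include hw hL hQ hN hR hX hC hcc in
private theorem strip_card [DecidablePred (Cand P w L Q slot)] (c : ℕ) :
    ((P ×ˢ P).filter fun g => Cand P w L Q slot g ∧ (g.1.1 / w = c ∧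
      ω (aC w L Q R hR g.1.1) = eC w L Q N hQ hN slot g)).card ≤ 2 ^ k := by
  rcases Finset.eq_empty_or_nonempty ((P ×ˢ P).filter fun g => Cand P w L Q slot g ∧
    (g.1.1 / w = c ∧ ω (aC w L Q R hR g.1.1) = eC w L Q N hQ hN slot g)) with he | ⟨g0, hg0⟩
  · rw [he, Finset.card_empty]
    exact Nat.zero_le _
  · rw [Finset.mem_filter] at hg0
    obtain ⟨_, hc0, hs0, hcap0⟩ := hg0
    obtain ⟨σ, hσ⟩ := Option.ne_none_iff_exists'.1 hc0.2.2.2.2.2
    refine (Finset.card_le_card ?_).trans (hC.mult c (g0.2.1 / (w * L)) σ)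
    intro g hg
    rw [Finset.mem_filter] at hg ⊢
    obtain ⟨hgP, hgc, hs, hcap⟩ := hg
    obtain ⟨k1, k2⟩ := same_strip hw hL hQ hN hR hX hcc hC ω hgc hc0 hcap hcap0
      (hs.trans hs0.symm)
    refine ⟨hgP, hs, k1, ?_, hgc.2.2.2.2.1, k2.trans hσ⟩
    rw [← k1]
    exact bl_ne hcc hgc

include hw hL hQ hN hR hX hC hcc in
private theorem par {g h : Pt × Pt} (hg : Cand P w L Q slot g) (hh : Cand P w L Q slot h)
    (hgc : ω (aC w L Q R hR g.1.1) = eC w L Q N hQ hN slot g)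
    (hhc : ω (aC w L Q R hR h.1.1) = eC w L Q N hQ hN slot h)
    (hA : g.1.1 / w < h.1.1 / w) : g.1.1 < h.1.1 ∧ g.2.1 < h.2.1 := by
  have l1 : g.1.1 < h.1.1 := by
    by_contra hn
    push Not at hn
    exact absurd (Nat.div_le_div_right (c := w) hn) (by omega)
  refine ⟨l1, ?_⟩
  have m1 : g.1.1 / (w * L * Q) ≤ h.1.1 / (w * L * Q) := Nat.div_le_div_right l1.le
  rcases m1.lt_or_eq with m2 | m2
  · by_contra hn
    push Not at hn
    have m3 : h.2.1 / (w * L * Q) ≤ g.2.1 / (w * L * Q) := Nat.div_le_div_right hn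
    rw [← hg.2.2.2.1, ← hh.2.2.2.1] at m3
    omega
  · obtain ⟨k1, k2⟩ := key hw hL hQ hN hR hX hC ω hg hh hgc hhc m2
    have m4 : g.1.1 / (w * L) ≤ h.1.1 / (w * L) := Nat.div_le_div_right l1.le
    rcases m4.lt_or_eq with m5 | m5
    · have m6 : g.2.1 / (w * L) < h.2.1 / (w * L) := by omega
      by_contra hn
      push Not at hn
      have m3 : h.2.1 / (w * L) ≤ g.2.1 / (w * L) := Nat.div_le_div_right hn
      omega
    · have m6 : g.2.1 / (w * L) = h.2.1 / (w * L) := by omega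
      have m7 := (hC.mono _ hg.1 _ hg.2.1 _ hh.1 _ hh.2.1 m5 m6 (bl_ne hcc hg)
        hg.2.2.2.2.1 hh.2.2.2.2.1 hg.2.2.2.2.2 k2).1 hA
      by_contra hn
      push Not at hn
      have m3 : h.2.1 / w ≤ g.2.1 / w := Nat.div_le_div_right hn
      omega

end

theorem capture (P : Finset Pt) (hP : Gen P) (w L Q R τ k N : ℕ) (hw : 0 < w) (hL : 0 < L)
    (hQ : 0 < Q) (hN : 0 < N) (hX : ∀ p ∈ P, p.1 < w * L * Q * R ∧ p.2 < w * L * Q * R)
    (hcc : ∀ p ∈ P, ∀ q ∈ P, p.1 / (w * L) = q.1 / (w * L) →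
      p.2 / (w * L * Q) = q.2 / (w * L * Q) → p = q)
    (hrc : ∀ p ∈ P, ∀ q ∈ P, p.1 / (w * L * Q) = q.1 / (w * L * Q) →
      p.2 / (w * L) = q.2 / (w * L) → p = q)
    (slotC : Pt → Pt → Option ℕ) (LtC HvC : Finset (Pt × Pt))
    (hC : ColS P w L Q R τ k N slotC LtC HvC)
    (slotR : Pt → Pt → Option ℕ) (LtR HvR : Finset (Pt × Pt))
    (hR : ColS (sw P) w L Q R τ k N slotR LtR HvR) :
    ∃ T : Finset (Pt × Pt), WT P T ∧
      ((P ×ˢ P).filter fun g => g.1 ≠ g.2 ∧ g.1.1 / (w * L * Q) = g.2.1 / (w * L * Q) ∧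
        g.1.2 / (w * L * Q) = g.2.2 / (w * L * Q) ∧ slotC g.1 g.2 ≠ none ∧
        slotR g.1.swap g.2.swap ≠ none).card ≤
      2 * T.card * (2 * ((2 * Q * N) * (2 * Q * N)) + 2 ^ k * (2 * Q * N) +
        2 ^ k * (2 * Q * N)) := by
  classical
  rcases P.eq_empty_or_nonempty with rfl | ⟨p0, hp0⟩
  · refine ⟨∅, ⟨by simp, by simp⟩, ?_⟩
    simp
  have hRpos : 0 < R := by
    rcases Nat.eq_zero_or_pos R with h | h
    · have := (hX p0 hp0).1
      rw [h, mul_zero] at this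
      exact absurd this (Nat.not_lt_zero _)
    · exact h
  -- the reflected data
  have hX1 : ∀ p ∈ P, p.1 < w * L * Q * R := fun p hp => (hX p hp).1
  have hX2 : ∀ p ∈ sw P, p.1 < w * L * Q * R := fun p hp => by
    rw [mem_sw] at hp
    exact (hX _ hp).2
  have hcc2 : ∀ p ∈ sw P, ∀ q ∈ sw P, p.1 / (w * L) = q.1 / (w * L) →
      p.2 / (w * L * Q) = q.2 / (w * L * Q) → p = q := by
    intro p hp q hq h1 h2
    rw [mem_sw] at hp hq
    have := hrc _ hp _ hq h2 h1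
    exact Prod.swap_injective this
  set Gs : Finset (Pt × Pt) := (P ×ˢ P).filter fun g => g.1 ≠ g.2 ∧
    g.1.1 / (w * L * Q) = g.2.1 / (w * L * Q) ∧
        g.1.2 / (w * L * Q) = g.2.2 / (w * L * Q) ∧ slotC g.1 g.2 ≠ none ∧
        slotR g.1.swap g.2.swap ≠ none with hGs
  let ref : Pt × Pt → Pt × Pt := fun g => (g.1.swap, g.2.swap)
  have href : Function.Injective ref := by
    intro g h hgh
    have h1 : (g.1.swap, g.2.swap) = (h.1.swap, h.2.swap) := hgh
    rw [Prod.mk.injEq] at h1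
    exact Prod.ext (Prod.swap_injective h1.1) (Prod.swap_injective h1.2)
  have cC : ∀ g ∈ Gs, Cand P w L Q slotC g := by
    intro g hg
    rw [hGs, Finset.mem_filter, Finset.mem_product] at hg
    exact ⟨hg.1.1, hg.1.2, hg.2.1, hg.2.2.1, hg.2.2.2.1, hg.2.2.2.2.1⟩
  have cR : ∀ g ∈ Gs, Cand (sw P) w L Q slotR (ref g) := by
    intro g hg
    rw [hGs, Finset.mem_filter, Finset.mem_product] at hg
    refine ⟨?_, ?_, ?_, hg.2.2.2.1, hg.2.2.1, hg.2.2.2.2.2⟩
    · show g.1.swap ∈ sw P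
      rw [mem_sw, Prod.swap_swap]
      exact hg.1.1
    · show g.2.swap ∈ sw P
      rw [mem_sw, Prod.swap_swap]
      exact hg.1.2
    · intro h
      exact hg.2.1 (Prod.swap_injective h)
  have : NeZero (2 * Q) := ⟨by omega⟩
  have : NeZero N := ⟨by omega⟩
  obtain ⟨ω, ω', T, hTG, hcap, hi, hj, hcard⟩ := prob_core (G := Pt × Pt) (𝒜 := Fin R)
    (𝒮 := Fin R) (Ω := Fin (2 * Q) × Fin N) (Ω' := Fin (2 * Q) × Fin N) (I := ℕ) (J := ℕ) Gs
    (fun g => aC w L Q R hRpos g.1.1) (fun g => aC w L Q R hRpos g.1.2)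
    (fun g => g.1.1 / w) (fun g => g.1.2 / w)
    (fun g => eC w L Q N hQ hN slotC g) (fun g => eC w L Q N hQ hN slotR (ref g))
    (2 ^ k) (2 ^ k)
    (by
      intro ω c
      constructor
      · refine (Finset.card_le_card ?_).trans
          (strip_card (R := R) (N := N) hw hL hQ hN hRpos hX1 hcc hC ω c)
        intro g hg
        rw [Finset.mem_filter] at hg ⊢
        refine ⟨?_, cC g hg.1, hg.2⟩
        have := hg.1
        rw [hGs, Finset.mem_filter] at this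
        exact this.1
      · intro g hg h hh h1 h2 h3 h4 h5
        refine strip_inj hw hL hQ hN hRpos hX1 hcc hC ω (cC g hg) (cC h hh) h3 h4
          (h1.trans h2.symm) ?_
        exact (aC_eq hw hL hQ hRpos (hX _ (cC g hg).1).2 (hX _ (cC h hh).1).2).1 h5)
    (by
      intro ω c
      constructor
      · refine le_trans ?_
          (strip_card (R := R) (N := N) hw hL hQ hN hRpos hX2 hcc2 hR ω c)
        refine Finset.card_le_card_of_injOn ref ?_ href.injOn
        intro g hg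
        rw [Finset.mem_coe, Finset.mem_filter] at hg
        rw [Finset.mem_coe, Finset.mem_filter]
        have hcg := cR g hg.1
        refine ⟨?_, hcg, hg.2⟩
        rw [Finset.mem_product]
        exact ⟨hcg.1, hcg.2.1⟩
      · intro g hg h hh h1 h2 h3 h4 h5
        apply href
        refine strip_inj hw hL hQ hN hRpos hX2 hcc2 hR ω (cR g hg) (cR h hh) h3 h4
          (h1.trans h2.symm) ?_
        exact (aC_eq hw hL hQ hRpos (hX _ (cC g hg).1).1 (hX _ (cC h hh).1).1).1 h5)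
  refine ⟨T, ⟨?_, ?_⟩, ?_⟩
  · intro e he
    have := cC e (hTG he)
    exact ⟨this.1, this.2.1, this.2.2.1⟩
  · intro e he f hf hef
    have i1 : e.1.1 / w ≠ f.1.1 / w := fun h => hef (hi he hf h)
    have j1 : e.1.2 / w ≠ f.1.2 / w := fun h => hef (hj he hf h)
    have ce := hcap e he
    have cf := hcap f hf
    constructor
    · rcases lt_or_gt_of_ne i1 with h | h
      · exact Or.inl (par hw hL hQ hN hRpos hX1 hcc hC ω (cC e (hTG he)) (cC f (hTG hf))
          ce.1 cf.1 h)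
      · exact Or.inr (par hw hL hQ hN hRpos hX1 hcc hC ω (cC f (hTG hf)) (cC e (hTG he))
          cf.1 ce.1 h)
    · rcases lt_or_gt_of_ne j1 with h | h
      · exact Or.inl (par hw hL hQ hN hRpos hX2 hcc2 hR ω' (cR e (hTG he)) (cR f (hTG hf))
          ce.2 cf.2 h)
      · exact Or.inr (par hw hL hQ hN hRpos hX2 hcc2 hR ω' (cR f (hTG hf)) (cR e (hTG he))
          cf.2 ce.2 h)
  · have hΩ : Fintype.card (Fin (2 * Q) × Fin N) = 2 * Q * N := by
      rw [Fintype.card_prod, Fintype.card_fin, Fintype.card_fin]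
    rw [hΩ] at hcard
    exact hcard

end Tw11
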