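import Pool.Agent.Tw11.Basics

/-!
# Tw11 / Clean: at most one point per cell

PROOF. Let `P1` = the points of `P` which are in neither of the two bad sets,
`10 * P1.card ≥ 8 * P.card`. Relation on `P1`:
`r p q := (p.1/u = q.1/u ∧ p.2/v = q.2/v) ∨ (p.1/v = q.1/v ∧ p.2/u = q.2/u)`. Every `p ∈ P1` has at
most one `q ≠ p` in its first cell and at most one in its second cell (each cell has at most 2 points of
`P`, one of them is `p`), so the degree is at most 2. `indep` with `d = 2` gives `P' ⊆ P1`,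
`P1.card ≤ 3 * P'.card`; `10 * 3 * P'.card ≥ 8 * P.card`, so `P.card ≤ 4 * P'.card`.
-/

set_option autoImplicit false

namespace Tw11

theorem clean (P : Finset Pt) (u v : ℕ)
    (hc : 10 * (P.filter fun p => 3 ≤ (P.filter fun q => q.1 / u = p.1 / u ∧
      q.2 / v = p.2 / v).card).card ≤ P.card)
    (hr : 10 * (P.filter fun p => 3 ≤ (P.filter fun q => q.1 / v = p.1 / v ∧
      q.2 / u = p.2 / u).card).card ≤ P.card) :
    ∃ P' ⊆ P, P.card ≤ 4 * P'.card ∧
      (∀ p ∈ P', ∀ q ∈ P', p.1 / u = q.1 / u → p.2 / v = q.2 / v → p = q) ∧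
      (∀ p ∈ P', ∀ q ∈ P', p.1 / v = q.1 / v → p.2 / u = q.2 / u → p = q) := by
  classical
  set B1 := P.filter fun p => 3 ≤ (P.filter fun q => q.1 / u = p.1 / u ∧
      q.2 / v = p.2 / v).card with hB1
  set B2 := P.filter fun p => 3 ≤ (P.filter fun q => q.1 / v = p.1 / v ∧
      q.2 / u = p.2 / u).card with hB2
  set P1 := (P \ B1) \ B2 with hP1
  have hsub : P1 ⊆ P := fun p hp => (Finset.mem_sdiff.1 (Finset.mem_sdiff.1 hp).1).1
  have hcard : P.card ≤ P1.card + B1.card + B2.card := by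
    have h1 : P ⊆ P1 ∪ B1 ∪ B2 := by
      intro p hp
      simp only [hP1, Finset.mem_union, Finset.mem_sdiff]
      tauto
    refine (Finset.card_le_card h1).trans ?_
    refine (Finset.card_union_le _ _).trans ?_
    exact Nat.add_le_add_right (Finset.card_union_le _ _) _
  have hone : ∀ p ∈ P1, ((P.filter fun q => q.1 / u = p.1 / u ∧ q.2 / v = p.2 / v).erase p).card
      ≤ 1 := by
    intro p hp
    have hp1 : p ∈ P \ B1 := (Finset.mem_sdiff.1 hp).1
    have hpP := (Finset.mem_sdiff.1 hp1).1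
    have hnB := (Finset.mem_sdiff.1 hp1).2
    rw [hB1, Finset.mem_filter] at hnB
    have h2 : (P.filter fun q => q.1 / u = p.1 / u ∧ q.2 / v = p.2 / v).card < 3 := by
      by_contra hcon
      exact hnB ⟨hpP, by omega⟩
    rw [Finset.card_erase_of_mem (Finset.mem_filter.2 ⟨hpP, rfl, rfl⟩)]
    omega
  have htwo : ∀ p ∈ P1, ((P.filter fun q => q.1 / v = p.1 / v ∧ q.2 / u = p.2 / u).erase p).card
      ≤ 1 := by
    intro p hp
    have hp1 : p ∈ P \ B1 := (Finset.mem_sdiff.1 hp).1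
    have hpP := (Finset.mem_sdiff.1 hp1).1
    have hnB := (Finset.mem_sdiff.1 hp).2
    rw [hB2, Finset.mem_filter] at hnB
    have h2 : (P.filter fun q => q.1 / v = p.1 / v ∧ q.2 / u = p.2 / u).card < 3 := by
      by_contra hcon
      exact hnB ⟨hpP, by omega⟩
    rw [Finset.card_erase_of_mem (Finset.mem_filter.2 ⟨hpP, rfl, rfl⟩)]
    omega
  obtain ⟨I, hI, hIc, hIn⟩ := indep P1
    (fun p q : Pt => (p.1 / u = q.1 / u ∧ p.2 / v = q.2 / v) ∨
      (p.1 / v = q.1 / v ∧ p.2 / u = q.2 / u))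
    (by
      rintro a b (h | h)
      · exact Or.inl ⟨h.1.symm, h.2.symm⟩
      · exact Or.inr ⟨h.1.symm, h.2.symm⟩) 2
    (by
      intro p hp
      have h1 : (P1.filter fun q => q ≠ p ∧ ((p.1 / u = q.1 / u ∧ p.2 / v = q.2 / v) ∨
          (p.1 / v = q.1 / v ∧ p.2 / u = q.2 / u))) ⊆
          ((P.filter fun q => q.1 / u = p.1 / u ∧ q.2 / v = p.2 / v).erase p) ∪
          ((P.filter fun q => q.1 / v = p.1 / v ∧ q.2 / u = p.2 / u).erase p) := by
        intro q hq
        rw [Finset.mem_filter] at hq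
        obtain ⟨hq1, hqp, h | h⟩ := hq
        · rw [Finset.mem_union]
          left
          exact Finset.mem_erase.2 ⟨hqp, Finset.mem_filter.2 ⟨hsub hq1, h.1.symm, h.2.symm⟩⟩
        · rw [Finset.mem_union]
          right
          exact Finset.mem_erase.2 ⟨hqp, Finset.mem_filter.2 ⟨hsub hq1, h.1.symm, h.2.symm⟩⟩
      refine (Finset.card_le_card h1).trans ?_
      refine (Finset.card_union_le _ _).trans ?_
      have := hone p hp
      have := htwo p hp
      omega)
  refine ⟨I, hI.trans hsub, by omega, ?_, ?_⟩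
  · intro p hp q hq h1 h2
    by_contra hne
    exact hIn p hp q hq hne (Or.inl ⟨h1, h2⟩)
  · intro p hp q hq h1 h2
    by_contra hne
    exact hIn p hp q hq hne (Or.inr ⟨h1, h2⟩)

end Tw11
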