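import Mathlib

/-!
# Tw11 / Triple: three blocks, Erdos-Szekeres with ties

PROOF. Map `e ↦ (h01 e, h02 e, h12 e)` into `range τ × range τ × range τ` (`τ ^ 3` classes). Claim: a
class `K` has at most `3 * w` elements (`Finset.card_le_mul_card_image` or
`Finset.card_le_mul_card_image_of_maps_to`). If `K` is nonempty fix `e₀ ∈ K`. For `e ∈ K`:
if all three of `f0 e ≠ f0 e₀`, `f1 e ≠ f1 e₀`, `f2 e ≠ f2 e₀` then two of the three differences have
the same sign, e.g. `f0 e < f0 e₀` and `f2 e < f2 e₀`, so `h02 e < h02 e₀` (or the opposite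
inequality), contradiction with the same class. So `f0 e = f0 e₀` or `f1 e = f1 e₀` or `f2 e = f2 e₀`,
and each of the three possibilities allows at most `w` elements.
-/

set_option autoImplicit false

namespace Tw11

theorem triple {α : Type*} [DecidableEq α] (H : Finset α) (f0 f1 f2 : α → ℕ)
    (h01 h02 h12 : α → ℕ) (τ w : ℕ)
    (hb : ∀ e ∈ H, h01 e < τ ∧ h02 e < τ ∧ h12 e < τ)
    (hm : ∀ e ∈ H, ∀ e' ∈ H, (f0 e < f0 e' → f1 e < f1 e' → h01 e < h01 e') ∧
      (f0 e < f0 e' → f2 e < f2 e' → h02 e < h02 e') ∧
      (f1 e < f1 e' → f2 e < f2 e' → h12 e < h12 e'))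
    (hw : ∀ c : ℕ, (H.filter fun e => f0 e = c).card ≤ w ∧ (H.filter fun e => f1 e = c).card ≤ w ∧
      (H.filter fun e => f2 e = c).card ≤ w) :
    H.card ≤ 3 * w * τ ^ 3 := by
  classical
  set T : Finset (ℕ × ℕ × ℕ) := Finset.range τ ×ˢ Finset.range τ ×ˢ Finset.range τ with hT
  have hTc : T.card = τ ^ 3 := by
    rw [hT, Finset.card_product, Finset.card_product, Finset.card_range]
    ring
  have hmap : ∀ e ∈ H, (h01 e, h02 e, h12 e) ∈ T := by
    intro e he
    obtain ⟨a, b, c⟩ := hb e he
    simp only [hT, Finset.mem_product, Finset.mem_range]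
    exact ⟨a, b, c⟩
  have hcl : ∀ y ∈ T, (H.filter fun e => (h01 e, h02 e, h12 e) = y).card ≤ 3 * w := by
    intro y _
    rcases (H.filter fun e => (h01 e, h02 e, h12 e) = y).eq_empty_or_nonempty with h | ⟨e0, he0⟩
    · rw [h, Finset.card_empty]
      exact Nat.zero_le _
    · obtain ⟨he0H, he0y⟩ := Finset.mem_filter.1 he0
      have hsub : (H.filter fun e => (h01 e, h02 e, h12 e) = y) ⊆
          (H.filter fun e => f0 e = f0 e0) ∪ ((H.filter fun e => f1 e = f1 e0) ∪
            (H.filter fun e => f2 e = f2 e0)) := by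
        intro e he
        obtain ⟨heH, hey⟩ := Finset.mem_filter.1 he
        have hk := hey.trans he0y.symm
        simp only [Prod.mk.injEq] at hk
        obtain ⟨k1, k2, k3⟩ := hk
        obtain ⟨m1, m2, m3⟩ := hm e heH e0 he0H
        obtain ⟨n1, n2, n3⟩ := hm e0 he0H e heH
        simp only [Finset.mem_union, Finset.mem_filter]
        by_contra hcon
        push Not at hcon
        obtain ⟨c1, c2, c3⟩ := hcon
        have d1 := c1 heH
        have d2 := c2 heH
        have d3 := c3 heH
        rcases Nat.lt_or_gt_of_ne d1 with u1 | u1 <;> rcases Nat.lt_or_gt_of_ne d2 with u2 | u2 <;>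
          rcases Nat.lt_or_gt_of_ne d3 with u3 | u3
        · have := m1 u1 u2
          omega
        · have := m1 u1 u2
          omega
        · have := m2 u1 u3
          omega
        · have := n3 u2 u3
          omega
        · have := m3 u2 u3
          omega
        · have := n2 u1 u3
          omega
        · have := n1 u1 u2
          omega
        · have := n1 u1 u2
          omega
      refine (Finset.card_le_card hsub).trans ?_
      refine (Finset.card_union_le _ _).trans ?_
      have h1 := (hw (f0 e0)).1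
      have h2 := (hw (f1 e0)).2.1
      have h3 := (hw (f2 e0)).2.2
      have h4 := Finset.card_union_le (H.filter fun e => f1 e = f1 e0)
        (H.filter fun e => f2 e = f2 e0)
      omega
  have h := Finset.card_le_mul_card_image_of_maps_to hmap (3 * w) hcl
  rw [hTc] at h
  exact h

end Tw11
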