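import Pool.Agent.Tw11.Def
import Pool.Agent.Tw11.Triple

/-!
# Tw11 / ColHv: the number of heavy triangles

Notation: block of `p` = `p.1 / (w * L)`, super column = `p.1 / (w * L * Q)`, super row =
`p.2 / (w * L * Q)`. `HvD b b'` (for `b < b'`) are the heavy pairs of the blocks `b, b'` with
height function `hD b b'` (from `dec` in DecB).

PROOF. Let `X` be the filtered set, and map `x ∈ X` to
`φ x = (b0, b1 % Q, b2 % Q)` with `b0, b1, b2` the blocks of `x.1, x.2.1, x.2.2`; the target is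
`range (Q * R) × range Q × range Q` (as `x.1.1 < w * L * Q * R`), of cardinality `R * Q ^ 3`, and
`b0 / Q = b1 / Q = b2 / Q` (equal super columns, `Nat.div_div_eq_div_mul`), so the fibres of
`φ` are the sets `H` of the `x ∈ X` with given blocks `b0, b1, b2` (which are different). Use
`Finset.card_le_mul_card_image_of_maps_to`. For a fibre `H` apply `triple` with
`f0 x = x.1.1 / w`, `f1 x = x.2.1.1 / w`, `f2 x = x.2.2.1 / w` and
`h01 x = if b0 < b1 then hD b0 b1 (x.1, x.2.1) else hD b1 b0 (x.2.1, x.1)`, similarly `h02, h12`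
(the hypothesis `hmono` is symmetric in the two coordinates). The hypothesis `hw`: the elements of `H`
with `x.1.1 / w = c` are at most `w`, because `x ↦ x.1.1` maps them to `[c w, c w + w)` and is
injective on `H`: `x.1.1` determines `x.1` (`Gen P`), its super row determines `x.2.1` (block `b1`, same
super row, `hcell`) and `x.2.2` (block `b2`, same super row). Similarly for `f1` and `f2`.
-/

set_option autoImplicit false

namespace Tw11

namespace ColHvAux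

/-- the height of a heavy pair with blocks `c`, `c'` -/
def hh (hD : ℕ → ℕ → Pt × Pt → ℕ) (c c' : ℕ) (p q : Pt) : ℕ :=
  if c < c' then hD c c' (p, q) else hD c' c (q, p)

theorem card_strip {α : Type*} (H : Finset α) (g : α → Pt) (w c : ℕ) (hw : 0 < w)
    (hinj : ∀ x ∈ H, ∀ y ∈ H, (g x).1 = (g y).1 → x = y) :
    (H.filter fun x => (g x).1 / w = c).card ≤ w := by
  have h1 : (H.filter fun x => (g x).1 / w = c).card ≤ (Finset.Ico (c * w) (c * w + w)).card := by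
    refine Finset.card_le_card_of_injOn (fun x => (g x).1) ?_ ?_
    · intro x hx
      rw [Finset.mem_coe, Finset.mem_filter] at hx
      rw [Finset.mem_coe, Finset.mem_Ico]
      change c * w ≤ (g x).1 ∧ (g x).1 < c * w + w
      have h2 := Nat.div_add_mod (g x).1 w
      have h3 := Nat.mod_lt (g x).1 hw
      rw [hx.2, mul_comm] at h2
      omega
    · intro x hx y hy hxy
      rw [Finset.mem_coe, Finset.mem_filter] at hx hy
      exact hinj x hx.1 y hy.1 hxy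
  rw [Nat.card_Ico, Nat.add_sub_cancel_left] at h1
  exact h1

end ColHvAux

theorem heavy_count (P : Finset Pt) (hP : Gen P) (w L Q R τ : ℕ) (hw : 0 < w) (hL : 0 < L)
    (hQ : 0 < Q) (hX : ∀ p ∈ P, p.1 < w * L * Q * R)
    (hcell : ∀ p ∈ P, ∀ q ∈ P, p.1 / (w * L) = q.1 / (w * L) →
      p.2 / (w * L * Q) = q.2 / (w * L * Q) → p = q)
    (HvD : ℕ → ℕ → Finset (Pt × Pt)) (hD : ℕ → ℕ → Pt × Pt → ℕ)
    (hlt : ∀ b b', ∀ e ∈ HvD b b', hD b b' e < τ)
    (hmono : ∀ b b', ∀ e ∈ HvD b b', ∀ e' ∈ HvD b b', e.1.1 / w < e'.1.1 / w →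
      e.2.1 / w < e'.2.1 / w → hD b b' e < hD b b' e')
    (Hv : Finset (Pt × Pt))
    (hHv : ∀ p q, (p, q) ∈ Hv → p ∈ P ∧ q ∈ P ∧ p.1 / (w * L * Q) = q.1 / (w * L * Q) ∧
      p.2 / (w * L * Q) = q.2 / (w * L * Q) ∧
      ((p.1 / (w * L) < q.1 / (w * L) ∧ (p, q) ∈ HvD (p.1 / (w * L)) (q.1 / (w * L))) ∨
        (q.1 / (w * L) < p.1 / (w * L) ∧ (q, p) ∈ HvD (q.1 / (w * L)) (p.1 / (w * L))))) :
    ((P ×ˢ (P ×ˢ P)).filter fun x => (x.1, x.2.1) ∈ Hv ∧ (x.1, x.2.2) ∈ Hv ∧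
      (x.2.1, x.2.2) ∈ Hv).card ≤ R * Q ^ 3 * (3 * w * τ ^ 3) := by
  classical
  set W := w * L with hWd
  set V := w * L * Q with hVd
  have hW : 0 < W := Nat.mul_pos hw hL
  set X := (P ×ˢ (P ×ˢ P)).filter fun x => (x.1, x.2.1) ∈ Hv ∧ (x.1, x.2.2) ∈ Hv ∧
      (x.2.1, x.2.2) ∈ Hv with hXd
  set φ : Pt × (Pt × Pt) → ℕ × (ℕ × ℕ) :=
    fun x => (x.1.1 / W, (x.2.1.1 / W % Q, x.2.2.1 / W % Q)) with hφ
  have hdiv : ∀ a : ℕ, a / V = a / W / Q := fun a => by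
    rw [hVd, ← hWd, Nat.div_div_eq_div_mul]
  have hfib : ∀ t ∈ Finset.range (Q * R) ×ˢ (Finset.range Q ×ˢ Finset.range Q),
      (X.filter fun x => φ x = t).card ≤ 3 * w * τ ^ 3 := by
    rintro ⟨t0, t1, t2⟩ -
    set H := X.filter fun x => φ x = (t0, (t1, t2)) with hH
    set β1 := Q * (t0 / Q) + t1 with hβ1
    set β2 := Q * (t0 / Q) + t2 with hβ2
    -- the facts on the elements of a fibre
    have hfact : ∀ x ∈ H, ((x.1, x.2.1) ∈ Hv ∧ (x.1, x.2.2) ∈ Hv ∧ (x.2.1, x.2.2) ∈ Hv) ∧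
        x.1.1 / W = t0 ∧ x.2.1.1 / W = β1 ∧ x.2.2.1 / W = β2 := by
      intro x hx
      rw [hH, Finset.mem_filter, hXd, Finset.mem_filter] at hx
      obtain ⟨⟨-, hx1⟩, hx2⟩ := hx
      simp only [hφ, Prod.mk.injEq] at hx2
      obtain ⟨e0, e1, e2⟩ := hx2
      have r1 := (hHv _ _ hx1.1).2.2.1
      have r2 := (hHv _ _ hx1.2.1).2.2.1
      rw [hdiv, hdiv] at r1 r2
      rw [e0] at r1 r2
      refine ⟨hx1, e0, ?_, ?_⟩
      · rw [hβ1, r1, ← e1]
        exact (Nat.div_add_mod _ _).symm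
      · rw [hβ2, r2, ← e2]
        exact (Nat.div_add_mod _ _).symm
    have hmem : ∀ x ∈ H, x.1 ∈ P ∧ x.2.1 ∈ P ∧ x.2.2 ∈ P ∧ x.1.2 / V = x.2.1.2 / V ∧
        x.1.2 / V = x.2.2.2 / V := by
      intro x hx
      obtain ⟨⟨h1, h2, h3⟩, -⟩ := hfact x hx
      have k1 := hHv _ _ h1
      have k2 := hHv _ _ h2
      exact ⟨k1.1, k1.2.1, k2.2.1, k1.2.2.2.1, k2.2.2.2.1⟩
    -- an element is determined by the common super row
    have hdet : ∀ x ∈ H, ∀ y ∈ H, x.1.2 / V = y.1.2 / V → x = y := by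
      intro x hx y hy hr
      obtain ⟨-, a0, a1, a2⟩ := hfact x hx
      obtain ⟨-, b0, b1, b2⟩ := hfact y hy
      obtain ⟨p0, p1, p2, p3, p4⟩ := hmem x hx
      obtain ⟨q0, q1, q2, q3, q4⟩ := hmem y hy
      have c0 : x.1 = y.1 := hcell _ p0 _ q0 (a0.trans b0.symm) hr
      have c1 : x.2.1 = y.2.1 := hcell _ p1 _ q1 (a1.trans b1.symm) (by rw [← p3, ← q3, hr])
      have c2 : x.2.2 = y.2.2 := hcell _ p2 _ q2 (a2.trans b2.symm) (by rw [← p4, ← q4, hr])
      exact Prod.ext c0 (Prod.ext c1 c2)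
    -- a pair of heavy blocks
    have hpair : ∀ c c' : ℕ, ∀ p q : Pt, (p, q) ∈ Hv → p.1 / W = c → q.1 / W = c' →
        (c < c' ∧ (p, q) ∈ HvD c c') ∨ (c' < c ∧ (q, p) ∈ HvD c' c) := by
      rintro c c' p q h rfl rfl
      exact (hHv _ _ h).2.2.2.2
    have hhlt : ∀ c c' : ℕ, ∀ p q : Pt, (p, q) ∈ Hv → p.1 / W = c → q.1 / W = c' →
        ColHvAux.hh hD c c' p q < τ := by
      intro c c' p q h e1 e2
      unfold ColHvAux.hh
      rcases hpair c c' p q h e1 e2 with ⟨h1, h2⟩ | ⟨h1, h2⟩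
      · rw [if_pos h1]
        exact hlt _ _ _ h2
      · rw [if_neg (by omega)]
        exact hlt _ _ _ h2
    have hhmono : ∀ c c' : ℕ, ∀ p q p' q' : Pt, (p, q) ∈ Hv → p.1 / W = c → q.1 / W = c' →
        (p', q') ∈ Hv → p'.1 / W = c → q'.1 / W = c' → p.1 / w < p'.1 / w →
        q.1 / w < q'.1 / w → ColHvAux.hh hD c c' p q < ColHvAux.hh hD c c' p' q' := by
      intro c c' p q p' q' h e1 e2 h' e1' e2' l1 l2
      unfold ColHvAux.hh
      rcases hpair c c' p q h e1 e2 with ⟨h1, h2⟩ | ⟨h1, h2⟩ <;>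
        rcases hpair c c' p' q' h' e1' e2' with ⟨h1', h2'⟩ | ⟨h1', h2'⟩
      · rw [if_pos h1, if_pos h1]
        exact hmono _ _ _ h2 _ h2' l1 l2
      · omega
      · omega
      · rw [if_neg (by omega), if_neg (by omega)]
        exact hmono _ _ _ h2 _ h2' l2 l1
    refine triple H (fun x => x.1.1 / w) (fun x => x.2.1.1 / w) (fun x => x.2.2.1 / w)
      (fun x => ColHvAux.hh hD t0 β1 x.1 x.2.1) (fun x => ColHvAux.hh hD t0 β2 x.1 x.2.2)
      (fun x => ColHvAux.hh hD β1 β2 x.2.1 x.2.2) τ w ?_ ?_ ?_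
    · intro x hx
      obtain ⟨⟨h1, h2, h3⟩, a0, a1, a2⟩ := hfact x hx
      exact ⟨hhlt _ _ _ _ h1 a0 a1, hhlt _ _ _ _ h2 a0 a2, hhlt _ _ _ _ h3 a1 a2⟩
    · intro x hx y hy
      obtain ⟨⟨h1, h2, h3⟩, a0, a1, a2⟩ := hfact x hx
      obtain ⟨⟨k1, k2, k3⟩, b0, b1, b2⟩ := hfact y hy
      exact ⟨fun l1 l2 => hhmono _ _ _ _ _ _ h1 a0 a1 k1 b0 b1 l1 l2,
        fun l1 l2 => hhmono _ _ _ _ _ _ h2 a0 a2 k2 b0 b2 l1 l2,
        fun l1 l2 => hhmono _ _ _ _ _ _ h3 a1 a2 k3 b1 b2 l1 l2⟩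
    · intro c
      refine ⟨ColHvAux.card_strip H (fun x => x.1) w c hw ?_,
        ColHvAux.card_strip H (fun x => x.2.1) w c hw ?_,
        ColHvAux.card_strip H (fun x => x.2.2) w c hw ?_⟩
      · intro x hx y hy hxy
        have e := hP.1 _ (hmem x hx).1 _ (hmem y hy).1 hxy
        exact hdet x hx y hy (by rw [e])
      · intro x hx y hy hxy
        have e := hP.1 _ (hmem x hx).2.1 _ (hmem y hy).2.1 hxy
        apply hdet x hx y hy
        rw [(hmem x hx).2.2.2.1, (hmem y hy).2.2.2.1, e]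
      · intro x hx y hy hxy
        have e := hP.1 _ (hmem x hx).2.2.1 _ (hmem y hy).2.2.1 hxy
        apply hdet x hx y hy
        rw [(hmem x hx).2.2.2.2, (hmem y hy).2.2.2.2, e]
  have hmaps : ∀ x ∈ X, φ x ∈ Finset.range (Q * R) ×ˢ (Finset.range Q ×ˢ Finset.range Q) := by
    intro x hx
    rw [hXd, Finset.mem_filter, Finset.mem_product] at hx
    have h1 := hX _ hx.1.1
    simp only [hφ, Finset.mem_product, Finset.mem_range]
    refine ⟨?_, Nat.mod_lt _ hQ, Nat.mod_lt _ hQ⟩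
    apply Nat.div_lt_of_lt_mul
    rw [← mul_assoc]
    exact h1
  have hmain := Finset.card_le_mul_card_image_of_maps_to hmaps (3 * w * τ ^ 3) hfib
  rw [Finset.card_product, Finset.card_product, Finset.card_range, Finset.card_range] at hmain
  calc X.card ≤ 3 * w * τ ^ 3 * (Q * R * (Q * Q)) := hmain
    _ = R * Q ^ 3 * (3 * w * τ ^ 3) := by ring

end Tw11
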