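import Pool.Agent.Tw11.DecB
import Pool.Agent.Tw11.ColHv

/-!
# Tw11 / Col: existence of the column structure

Notation: `bl p = p.1 / (w * L)` (block), `A p = p.1 / (w * L * Q)` (super column),
`S p = p.2 / (w * L * Q)` (super row).

PROOF. For `b b' : ℕ` let `C b b' = {g ∈ P × P | bl g.1 = b, bl g.2 = b', S g.1 = S g.2}`.
`(C b b').card ≤ w * L ≤ τ * 2 ^ k * N`: the map `g ↦ g.1.1` goes to `[b w L, (b+1) w L)` and is
injective on `C b b'` (`g.1` is determined by `Gen P`, `g.2` by its block `b'` and its super row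
`S g.1`, `hcell`). Apply `dec` to `C b b'` with `f g = g.1.1 / w ∈ [b L, b L + L)`,
`g g = g.2.1 / w ∈ [b' L, b' L + L)` (`Nat.div_div_eq_div_mul`), and choose
`slotD b b', LtD b b', HvD b b', hD b b'` for all `b, b'`. Define
* `slot p q = if S p = S q then (if bl p < bl q then slotD (bl p) (bl q) (p, q)
     else slotD (bl q) (bl p) (q, p)) else none`;
* `Lt` = the `(p, q) ∈ P × P` with `A p = A q`, `S p = S q` and
  (`bl p < bl q` and `(p, q) ∈ LtD (bl p) (bl q)`, or `bl q < bl p` and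
  `(q, p) ∈ LtD (bl q) (bl p)`); `Hv` in the same way.
Fields of `ColS`:
* `slot_lt`: first property of `dec`.
* `mono`: if `bl p < bl q` directly the property of `dec` for `(p, q), (p', q') ∈ C b b'`; if
  `bl q < bl p` the same for `(q, p), (q', p') ∈ C b' b` and exchange the two sides of the iff.
* `mult`: the block of `g.1` is `c / L =: b₀`. If `b₀ < b` the set is contained in
  `{e ∈ C b₀ b | slotD b₀ b e = some σ ∧ e.1.1 / w = c}`. If `b < b₀` it is mapped injectively by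
  `Prod.swap` into `{e ∈ C b b₀ | slotD b b₀ e = some σ ∧ e.2.1 / w = c}`; by the mono property
  two such elements also have equal `e.1.1 / w`, so (if nonempty) this is contained in
  `{e ∈ C b b₀ | slotD b b₀ e = some σ ∧ e.1.1 / w = c'}`.
* `cover`: `p ≠ q` with `S p = S q` have `bl p ≠ bl q` (`hcell`); use the cover property of `dec`.
* `light`: map `(p, q) ∈ Lt` to `(bl p, bl q % Q) ∈ range (Q * R) × range Q` (`R * Q ^ 2`
  elements); as `bl p / Q = A p = A q = bl q / Q` the fibre is contained in the pairs with given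
  blocks `b, b'`; if `b < b'` this is contained in `LtD b b'`, if `b' < b` it is mapped by
  `Prod.swap` into `LtD b' b`: at most `4 * L * (τ * 2 ^ k) * k` elements.
* `symm`: by definition. * `heavy`: `heavy_count`.
-/

set_option autoImplicit false

namespace Tw11

/-- the pairs of points of the blocks `b, b'` in the same super row -/
private def CC (P : Finset Pt) (W V b b' : ℕ) : Finset (Pt × Pt) :=
  (P ×ˢ P).filter fun g => g.1.1 / W = b ∧ g.2.1 / W = b' ∧ g.1.2 / V = g.2.2 / V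

private theorem mem_CC {P : Finset Pt} {W V b b' : ℕ} {g : Pt × Pt} :
    g ∈ CC P W V b b' ↔ g.1 ∈ P ∧ g.2 ∈ P ∧ g.1.1 / W = b ∧ g.2.1 / W = b' ∧
      g.1.2 / V = g.2.2 / V := by
  rw [CC, Finset.mem_filter, Finset.mem_product]
  tauto

private theorem card_CC {P : Finset Pt} (hP : Gen P) {W V : ℕ} (hW : 0 < W)
    (hcell : ∀ p ∈ P, ∀ q ∈ P, p.1 / W = q.1 / W → p.2 / V = q.2 / V → p = q) (b b' : ℕ) :
    (CC P W V b b').card ≤ W := by
  have h : (CC P W V b b').card ≤ (Finset.Ico (b * W) (b * W + W)).card := by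
    refine Finset.card_le_card_of_injOn (fun g => g.1.1) ?_ ?_
    · intro g hg
      have h1 := (mem_CC.1 hg).2.2.1
      have h2 := Nat.div_add_mod g.1.1 W
      have h3 := Nat.mod_lt g.1.1 hW
      rw [h1, mul_comm] at h2
      show g.1.1 ∈ ((Finset.Ico (b * W) (b * W + W) : Finset ℕ) : Set ℕ)
      rw [Finset.mem_coe, Finset.mem_Ico]
      omega
    · intro g hg g' hg' he
      obtain ⟨a1, a2, a3, a4, a5⟩ := mem_CC.1 hg
      obtain ⟨b1, b2, b3, b4, b5⟩ := mem_CC.1 hg'
      have e1 : g.1 = g'.1 := hP.1 _ a1 _ b1 he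
      have e2 : g.2 = g'.2 := by
        refine hcell _ a2 _ b2 (a4.trans b4.symm) ?_
        rw [← a5, ← b5, e1]
      exact Prod.ext e1 e2
  rw [Nat.card_Ico] at h
  omega

private theorem strip {w L x b : ℕ} (hL : 0 < L) (h : x / (w * L) = b) :
    b * L ≤ x / w ∧ x / w < b * L + L := by
  rw [← Nat.div_div_eq_div_mul] at h
  have h2 := Nat.div_add_mod (x / w) L
  have h3 := Nat.mod_lt (x / w) hL
  rw [h, mul_comm] at h2
  omega

/-- assembling the pairs of all blocks -/
private def TT (P : Finset Pt) (W V : ℕ) (F : ℕ → ℕ → Finset (Pt × Pt)) : Finset (Pt × Pt) :=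
  (P ×ˢ P).filter fun g => g.1.1 / V = g.2.1 / V ∧ g.1.2 / V = g.2.2 / V ∧
    ((g.1.1 / W < g.2.1 / W ∧ g ∈ F (g.1.1 / W) (g.2.1 / W)) ∨
      (g.2.1 / W < g.1.1 / W ∧ g.swap ∈ F (g.2.1 / W) (g.1.1 / W)))

private theorem mem_TT {P : Finset Pt} {W V : ℕ} {F : ℕ → ℕ → Finset (Pt × Pt)} {p q : Pt} :
    (p, q) ∈ TT P W V F ↔ p ∈ P ∧ q ∈ P ∧ p.1 / V = q.1 / V ∧ p.2 / V = q.2 / V ∧
      ((p.1 / W < q.1 / W ∧ (p, q) ∈ F (p.1 / W) (q.1 / W)) ∨
        (q.1 / W < p.1 / W ∧ (q, p) ∈ F (q.1 / W) (p.1 / W))) := by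
  rw [TT, Finset.mem_filter, Finset.mem_product]
  simp only [Prod.swap_prod_mk]
  tauto

private theorem card_TT {P : Finset Pt} {W Q R K : ℕ} (hQ : 0 < Q)
    (hX : ∀ p ∈ P, p.1 < W * Q * R) {F : ℕ → ℕ → Finset (Pt × Pt)}
    (hF : ∀ b b', (F b b').card ≤ K) : (TT P W (W * Q) F).card ≤ R * Q ^ 2 * K := by
  classical
  have h := Finset.card_le_mul_card_image_of_maps_to (s := TT P W (W * Q) F)
    (t := Finset.range (Q * R) ×ˢ Finset.range Q)
    (f := fun g => (g.1.1 / W, g.2.1 / W % Q)) (by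
      rintro ⟨p, q⟩ hg
      obtain ⟨h1, _⟩ := mem_TT.1 hg
      rw [Finset.mem_product, Finset.mem_range, Finset.mem_range]
      refine ⟨?_, Nat.mod_lt _ hQ⟩
      apply Nat.div_lt_of_lt_mul
      rw [← mul_assoc]
      exact hX p h1) K (by
      rintro ⟨b, r⟩ _
      set b' := Q * (b / Q) + r with hb'
      have key : ∀ p q : Pt, (p, q) ∈ (TT P W (W * Q) F).filter
          (fun g => (g.1.1 / W, g.2.1 / W % Q) = (b, r)) →
          p.1 / W = b ∧ q.1 / W = b' ∧ ((b < b' ∧ (p, q) ∈ F b b') ∨ (b' < b ∧ (q, p) ∈ F b' b)) := by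
        intro p q hg
        rw [Finset.mem_filter] at hg
        obtain ⟨_, _, h3, h4, h5⟩ := mem_TT.1 hg.1
        have h6 := hg.2
        rw [Prod.mk.injEq] at h6
        have h7 : p.1 / W = b := h6.1
        have h8 : q.1 / W % Q = r := h6.2
        rw [← Nat.div_div_eq_div_mul, ← Nat.div_div_eq_div_mul, h7] at h3
        have h9 := Nat.div_add_mod (q.1 / W) Q
        rw [← h3, h8] at h9
        have h10 : q.1 / W = b' := h9.symm
        rw [h7, h10] at h5
        exact ⟨h7, h10, h5⟩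
      rcases lt_trichotomy b b' with hlt | heq | hgt
      · refine (Finset.card_le_card ?_).trans (hF b b')
        rintro ⟨p, q⟩ hg
        obtain ⟨_, _, h | h⟩ := key p q hg
        · exact h.2
        · omega
      · refine le_trans (le_of_eq ?_) (Nat.zero_le _)
        rw [Finset.card_eq_zero, Finset.eq_empty_iff_forall_notMem]
        rintro ⟨p, q⟩ hg
        obtain ⟨_, _, h | h⟩ := key p q hg
        · omega
        · omega
      · refine (Finset.card_le_card_of_injOn Prod.swap ?_ ?_).trans (hF b' b)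
        · rintro ⟨p, q⟩ hg
          obtain ⟨_, _, h | h⟩ := key p q hg
          · omega
          · exact h.2
        · exact Prod.swap_injective.injOn)
  rw [Finset.card_product, Finset.card_range, Finset.card_range] at h
  calc _ ≤ K * (Q * R * Q) := h
    _ = _ := by ring

theorem col_exists (P : Finset Pt) (hP : Gen P) (w L Q R τ k N : ℕ) (hw : 0 < w) (hL : 0 < L)
    (hQ : 0 < Q) (hτ : 0 < τ) (hX : ∀ p ∈ P, p.1 < w * L * Q * R)
    (hcell : ∀ p ∈ P, ∀ q ∈ P, p.1 / (w * L) = q.1 / (w * L) →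
      p.2 / (w * L * Q) = q.2 / (w * L * Q) → p = q)
    (hN : w * L ≤ τ * 2 ^ k * N) :
    ∃ (slot : Pt → Pt → Option ℕ) (Lt Hv : Finset (Pt × Pt)),
      ColS P w L Q R τ k N slot Lt Hv := by
  classical
  have hW : 0 < w * L := Nat.mul_pos hw hL
  choose slotD LtD HvD hD hLtC hHvC h1 h2 h3 h4 h5 h6 h7 using fun b b' : ℕ =>
    dec (CC P (w * L) (w * L * Q) b b') (fun g => g.1.1 / w) (fun g => g.2.1 / w) (b * L) (b' * L)
      L τ k N hτ (fun e he => strip hL (mem_CC.1 he).2.2.1)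
      (fun e he => strip hL (mem_CC.1 he).2.2.2.1)
      ((card_CC hP hW hcell b b').trans hN)
  let slot : Pt → Pt → Option ℕ := fun p q =>
    if p.2 / (w * L * Q) = q.2 / (w * L * Q) then
      (if p.1 / (w * L) < q.1 / (w * L) then slotD (p.1 / (w * L)) (q.1 / (w * L)) (p, q)
        else slotD (q.1 / (w * L)) (p.1 / (w * L)) (q, p))
    else none
  have slot1 : ∀ p q : Pt, p.2 / (w * L * Q) = q.2 / (w * L * Q) → p.1 / (w * L) < q.1 / (w * L) →
      slot p q = slotD (p.1 / (w * L)) (q.1 / (w * L)) (p, q) := by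
    intro p q e1 e2
    simp only [slot]
    rw [if_pos e1, if_pos e2]
  have slot2 : ∀ p q : Pt, p.2 / (w * L * Q) = q.2 / (w * L * Q) →
      ¬ p.1 / (w * L) < q.1 / (w * L) →
      slot p q = slotD (q.1 / (w * L)) (p.1 / (w * L)) (q, p) := by
    intro p q e1 e2
    simp only [slot]
    rw [if_pos e1, if_neg e2]
  have slot3 : ∀ p q : Pt, p.2 / (w * L * Q) ≠ q.2 / (w * L * Q) → slot p q = none := by
    intro p q e1
    simp only [slot]
    rw [if_neg e1]
  refine ⟨slot, TT P (w * L) (w * L * Q) LtD, TT P (w * L) (w * L * Q) HvD, ?_⟩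
  refine
    { slot_lt := ?_
      mono := ?_
      mult := ?_
      cover := ?_
      light := ?_
      symm := ?_
      heavy := ?_ }
  · intro p hp q hq σ hσ
    by_cases e1 : p.2 / (w * L * Q) = q.2 / (w * L * Q)
    · by_cases e2 : p.1 / (w * L) < q.1 / (w * L)
      · rw [slot1 p q e1 e2] at hσ
        exact h1 _ _ (p, q) (mem_CC.2 ⟨hp, hq, rfl, rfl, e1⟩) σ hσ
      · rw [slot2 p q e1 e2] at hσ
        exact h1 _ _ (q, p) (mem_CC.2 ⟨hq, hp, rfl, rfl, e1.symm⟩) σ hσ
    · rw [slot3 p q e1] at hσ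
      exact absurd hσ (by simp)
  · intro p hp q hq p' hp' q' hq' e1 e2 hne e3 e4 hsl heq
    rcases lt_or_gt_of_ne hne with hlt | hgt
    · have hlt' : p'.1 / (w * L) < q'.1 / (w * L) := by rw [← e1, ← e2]; exact hlt
      rw [slot1 p q e3 hlt] at hsl heq
      rw [slot1 p' q' e4 hlt', ← e1, ← e2] at heq
      exact h2 _ _ (p, q) (mem_CC.2 ⟨hp, hq, rfl, rfl, e3⟩) (p', q')
        (mem_CC.2 ⟨hp', hq', e1.symm, e2.symm, e4⟩) hsl heq
    · have hgt' : ¬ p'.1 / (w * L) < q'.1 / (w * L) := by rw [← e1, ← e2]; exact not_lt.2 hgt.le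
      rw [slot2 p q e3 (not_lt.2 hgt.le)] at hsl heq
      rw [slot2 p' q' e4 hgt', ← e1, ← e2] at heq
      exact (h2 _ _ (q, p) (mem_CC.2 ⟨hq, hp, rfl, rfl, e3.symm⟩) (q', p')
        (mem_CC.2 ⟨hq', hp', e2.symm, e1.symm, e4.symm⟩) hsl heq).symm
  · intro c b σ
    have hb0 : ∀ g : Pt × Pt, g.1.1 / w = c → g.1.1 / (w * L) = c / L := by
      intro g hg
      rw [← Nat.div_div_eq_div_mul, hg]
    rcases lt_trichotomy (c / L) b with hlt | heq | hgt
    · refine (Finset.card_le_card ?_).trans (h3 (c / L) b σ c)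
      intro g hg
      rw [Finset.mem_filter, Finset.mem_product] at hg
      obtain ⟨⟨g1, g2⟩, g3, g4, g5, g6, g7⟩ := hg
      have g8 := hb0 g g3
      have g9 : g.1.1 / (w * L) < g.2.1 / (w * L) := by rw [g8, g4]; exact hlt
      rw [slot1 g.1 g.2 g6 g9, g8, g4] at g7
      rw [Finset.mem_filter]
      exact ⟨mem_CC.2 ⟨g1, g2, g8, g4, g6⟩, g7, g3⟩
    · refine le_trans (le_of_eq ?_) (Nat.zero_le _)
      rw [Finset.card_eq_zero, Finset.eq_empty_iff_forall_notMem]
      intro g hg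
      rw [Finset.mem_filter, Finset.mem_product] at hg
      obtain ⟨⟨g1, g2⟩, g3, g4, g5, g6, g7⟩ := hg
      exact g5 ((hb0 g g3).trans heq)
    · set X := (P ×ˢ P).filter fun g => g.1.1 / w = c ∧ g.2.1 / (w * L) = b ∧
        g.1.1 / (w * L) ≠ b ∧ g.1.2 / (w * L * Q) = g.2.2 / (w * L * Q) ∧
        slot g.1 g.2 = some σ with hXd
      have key : ∀ g ∈ X, g.swap ∈ CC P (w * L) (w * L * Q) b (c / L) ∧
          slotD b (c / L) g.swap = some σ ∧ g.swap.2.1 / w = c := by
        intro g hg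
        rw [hXd, Finset.mem_filter, Finset.mem_product] at hg
        obtain ⟨⟨g1, g2⟩, g3, g4, g5, g6, g7⟩ := hg
        have g8 := hb0 g g3
        have g9 : ¬ g.1.1 / (w * L) < g.2.1 / (w * L) := by rw [g8, g4]; exact not_lt.2 hgt.le
        rw [slot2 g.1 g.2 g6 g9, g8, g4] at g7
        exact ⟨mem_CC.2 ⟨g2, g1, g4, g8, g6.symm⟩, g7, g3⟩
      rcases X.eq_empty_or_nonempty with hem | ⟨g0, hg0⟩
      · rw [hem, Finset.card_empty]
        exact Nat.zero_le _
      · obtain ⟨k1, k2, k3⟩ := key g0 hg0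
        refine (Finset.card_le_card_of_injOn Prod.swap ?_ Prod.swap_injective.injOn).trans
          (h3 b (c / L) σ (g0.swap.1.1 / w))
        intro g hg
        obtain ⟨l1, l2, l3⟩ := key g hg
        rw [Finset.mem_coe, Finset.mem_filter]
        refine ⟨l1, l2, ?_⟩
        have m1 := h2 b (c / L) g.swap l1 g0.swap k1 (by rw [l2]; simp) (by rw [l2, k2])
        have m2 := h2 b (c / L) g0.swap k1 g.swap l1 (by rw [k2]; simp) (by rw [l2, k2])
        have m3 : g.swap.2.1 / w = g0.swap.2.1 / w := by rw [l3, k3]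
        have m4 : ¬ g.swap.1.1 / w < g0.swap.1.1 / w := by
          intro hh
          exact absurd (m1.1 hh) (by show ¬ g.swap.2.1 / w < g0.swap.2.1 / w; omega)
        have m5 : ¬ g0.swap.1.1 / w < g.swap.1.1 / w := by
          intro hh
          exact absurd (m2.1 hh) (by show ¬ g0.swap.2.1 / w < g.swap.2.1 / w; omega)
        omega
  · intro p hp q hq hne hA hS
    have hbl : p.1 / (w * L) ≠ q.1 / (w * L) := fun hh => hne (hcell p hp q hq hh hS)
    by_cases hsl : slot p q = none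
    · right
      rcases lt_or_gt_of_ne hbl with hlt | hgt
      · rw [slot1 p q hS hlt] at hsl
        rcases h4 _ _ (p, q) (mem_CC.2 ⟨hp, hq, rfl, rfl, hS⟩) hsl with h | h
        · exact Or.inl (mem_TT.2 ⟨hp, hq, hA, hS, Or.inl ⟨hlt, h⟩⟩)
        · exact Or.inr (mem_TT.2 ⟨hp, hq, hA, hS, Or.inl ⟨hlt, h⟩⟩)
      · rw [slot2 p q hS (not_lt.2 hgt.le)] at hsl
        rcases h4 _ _ (q, p) (mem_CC.2 ⟨hq, hp, rfl, rfl, hS.symm⟩) hsl with h | h
        · exact Or.inl (mem_TT.2 ⟨hp, hq, hA, hS, Or.inr ⟨hgt, h⟩⟩)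
        · exact Or.inr (mem_TT.2 ⟨hp, hq, hA, hS, Or.inr ⟨hgt, h⟩⟩)
    · exact Or.inl hsl
  · exact card_TT hQ hX h5
  · intro p q h
    obtain ⟨a1, a2, a3, a4, a5⟩ := mem_TT.1 h
    refine mem_TT.2 ⟨a2, a1, a3.symm, a4.symm, ?_⟩
    rcases a5 with a5 | a5
    · exact Or.inr a5
    · exact Or.inl a5
  · refine heavy_count P hP w L Q R τ hw hL hQ hX hcell HvD hD h6
      (fun b b' e he e' he' => h7 b b' e he e' he') _ ?_
    intro p q h
    exact mem_TT.1 h

end Tw11
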