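import Pool.Agent.Tw11.Main
import Pool.Agent.Tw11.BRScale
import Pool.Agent.Tw11.Clean

/-!
# Tw11 / Core: the choice of the parameters

PROOF. `w = 2^(105r)`, `L = 2^(25r)`, `Q = 2^(65r)`, `R = 2^(135r)`, so `u = w L = 2^(130r)`,
`v = u Q = 2^(195r)`, `v R = 2^(330r)`; `s = 195 r`, `j = 2^(65r)`, `j^2 + u = 2^(130r+1)`.
If one of the two bad sets has more than `P.card / 10` points: `br_scale` (for the rows applied to
`sw P`, and `wt_of_sw`) gives `P.card ≤ 10 * 4 * 195 r * M.card * 2^(130r+1)`, so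
`2^(330r) ≤ 2^330 * 15600 * r * 2^(130r) * M.card`.
Otherwise `clean` gives `P'`, `n = P'.card`, `2^(330r) ≤ 2^332 * n`; `main_step` for `P'` with
`τ = 2^(5r-335)`, `ℓ = Nat.clog 2 (95 r)`, `k = 95 r - 338 - ℓ`, `N = 2^(30r+673+ℓ)`
(`τ 2^k N = 2^(130r)`). Hypotheses: `64 R^2 = 2^(270r+6)`, fine as `60 r ≥ 338`;
`512 R^3 Q^2 L τ 2^k k ≤ 2^(565r-326+k) * 2^ℓ = 2^(660r-664) ≤ n^2`; `256 R^5 Q^3 w τ^3 =
2^(990r-997) ≤ n^3`. Result, with `m = 2 Q N = 2^(95r+674+ℓ) ≥ 2^k`: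
`n^2 ≤ 64 R^2 * 2 * T.card * 4 m^2 = 2^(460r+1357+2ℓ) * T.card`, `n^2 ≥ 2^(660r-664)`,
so `2^(200r) ≤ 2^(2021+2ℓ) * T.card` and `2^ℓ ≤ 2 * 95 r`.
-/

set_option autoImplicit false

namespace Tw11

theorem Core_br (r X b m E : ℕ) (hr : 1 ≤ r) (h : 2 ^ (330 * r) ≤ 2 ^ E * X) (hX : X ≤ 10 * b)
    (hb : b ≤ 4 * (195 * r) * (m * ((2 ^ (65 * r)) ^ 2 + 2 ^ (130 * r)))) :
    2 ^ (200 * r) ≤ 2 ^ (E + 14) * r ^ 2 * m := by
  have e1 : (2 ^ (65 * r)) ^ 2 = 2 ^ (130 * r) := by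
    rw [← pow_mul]; congr 1; ring
  have e2 : 2 ^ (330 * r) = 2 ^ (200 * r) * 2 ^ (130 * r) := by
    rw [← pow_add]; congr 1; ring
  rw [e1] at hb
  rw [e2] at h
  have h1 : 2 ^ (200 * r) * 2 ^ (130 * r) ≤ (2 ^ E * (15600 * r) * m) * 2 ^ (130 * r) := by
    calc 2 ^ (200 * r) * 2 ^ (130 * r) ≤ 2 ^ E * X := h
      _ ≤ 2 ^ E * (10 * (4 * (195 * r) * (m * (2 ^ (130 * r) + 2 ^ (130 * r))))) :=
          Nat.mul_le_mul_left _ (hX.trans (Nat.mul_le_mul_left _ hb))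
      _ = (2 ^ E * (15600 * r) * m) * 2 ^ (130 * r) := by ring
  have h2 : 2 ^ (200 * r) ≤ 2 ^ E * (15600 * r) * m :=
    Nat.le_of_mul_le_mul_right h1 (by positivity)
  refine h2.trans ?_
  rw [pow_add]
  have h3 : 15600 * r ≤ 2 ^ 14 * r ^ 2 := by
    have : r ≤ r ^ 2 := by nlinarith
    calc 15600 * r ≤ 2 ^ 14 * r := Nat.mul_le_mul_right _ (by norm_num)
      _ ≤ 2 ^ 14 * r ^ 2 := Nat.mul_le_mul_left _ this
  calc 2 ^ E * (15600 * r) * m ≤ 2 ^ E * (2 ^ 14 * r ^ 2) * m :=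
        Nat.mul_le_mul_right _ (Nat.mul_le_mul_left _ h3)
    _ = 2 ^ E * 2 ^ 14 * r ^ 2 * m := by ring

theorem Core_ell (r : ℕ) (hr : 100 ≤ r) :
    ∃ ℓ : ℕ, 95 * r ≤ 2 ^ ℓ ∧ 2 ^ ℓ ≤ 190 * r ∧ ℓ + 338 ≤ 95 * r := by
  refine ⟨Nat.clog 2 (95 * r), Nat.le_pow_clog (by norm_num) _, ?_, ?_⟩
  · have h1 : 2 ^ (Nat.clog 2 (95 * r)).pred < 95 * r :=
      Nat.pow_pred_clog_lt_self (by norm_num) (by omega)
    have h2 : 0 < Nat.clog 2 (95 * r) := Nat.clog_pos (by norm_num) (by omega)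
    obtain ⟨a, ha⟩ : ∃ a, Nat.clog 2 (95 * r) = a + 1 := ⟨Nat.clog 2 (95 * r) - 1, by omega⟩
    rw [ha] at h1 ⊢
    rw [Nat.pred_succ] at h1
    rw [pow_succ]
    omega
  · have h3 : Nat.clog 2 (95 * r) ≤ r := by
      refine Nat.clog_le_of_le_pow ?_
      have h4 : ∀ s : ℕ, 10 ≤ s → 95 * s ≤ 2 ^ s := by
        intro s hs
        induction s, hs using Nat.le_induction with
        | base => norm_num
        | succ s hs ih => rw [pow_succ]; omega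
      exact h4 r (by omega)
    omega

theorem Core_h1 (r n E : ℕ) (hE : E = 332) (hr : 100 ≤ r) (hn : 2 ^ (330 * r) ≤ 2 ^ E * n) :
    64 * (2 ^ (135 * r)) ^ 2 ≤ n := by
  have h1 : 2 ^ E * (64 * (2 ^ (135 * r)) ^ 2) ≤ 2 ^ E * n := by
    refine le_trans ?_ hn
    have : (64 : ℕ) = 2 ^ 6 := by norm_num
    rw [this, ← pow_mul, ← pow_add, ← pow_add]
    exact Nat.pow_le_pow_right (by norm_num) (by omega)
  exact Nat.le_of_mul_le_mul_left h1 (by positivity)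

theorem Core_h2 (r n E k ℓ : ℕ) (hE : E = 332) (hr : 100 ≤ r) (hn : 2 ^ (330 * r) ≤ 2 ^ E * n)
    (hk : k + ℓ + 338 = 95 * r) (hkl : k ≤ 2 ^ ℓ) :
    512 * (2 ^ (135 * r)) ^ 3 * (2 ^ (65 * r)) ^ 2 * 2 ^ (25 * r) * (2 ^ (5 * r - 335) * 2 ^ k) * k
      ≤ n ^ 2 := by
  have h0 : (2 ^ (330 * r)) ^ 2 ≤ (2 ^ E) ^ 2 * n ^ 2 := by
    rw [← mul_pow]
    exact Nat.pow_le_pow_left hn 2
  have h1 : (2 ^ E) ^ 2 * (512 * (2 ^ (135 * r)) ^ 3 * (2 ^ (65 * r)) ^ 2 * 2 ^ (25 * r) *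
      (2 ^ (5 * r - 335) * 2 ^ k) * k) ≤ (2 ^ E) ^ 2 * n ^ 2 := by
    refine le_trans ?_ h0
    refine le_trans (Nat.mul_le_mul_left _ (Nat.mul_le_mul_left _ hkl)) ?_
    have : (512 : ℕ) = 2 ^ 9 := by norm_num
    rw [this]
    simp only [← pow_mul, ← pow_add]
    exact Nat.pow_le_pow_right (by norm_num) (by omega)
  exact Nat.le_of_mul_le_mul_left h1 (by positivity)

theorem Core_h3 (r n E : ℕ) (hE : E = 332) (hr : 100 ≤ r) (hn : 2 ^ (330 * r) ≤ 2 ^ E * n) :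
    256 * (2 ^ (135 * r)) ^ 5 * (2 ^ (65 * r)) ^ 3 * 2 ^ (105 * r) * (2 ^ (5 * r - 335)) ^ 3
      ≤ n ^ 3 := by
  have h0 : (2 ^ (330 * r)) ^ 3 ≤ (2 ^ E) ^ 3 * n ^ 3 := by
    rw [← mul_pow]
    exact Nat.pow_le_pow_left hn 3
  have h1 : (2 ^ E) ^ 3 * (256 * (2 ^ (135 * r)) ^ 5 * (2 ^ (65 * r)) ^ 3 * 2 ^ (105 * r) *
      (2 ^ (5 * r - 335)) ^ 3) ≤ (2 ^ E) ^ 3 * n ^ 3 := by
    refine le_trans ?_ h0
    have : (256 : ℕ) = 2 ^ 8 := by norm_num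
    rw [this]
    simp only [← pow_mul, ← pow_add]
    exact Nat.pow_le_pow_right (by norm_num) (by omega)
  exact Nat.le_of_mul_le_mul_left h1 (by positivity)

theorem Core_end (r n E k ℓ T F : ℕ) (hE : E = 332) (hF : F = 2040) (hr : 100 ≤ r)
    (hn : 2 ^ (330 * r) ≤ 2 ^ E * n)
    (hk : k + ℓ + 338 = 95 * r) (hl : 2 ^ ℓ ≤ 190 * r)
    (h : n ^ 2 ≤ 64 * (2 ^ (135 * r)) ^ 2 * (2 * T * (2 * ((2 * 2 ^ (65 * r) *
      2 ^ (30 * r + 673 + ℓ)) * (2 * 2 ^ (65 * r) * 2 ^ (30 * r + 673 + ℓ))) +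
      2 ^ k * (2 * 2 ^ (65 * r) * 2 ^ (30 * r + 673 + ℓ)) +
      2 ^ k * (2 * 2 ^ (65 * r) * 2 ^ (30 * r + 673 + ℓ))))) :
    2 ^ (200 * r) ≤ 2 ^ F * r ^ 2 * T := by
  have em : 2 * 2 ^ (65 * r) * 2 ^ (30 * r + 673 + ℓ) = 2 ^ (95 * r + 674 + ℓ) := by
    rw [← pow_succ', ← pow_add]
    congr 1
    omega
  rw [em] at h
  have hkm : 2 ^ k ≤ 2 ^ (95 * r + 674 + ℓ) := Nat.pow_le_pow_right (by norm_num) (by omega)
  obtain ⟨m, hm⟩ : ∃ m, m = 2 ^ (95 * r + 674 + ℓ) := ⟨_, rfl⟩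
  rw [← hm] at h hkm
  have h2 : n ^ 2 ≤ 2 ^ (460 * r + 1357 + 2 * ℓ) * T := by
    calc n ^ 2 ≤ 64 * (2 ^ (135 * r)) ^ 2 * (2 * T * (2 * (m * m) + 2 ^ k * m + 2 ^ k * m)) := h
      _ ≤ 64 * (2 ^ (135 * r)) ^ 2 * (2 * T * (2 * (m * m) + m * m + m * m)) := by
          have := Nat.mul_le_mul_right m hkm
          refine Nat.mul_le_mul_left _ (Nat.mul_le_mul_left _ ?_)
          omega
      _ = 2 ^ 9 * (2 ^ (135 * r)) ^ 2 * (m * m) * T := by ring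
      _ = 2 ^ (460 * r + 1357 + 2 * ℓ) * T := by
          rw [hm, ← pow_mul, ← pow_add, ← pow_add, ← pow_add]
          congr 2
          ring
  have h0 : (2 ^ (330 * r)) ^ 2 ≤ (2 ^ E) ^ 2 * n ^ 2 := by
    rw [← mul_pow]
    exact Nat.pow_le_pow_left hn 2
  have h3 : 2 ^ (200 * r) * 2 ^ (460 * r) ≤ (2 ^ (2 * E + 1357) * (2 ^ ℓ) ^ 2 * T) * 2 ^ (460 * r) := by
    calc 2 ^ (200 * r) * 2 ^ (460 * r) = (2 ^ (330 * r)) ^ 2 := by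
          rw [← pow_add, ← pow_mul]; congr 1; ring
      _ ≤ (2 ^ E) ^ 2 * n ^ 2 := h0
      _ ≤ (2 ^ E) ^ 2 * (2 ^ (460 * r + 1357 + 2 * ℓ) * T) := Nat.mul_le_mul_left _ h2
      _ = (2 ^ (2 * E + 1357) * (2 ^ ℓ) ^ 2 * T) * 2 ^ (460 * r) := by
          obtain ⟨z, hz⟩ : ∃ z, z = 1357 := ⟨_, rfl⟩
          rw [← hz, ← pow_mul, ← pow_mul, pow_add, pow_add, pow_add, mul_comm E 2, mul_comm ℓ 2]
          ring
  have h4 := Nat.le_of_mul_le_mul_right h3 (by positivity)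
  refine h4.trans (Nat.mul_le_mul_right _ ?_)
  have h5 : (2 ^ ℓ) ^ 2 ≤ 2 ^ 16 * r ^ 2 := by
    calc (2 ^ ℓ) ^ 2 ≤ (190 * r) ^ 2 := Nat.pow_le_pow_left hl 2
      _ = 36100 * r ^ 2 := by ring
      _ ≤ 2 ^ 16 * r ^ 2 := Nat.mul_le_mul_right _ (by norm_num)
  calc 2 ^ (2 * E + 1357) * (2 ^ ℓ) ^ 2 ≤ 2 ^ (2 * E + 1357) * (2 ^ 16 * r ^ 2) :=
        Nat.mul_le_mul_left _ h5
    _ = 2 ^ (2 * E + 1357 + 16) * r ^ 2 := by rw [pow_add _ (2 * E + 1357) 16, mul_assoc]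
    _ ≤ 2 ^ F * r ^ 2 := Nat.mul_le_mul_right _ (Nat.pow_le_pow_right (by norm_num) (by omega))

theorem Core_bad_sw (P : Finset Pt) (u v : ℕ) :
    ((sw P).filter fun p => 3 ≤ ((sw P).filter fun q => q.1 / u = p.1 / u ∧
      q.2 / v = p.2 / v).card).card =
    (P.filter fun p => 3 ≤ (P.filter fun q => q.1 / v = p.1 / v ∧
      q.2 / u = p.2 / u).card).card := by
  have hinner : ∀ p : Pt, ((sw P).filter fun q => q.1 / u = p.1 / u ∧ q.2 / v = p.2 / v).card =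
      (P.filter fun q => q.1 / v = p.2 / v ∧ q.2 / u = p.1 / u).card := by
    intro p
    refine Finset.card_bij' (fun q _ => q.swap) (fun q _ => q.swap) ?_ ?_ ?_ ?_
    · intro q hq
      rw [Finset.mem_filter, mem_sw] at hq
      rw [Finset.mem_filter]
      exact ⟨hq.1, hq.2.2, hq.2.1⟩
    · intro q hq
      rw [Finset.mem_filter] at hq
      rw [Finset.mem_filter, mem_sw]
      exact ⟨hq.1, hq.2.2, hq.2.1⟩
    · intro q _; rfl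
    · intro q _; rfl
  refine Finset.card_bij' (fun q _ => q.swap) (fun q _ => q.swap) ?_ ?_ ?_ ?_
  · intro q hq
    rw [Finset.mem_filter, mem_sw, hinner] at hq
    rw [Finset.mem_filter]
    exact hq
  · intro q hq
    rw [Finset.mem_filter] at hq
    rw [Finset.mem_filter, mem_sw, hinner]
    exact hq
  · intro q _; rfl
  · intro q _; rfl

theorem core_of (r E F : ℕ) (hE : E = 330) (hF : F = 2040) (hr : 100 ≤ r) (P : Finset Pt)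
    (hP : Gen P) (hX : ∀ p ∈ P, p.1 < 2 ^ (330 * r) ∧ p.2 < 2 ^ (330 * r))
    (hcard : 2 ^ (330 * r) ≤ 2 ^ E * P.card) :
    ∃ M : Finset (Pt × Pt), WT P M ∧ 2 ^ (200 * r) ≤ 2 ^ F * r ^ 2 * M.card := by
  have hFE : ∀ m : ℕ, 2 ^ (E + 14) * r ^ 2 * m ≤ 2 ^ F * r ^ 2 * m := fun m =>
    Nat.mul_le_mul_right _ (Nat.mul_le_mul_right _
      (Nat.pow_le_pow_right (by norm_num) (by omega)))
  have e195 : 2 ^ (195 * r) ≤ (2 ^ (65 * r)) ^ 3 := by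
    rw [← pow_mul]
    exact Nat.pow_le_pow_right (by norm_num) (by omega)
  by_cases hc : 10 * (P.filter fun p => 3 ≤ (P.filter fun q => q.1 / 2 ^ (130 * r) =
      p.1 / 2 ^ (130 * r) ∧ q.2 / 2 ^ (195 * r) = p.2 / 2 ^ (195 * r)).card).card ≤ P.card
  swap
  · obtain ⟨M, hM, hB⟩ := br_scale P hP (2 ^ (130 * r)) (195 * r) (2 ^ (65 * r))
      (by positivity) e195
    exact ⟨M, hM, (Core_br r P.card _ M.card E (by omega) hcard (by omega) hB).trans (hFE _)⟩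
  by_cases hrw : 10 * (P.filter fun p => 3 ≤ (P.filter fun q => q.1 / 2 ^ (195 * r) =
      p.1 / 2 ^ (195 * r) ∧ q.2 / 2 ^ (130 * r) = p.2 / 2 ^ (130 * r)).card).card ≤ P.card
  swap
  · obtain ⟨M', hM', hB⟩ := br_scale (sw P) (gen_sw hP) (2 ^ (130 * r)) (195 * r) (2 ^ (65 * r))
      (by positivity) e195
    rw [Core_bad_sw] at hB
    obtain ⟨M, hM, hMc⟩ := wt_of_sw hM'
    rw [← hMc] at hB
    exact ⟨M, hM, (Core_br r P.card _ M.card E (by omega) hcard (by omega) hB).trans (hFE _)⟩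
  obtain ⟨P', hsub, hP'c, hcc, hrc⟩ := clean P (2 ^ (130 * r)) (2 ^ (195 * r)) hc hrw
  have hP' : Gen P' := ⟨fun p hp q hq => hP.1 p (hsub hp) q (hsub hq),
    fun p hp q hq => hP.2 p (hsub hp) q (hsub hq)⟩
  have hn : 2 ^ (330 * r) ≤ 2 ^ (E + 2) * P'.card := by
    calc 2 ^ (330 * r) ≤ 2 ^ E * P.card := hcard
      _ ≤ 2 ^ E * (4 * P'.card) := Nat.mul_le_mul_left _ hP'c
      _ = 2 ^ (E + 2) * P'.card := by rw [pow_add]; ring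
  obtain ⟨ℓ, hl1, hl2, hl3⟩ := Core_ell r hr
  obtain ⟨k, hk⟩ : ∃ k, k + ℓ + 338 = 95 * r := ⟨95 * r - 338 - ℓ, by omega⟩
  have eu : 2 ^ (105 * r) * 2 ^ (25 * r) = 2 ^ (130 * r) := by
    rw [← pow_add]; congr 1; ring
  have ev : 2 ^ (105 * r) * 2 ^ (25 * r) * 2 ^ (65 * r) = 2 ^ (195 * r) := by
    rw [← pow_add, ← pow_add]; congr 1; ring
  have eX : 2 ^ (105 * r) * 2 ^ (25 * r) * 2 ^ (65 * r) * 2 ^ (135 * r) = 2 ^ (330 * r) := by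
    rw [← pow_add, ← pow_add, ← pow_add]; congr 1; ring
  have hE2 : E + 2 = 332 := by omega
  obtain ⟨T, hT, hTc⟩ := main_step P' hP' (2 ^ (105 * r)) (2 ^ (25 * r)) (2 ^ (65 * r))
    (2 ^ (135 * r)) (2 ^ (5 * r - 335)) k (2 ^ (30 * r + 673 + ℓ)) (by positivity)
    (by positivity) (by positivity) (by positivity)
    (by rw [eX]; exact fun p hp => hX p (hsub hp))
    (by rw [ev, eu]; exact hcc) (by rw [ev, eu]; exact hrc)
    (by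
      rw [eu, ← pow_add, ← pow_add]
      exact Nat.pow_le_pow_right (by norm_num) (by omega))
    (Core_h1 r _ _ hE2 hr hn)
    (Core_h2 r _ _ k ℓ hE2 hr hn hk (by omega))
    (Core_h3 r _ _ hE2 hr hn)
  exact ⟨T, wt_mono hsub hT, Core_end r _ _ k ℓ T.card F hE2 hF hr hn hk hl2 hTc⟩

theorem core (r : ℕ) (hr : 100 ≤ r) (P : Finset Pt) (hP : Gen P)
    (hX : ∀ p ∈ P, p.1 < 2 ^ (330 * r) ∧ p.2 < 2 ^ (330 * r))
    (hcard : 2 ^ (330 * r) ≤ 2 ^ 330 * P.card) :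
    ∃ M : Finset (Pt × Pt), WT P M ∧ 2 ^ (200 * r) ≤ 2 ^ 2040 * r ^ 2 * M.card :=
  core_of r _ _ rfl rfl hr P hP hX hcard

end Tw11
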