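import Pool.Agent.Tw11.Goodman

/-!
# Tw11 / Count: many other pairs

PROOF. Let `N = P.card`. If `N = 0` the statement is trivial; so `R > 0`. For a cell
`z ∈ range R × range R` let `P_z = {p ∈ P | cell p = z}`, `D_z = P_z.card`,
`o_z = #{x ∈ P_z × P_z | x ∈ o}`, `c_z, r_z` = number of `c`-triangles, `r`-triangles in `P_z`.
`goodman` for `P_z`: `D_z ^ 3 ≤ 12 D_z o_z + 4 (c_z + r_z)`.
`∑_z D_z = N`, `∑_z o_z ≤ o.card`, `∑_z (c_z + r_z) ≤ 2 t` (disjoint sets for different `z`).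
Call `z` big if `2 R^2 D_z ≥ N` (real numbers). For `z` big, dividing by `D_z > 0`:
`D_z ^ 2 ≤ 12 o_z + 4 (c_z + r_z) / D_z ≤ 12 o_z + 8 (R^2 / N) (c_z + r_z)`.
`∑_{all z} D_z ^ 2 ≥ N ^ 2 / R ^ 2` (Cauchy-Schwarz, `R ^ 2` cells) and the cells which are not big
contribute at most `R ^ 2 * (N / (2 R ^ 2)) ^ 2 = N ^ 2 / (4 R ^ 2)`. So
`(3/4) N ^ 2 / R ^ 2 ≤ 12 o.card + 16 (R ^ 2 / N) t`. Multiply by `4 R ^ 2 N`.
-/

set_option autoImplicit false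

namespace Tw11

namespace CountAux

theorem fib_le {β : Type*} (S : Finset β) (f : β → ℕ × ℕ) (Z : Finset (ℕ × ℕ)) :
    ∑ z ∈ Z, (S.filter fun x => f x = z).card ≤ S.card := by
  rw [Finset.sum_card_fiberwise_eq_card_filter]
  exact Finset.card_filter_le _ _

/-- one cell -/
theorem cell_bound {N K D o c : ℝ} (hN : 0 < N) (hK : 0 < K) (hD : 0 ≤ D) (ho : 0 ≤ o) (hc : 0 ≤ c)
    (h : D ^ 3 ≤ 4 * (3 * (D * o) + c)) :
    N * D ^ 2 ≤ 12 * N * o + 8 * K * c + N ^ 3 / (4 * K ^ 2) := by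
  rcases le_total N (2 * K * D) with hb | hb
  · have hD0 : 0 < D := by
      rcases hD.eq_or_lt with h0 | h0
      · rw [← h0, mul_zero] at hb
        linarith
      · exact h0
    have h1 : N * D ^ 2 * D ≤ (12 * N * o + 8 * K * c) * D := by
      have h2 : N * D ^ 3 ≤ N * (4 * (3 * (D * o) + c)) := mul_le_mul_of_nonneg_left h hN.le
      have h3 : N * c ≤ 2 * K * D * c := mul_le_mul_of_nonneg_right hb hc
      nlinarith
    have h4 := le_of_mul_le_mul_right h1 hD0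
    have h5 : 0 ≤ N ^ 3 / (4 * K ^ 2) := by positivity
    linarith
  · have h1 : (2 * K * D) ^ 2 ≤ N ^ 2 := pow_le_pow_left₀ (by positivity) hb 2
    have h2 : N * D ^ 2 ≤ N ^ 3 / (4 * K ^ 2) := by
      rw [le_div_iff₀ (by positivity)]
      calc N * D ^ 2 * (4 * K ^ 2) = N * (2 * K * D) ^ 2 := by ring
        _ ≤ N * N ^ 2 := mul_le_mul_of_nonneg_left h1 hN.le
        _ = N ^ 3 := by ring
    have h3 : 0 ≤ 12 * N * o + 8 * K * c := by positivity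
    linarith

end CountAux

open CountAux in
theorem count_other {α : Type*} [DecidableEq α] (P : Finset α) (cell : α → ℕ × ℕ) (R : ℕ)
    (hR : ∀ p ∈ P, (cell p).1 < R ∧ (cell p).2 < R) (c r o : Finset (α × α))
    (hc : ∀ p q, (p, q) ∈ c → (q, p) ∈ c) (hr : ∀ p q, (p, q) ∈ r → (q, p) ∈ r)
    (hcov : ∀ p ∈ P, ∀ q ∈ P, cell p = cell q → (p, q) ∈ c ∨ (p, q) ∈ r ∨ (p, q) ∈ o) (t : ℕ)
    (htc : ((P ×ˢ (P ×ˢ P)).filter fun x => (x.1, x.2.1) ∈ c ∧ (x.1, x.2.2) ∈ c ∧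
        (x.2.1, x.2.2) ∈ c).card ≤ t)
    (htr : ((P ×ˢ (P ×ˢ P)).filter fun x => (x.1, x.2.1) ∈ r ∧ (x.1, x.2.2) ∈ r ∧
        (x.2.1, x.2.2) ∈ r).card ≤ t) :
    3 * P.card ^ 3 ≤ 48 * R ^ 2 * P.card * o.card + 64 * R ^ 4 * t := by
  classical
  rcases Nat.eq_zero_or_pos P.card with hN0 | hN0
  · rw [hN0]
    simp
  obtain ⟨p0, hp0⟩ := Finset.card_pos.mp hN0
  have hR0 : 0 < R := lt_of_le_of_lt (Nat.zero_le _) (hR p0 hp0).1
  obtain ⟨Z, hZ⟩ : ∃ Z, Z = Finset.range R ×ˢ Finset.range R := ⟨_, rfl⟩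
  have hZc : Z.card = R * R := by rw [hZ, Finset.card_product, Finset.card_range]
  have hPZ : ∀ p ∈ P, cell p ∈ Z := by
    intro p hp
    rw [hZ, Finset.mem_product, Finset.mem_range, Finset.mem_range]
    exact hR p hp
  obtain ⟨Pz, hPz⟩ : ∃ Pz : ℕ × ℕ → Finset α, Pz = fun z => P.filter fun p => cell p = z :=
    ⟨_, rfl⟩
  obtain ⟨oz, hoz⟩ : ∃ oz : ℕ × ℕ → ℕ, oz = fun z =>
    ((Pz z ×ˢ Pz z).filter fun x => x ∈ o).card := ⟨_, rfl⟩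
  obtain ⟨cz, hcz⟩ : ∃ cz : ℕ × ℕ → ℕ, cz = fun z =>
    ((Pz z ×ˢ (Pz z ×ˢ Pz z)).filter fun x => (x.1, x.2.1) ∈ c ∧ (x.1, x.2.2) ∈ c ∧
        (x.2.1, x.2.2) ∈ c).card := ⟨_, rfl⟩
  obtain ⟨rz, hrz⟩ : ∃ rz : ℕ × ℕ → ℕ, rz = fun z =>
    ((Pz z ×ˢ (Pz z ×ˢ Pz z)).filter fun x => (x.1, x.2.1) ∈ r ∧ (x.1, x.2.2) ∈ r ∧
        (x.2.1, x.2.2) ∈ r).card := ⟨_, rfl⟩
  have hmemPz : ∀ z p, p ∈ Pz z ↔ p ∈ P ∧ cell p = z := by
    intro z p
    rw [hPz, Finset.mem_filter]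
  have hgood : ∀ z, (Pz z).card ^ 3 ≤ 4 * (3 * ((Pz z).card * oz z) + cz z + rz z) := by
    intro z
    rw [hoz, hcz, hrz]
    refine goodman (Pz z) c r o hc hr ?_
    intro p hp q hq
    rw [hmemPz] at hp hq
    exact hcov p hp.1 q hq.1 (hp.2.trans hq.2.symm)
  have hsumD : P.card = ∑ z ∈ Z, (Pz z).card := by
    rw [hPz]
    exact Finset.card_eq_sum_card_fiberwise hPZ
  have hsumo : ∑ z ∈ Z, oz z ≤ o.card := by
    refine le_trans (Finset.sum_le_sum fun z _ => ?_) (fib_le o (fun x => cell x.1) Z)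
    rw [hoz]
    apply Finset.card_le_card
    intro x hx
    rw [Finset.mem_filter, Finset.mem_product, hmemPz] at hx
    rw [Finset.mem_filter]
    exact ⟨hx.2, hx.1.1.2⟩
  have hsumc : ∑ z ∈ Z, cz z ≤ t := by
    refine le_trans (le_trans (Finset.sum_le_sum fun z _ => ?_)
      (fib_le ((P ×ˢ (P ×ˢ P)).filter fun x => (x.1, x.2.1) ∈ c ∧ (x.1, x.2.2) ∈ c ∧
        (x.2.1, x.2.2) ∈ c) (fun x => cell x.1) Z)) htc
    rw [hcz]
    apply Finset.card_le_card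
    intro x hx
    rw [Finset.mem_filter, Finset.mem_product, Finset.mem_product, hmemPz, hmemPz, hmemPz] at hx
    rw [Finset.mem_filter, Finset.mem_filter, Finset.mem_product, Finset.mem_product]
    exact ⟨⟨⟨hx.1.1.1, hx.1.2.1.1, hx.1.2.2.1⟩, hx.2⟩, hx.1.1.2⟩
  have hsumr : ∑ z ∈ Z, rz z ≤ t := by
    refine le_trans (le_trans (Finset.sum_le_sum fun z _ => ?_)
      (fib_le ((P ×ˢ (P ×ˢ P)).filter fun x => (x.1, x.2.1) ∈ r ∧ (x.1, x.2.2) ∈ r ∧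
        (x.2.1, x.2.2) ∈ r) (fun x => cell x.1) Z)) htr
    rw [hrz]
    apply Finset.card_le_card
    intro x hx
    rw [Finset.mem_filter, Finset.mem_product, Finset.mem_product, hmemPz, hmemPz, hmemPz] at hx
    rw [Finset.mem_filter, Finset.mem_filter, Finset.mem_product, Finset.mem_product]
    exact ⟨⟨⟨hx.1.1.1, hx.1.2.1.1, hx.1.2.2.1⟩, hx.2⟩, hx.1.1.2⟩
  -- real numbers
  obtain ⟨N, hN⟩ : ∃ N : ℝ, N = P.card := ⟨_, rfl⟩
  obtain ⟨K, hK⟩ : ∃ K : ℝ, K = (R : ℝ) ^ 2 := ⟨_, rfl⟩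
  have hN1 : 0 < N := by rw [hN]; exact_mod_cast hN0
  have hK1 : 0 < K := by
    rw [hK]
    have : (0 : ℝ) < R := by exact_mod_cast hR0
    positivity
  have hcell : ∀ z ∈ Z, N * ((Pz z).card : ℝ) ^ 2 ≤
      12 * N * (oz z : ℝ) + 8 * K * ((cz z : ℝ) + rz z) + N ^ 3 / (4 * K ^ 2) := by
    intro z _
    apply cell_bound hN1 hK1 (by positivity) (by positivity) (by positivity)
    have := hgood z
    have h2 : ((Pz z).card : ℝ) ^ 3 ≤ 4 * (3 * ((Pz z).card * oz z) + cz z + rz z) := by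
      exact_mod_cast this
    linarith
  have hsum := Finset.sum_le_sum hcell
  rw [Finset.sum_add_distrib, Finset.sum_add_distrib, ← Finset.mul_sum, ← Finset.mul_sum,
    ← Finset.mul_sum, Finset.sum_add_distrib, Finset.sum_const, nsmul_eq_mul, hZc] at hsum
  have hcs := sq_sum_le_card_mul_sum_sq (s := Z) (f := fun z => ((Pz z).card : ℝ))
  have hNs : ∑ z ∈ Z, ((Pz z).card : ℝ) = N := by
    rw [hN, hsumD]
    push_cast
    rfl
  rw [hNs, hZc] at hcs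
  have ho' : ∑ z ∈ Z, (oz z : ℝ) ≤ o.card := by exact_mod_cast hsumo
  have hc' : ∑ z ∈ Z, (cz z : ℝ) ≤ t := by exact_mod_cast hsumc
  have hr' : ∑ z ∈ Z, (rz z : ℝ) ≤ t := by exact_mod_cast hsumr
  have hRR : ((R * R : ℕ) : ℝ) = K := by rw [hK]; push_cast; ring
  rw [hRR] at hsum hcs
  obtain ⟨S, hS⟩ : ∃ S : ℝ, S = ∑ z ∈ Z, ((Pz z).card : ℝ) ^ 2 := ⟨_, rfl⟩
  rw [← hS] at hsum hcs
  have e1 : K * (N ^ 3 / (4 * K ^ 2)) = N ^ 3 / (4 * K) := by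
    field_simp
  rw [e1] at hsum
  have h1 : N * S ≤ 12 * N * o.card + 8 * K * (t + t) + N ^ 3 / (4 * K) := by
    have a1 : 12 * N * ∑ z ∈ Z, (oz z : ℝ) ≤ 12 * N * o.card :=
      mul_le_mul_of_nonneg_left ho' (by positivity)
    have a2 : 8 * K * (∑ z ∈ Z, (cz z : ℝ) + ∑ z ∈ Z, (rz z : ℝ)) ≤ 8 * K * (t + t) :=
      mul_le_mul_of_nonneg_left (add_le_add hc' hr') (by positivity)
    linarith
  have h2 : 4 * N ^ 3 ≤ 4 * K * (N * S) := by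
    calc 4 * N ^ 3 = 4 * N * N ^ 2 := by ring
      _ ≤ 4 * N * (K * S) := mul_le_mul_of_nonneg_left hcs (by positivity)
      _ = _ := by ring
  have h3 : 4 * K * (N * S) ≤ 4 * K * (12 * N * o.card + 8 * K * (t + t) + N ^ 3 / (4 * K)) :=
    mul_le_mul_of_nonneg_left h1 (by positivity)
  have e2 : 4 * K * (12 * N * o.card + 8 * K * (t + t) + N ^ 3 / (4 * K)) =
      48 * K * N * o.card + 64 * K ^ 2 * t + N ^ 3 := by
    field_simp
    ring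
  rw [e2] at h3
  have h4 : 3 * N ^ 3 ≤ 48 * K * N * o.card + 64 * K ^ 2 * t := by linarith
  rw [hN, hK] at h4
  have e3 : ((R : ℝ) ^ 2) ^ 2 = (R : ℝ) ^ 4 := by ring
  rw [e3] at h4
  exact_mod_cast h4

end Tw11
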