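import Mathlib

/-!
# Tw11 / DecA: chain decomposition of a finite set with two coordinates

`C` finite, `f, g : α → ℕ`; the cell of `e` is `(f e, g e)`. For `i ≤ k` an `i`-chain of `D ⊆ C` is a
sequence of `τ * 2 ^ (k - i)` cells, strictly increasing in both coordinates, each containing at
least `2 ^ i` elements of `D`.

PROOF of `dec_slots`: induction on `N`, generalizing `C`. If `C` has no `i`-chain for any `i ≤ k`, take
`slot = fun _ => none`. For `N = 0`: `C = ∅`; an `i`-chain would have a cell with at least `2 ^ i ≥ 1`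
elements (`τ > 0`), impossible, so we are in this case. For `N + 1`, if there is an `i`-chain
`c : Fin (τ * 2 ^ (k - i)) → ℕ × ℕ`: choose exactly `2 ^ i` elements of each cell `c l`
(`Finset.exists_subset_card_eq`); together they form `D ⊆ C` with
`D.card = τ * 2 ^ (k - i) * 2 ^ i = τ * 2 ^ k` (different cells, so disjoint). `C' = C \ D` has
`C'.card ≤ τ * 2 ^ k * N`, let `slot'` be the function for `C'`, `N`. Put `slot e = some N` for
`e ∈ D` and `slot e = slot' e` for `e ∉ D`... (values of `slot'` outside `C'` do not matter, but the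
conditions below are only about elements of `C`). Checks: values `< N + 1`; two elements of `D`: in the
same cell (then neither `f e < f e'` nor `g e < g e'`) or in strictly comparable cells; an element of `D`
and an element of `C'` have different slots (`slot' e < N`); multiplicity: for `σ = N` the elements of
`D` with `f e = x` are in one cell of the chain, so exactly `2 ^ i ≤ 2 ^ k`; for `σ ≠ N` by induction.
The elements of `C` with `slot = none` are those of `C'` with `slot' = none`: no chains by induction.
-/

set_option autoImplicit false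

namespace Tw11

/-- an `i`-chain of the elements of `C` -/
def DecChain {α : Type*} (f g : α → ℕ) (τ k : ℕ) (C : Finset α) (i : ℕ)
    (c : Fin (τ * 2 ^ (k - i)) → ℕ × ℕ) : Prop :=
  (∀ l, 2 ^ i ≤ (C.filter fun e => f e = (c l).1 ∧ g e = (c l).2).card) ∧
    ∀ l l', l < l' → (c l).1 < (c l').1 ∧ (c l).2 < (c l').2

theorem dec_slots_none {α : Type*} (f g : α → ℕ) (τ k : ℕ) (N : ℕ)
    (C : Finset α) (h : ¬ ∃ i ≤ k, ∃ c, DecChain f g τ k C i c) :
    ∃ slot : α → Option ℕ,
      (∀ e ∈ C, ∀ σ, slot e = some σ → σ < N) ∧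
      (∀ e ∈ C, ∀ e' ∈ C, slot e ≠ none → slot e = slot e' → (f e < f e' ↔ g e < g e')) ∧
      (∀ σ x : ℕ, (C.filter fun e => slot e = some σ ∧ f e = x).card ≤ 2 ^ k) ∧
      (∀ i ≤ k, ¬ ∃ c : Fin (τ * 2 ^ (k - i)) → ℕ × ℕ,
        (∀ l, 2 ^ i ≤ (C.filter fun e => slot e = none ∧ f e = (c l).1 ∧ g e = (c l).2).card) ∧
        ∀ l l', l < l' → (c l).1 < (c l').1 ∧ (c l).2 < (c l').2) := by
  refine ⟨fun _ => none, ?_, ?_, ?_, ?_⟩
  · intro e _ σ h
    exact absurd h (by simp)
  · intro e _ e' _ h
    exact absurd rfl h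
  · intro σ x
    simp
  · intro i hi ⟨c, hc⟩
    exact h ⟨i, hi, c, by simpa [DecChain] using hc⟩

theorem dec_slots {α : Type*} [DecidableEq α] (f g : α → ℕ) (τ k : ℕ) (hτ : 0 < τ) (N : ℕ)
    (C : Finset α) (hC : C.card ≤ τ * 2 ^ k * N) :
    ∃ slot : α → Option ℕ,
      (∀ e ∈ C, ∀ σ, slot e = some σ → σ < N) ∧
      (∀ e ∈ C, ∀ e' ∈ C, slot e ≠ none → slot e = slot e' → (f e < f e' ↔ g e < g e')) ∧
      (∀ σ x : ℕ, (C.filter fun e => slot e = some σ ∧ f e = x).card ≤ 2 ^ k) ∧
      (∀ i ≤ k, ¬ ∃ c : Fin (τ * 2 ^ (k - i)) → ℕ × ℕ,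
        (∀ l, 2 ^ i ≤ (C.filter fun e => slot e = none ∧ f e = (c l).1 ∧ g e = (c l).2).card) ∧
        ∀ l l', l < l' → (c l).1 < (c l').1 ∧ (c l).2 < (c l').2) := by
  classical
  induction N generalizing C with
  | zero =>
    by_cases h : ∃ i ≤ k, ∃ c, DecChain f g τ k C i c
    · exfalso
      obtain ⟨i, hi, c, hc, -⟩ := h
      have hC0 : C = ∅ := Finset.card_eq_zero.mp (by simpa using hC)
      have hpos : 0 < τ * 2 ^ (k - i) := Nat.mul_pos hτ (by positivity)
      have := hc ⟨0, hpos⟩
      rw [hC0] at this
      simp at this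
    · exact dec_slots_none f g τ k 0 C h
  | succ N ih =>
    by_cases h : ∃ i ≤ k, ∃ c, DecChain f g τ k C i c
    swap
    · exact dec_slots_none f g τ k (N + 1) C h
    obtain ⟨i, hik, c, hc, hmono⟩ := h
    have hch : ∀ l, ∃ D ⊆ (C.filter fun e => f e = (c l).1 ∧ g e = (c l).2), D.card = 2 ^ i :=
      fun l => Finset.exists_subset_card_eq (hc l)
    choose D hD hDc using hch
    have hDm : ∀ l, ∀ e ∈ D l, e ∈ C ∧ f e = (c l).1 ∧ g e = (c l).2 := by
      intro l e he
      have := hD l he
      simpa using this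
    have hinj1 : ∀ l l', (c l).1 = (c l').1 → l = l' := by
      intro l l' h
      rcases lt_trichotomy l l' with h1 | h1 | h1
      · exact absurd (hmono l l' h1).1 (by omega)
      · exact h1
      · exact absurd (hmono l' l h1).1 (by omega)
    set DD := (Finset.univ : Finset (Fin (τ * 2 ^ (k - i)))).biUnion D with hDD
    have hDDm : ∀ e, e ∈ DD ↔ ∃ l, e ∈ D l := by
      intro e; simp [hDD]
    have hDDC : DD ⊆ C := by
      intro e he
      obtain ⟨l, hl⟩ := (hDDm e).1 he
      exact (hDm l e hl).1
    have hDDcard : DD.card = τ * 2 ^ k := by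
      rw [hDD, Finset.card_biUnion]
      · simp only [hDc, Finset.sum_const, Finset.card_univ, Fintype.card_fin, smul_eq_mul]
        rw [mul_assoc, ← pow_add, Nat.sub_add_cancel hik]
      · intro l _ l' _ hne
        rw [Function.onFun, Finset.disjoint_left]
        intro e he he'
        exact hne (hinj1 l l' ((hDm l e he).2.1.symm.trans (hDm l' e he').2.1))
    have hC' : (C \ DD).card ≤ τ * 2 ^ k * N := by
      rw [Finset.card_sdiff_of_subset hDDC, hDDcard]
      have : τ * 2 ^ k * (N + 1) = τ * 2 ^ k * N + τ * 2 ^ k := by ring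
      omega
    obtain ⟨slot', h1, h2, h3, h4⟩ := ih (C \ DD) hC'
    refine ⟨fun e => if e ∈ DD then some N else slot' e, ?_, ?_, ?_, ?_⟩
    · intro e he σ hσ
      by_cases hd : e ∈ DD
      · simp only [hd, if_true, Option.some.injEq] at hσ
        omega
      · simp only [hd, if_false] at hσ
        have := h1 e (Finset.mem_sdiff.2 ⟨he, hd⟩) σ hσ
        omega
    · intro e he e' he' hne heq
      by_cases hd : e ∈ DD <;> by_cases hd' : e' ∈ DD
      · obtain ⟨l, hl⟩ := (hDDm e).1 hd
        obtain ⟨l', hl'⟩ := (hDDm e').1 hd'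
        have a := hDm l e hl
        have b := hDm l' e' hl'
        rw [a.2.1, a.2.2, b.2.1, b.2.2]
        rcases lt_trichotomy l l' with h | h | h
        · have := hmono l l' h
          exact ⟨fun _ => this.2, fun _ => this.1⟩
        · subst h
          simp
        · have := hmono l' l h
          constructor
          · intro h'; omega
          · intro h'; omega
      · simp only [hd, hd', if_true, if_false] at heq
        exact absurd (h1 e' (Finset.mem_sdiff.2 ⟨he', hd'⟩) N heq.symm) (lt_irrefl _)
      · simp only [hd, hd', if_true, if_false] at heq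
        exact absurd (h1 e (Finset.mem_sdiff.2 ⟨he, hd⟩) N heq) (lt_irrefl _)
      · simp only [hd, hd', if_false] at heq hne
        exact h2 e (Finset.mem_sdiff.2 ⟨he, hd⟩) e' (Finset.mem_sdiff.2 ⟨he', hd'⟩) hne heq
    · intro σ x
      by_cases hσ : σ = N
      · subst hσ
        rcases (C.filter fun e => (if e ∈ DD then some σ else slot' e) = some σ ∧ f e = x).eq_empty_or_nonempty with h | ⟨e0, he0⟩
        · rw [h]; simp
        · have hmem : ∀ e ∈ (C.filter fun e => (if e ∈ DD then some σ else slot' e) = some σ ∧ f e = x),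
              e ∈ DD ∧ f e = x := by
            intro e he
            rw [Finset.mem_filter] at he
            by_cases hd : e ∈ DD
            · exact ⟨hd, he.2.2⟩
            · have h' := he.2.1
              simp only [hd, if_false] at h'
              exact absurd (h1 e (Finset.mem_sdiff.2 ⟨he.1, hd⟩) σ h') (lt_irrefl _)
          obtain ⟨hd0, hx0⟩ := hmem e0 he0
          obtain ⟨l0, hl0⟩ := (hDDm e0).1 hd0
          have hsub : (C.filter fun e => (if e ∈ DD then some σ else slot' e) = some σ ∧ f e = x) ⊆ D l0 := by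
            intro e he
            obtain ⟨hd, hx⟩ := hmem e he
            obtain ⟨l, hl⟩ := (hDDm e).1 hd
            have hll : l = l0 := hinj1 l l0 (by
              rw [← (hDm l e hl).2.1, ← (hDm l0 e0 hl0).2.1, hx, hx0])
            rwa [hll] at hl
          calc _ ≤ (D l0).card := Finset.card_le_card hsub
            _ = 2 ^ i := hDc l0
            _ ≤ 2 ^ k := Nat.pow_le_pow_right (by norm_num) hik
      · refine le_trans (Finset.card_le_card ?_) (h3 σ x)
        intro e he
        rw [Finset.mem_filter] at he ⊢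
        by_cases hd : e ∈ DD
        · have h' := he.2.1
          simp only [hd, if_true, Option.some.injEq] at h'
          exact absurd h'.symm hσ
        · have h' := he.2.1
          simp only [hd, if_false] at h'
          exact ⟨Finset.mem_sdiff.2 ⟨he.1, hd⟩, h', he.2.2⟩
    · intro i' hi' ⟨c', hc', hm'⟩
      refine h4 i' hi' ⟨c', fun l => le_trans (hc' l) (Finset.card_le_card ?_), hm'⟩
      intro e he
      rw [Finset.mem_filter] at he ⊢
      by_cases hd : e ∈ DD
      · have h' := he.2.1
        simp [hd] at h'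
      · have h' := he.2.1
        simp only [hd, if_false] at h'
        exact ⟨Finset.mem_sdiff.2 ⟨he.1, hd⟩, h', he.2.2⟩

end Tw11
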