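import Pool.Agent.Tw11.DecA
import Pool.Agent.Tw11.Height

set_option autoImplicit false

/-!
# Tw11 / DecB: light and heavy remaining elements

PROOF of `dec`. Take `slot` from `dec_slots`, `Rem = {e ∈ C | slot e = none}`,
`mult e = #{e' ∈ Rem | f e' = f e ∧ g e' = g e}` (at least 1 for `e ∈ Rem`),
`Lt = {e ∈ Rem | mult e < 2 ^ k}`, `Hv = {e ∈ Rem | 2 ^ k ≤ mult e}`.
LIGHT. For `i < k` let `Lt_i = {e ∈ Rem | 2 ^ i ≤ mult e < 2 ^ (i+1)}`; `Lt ⊆ ⋃_{i < k} Lt_i`
(`i = Nat.log 2 (mult e)`). `H_i = Lt_i.image (fun e => (f e, g e))`: every cell of `H_i` contains at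
least `2 ^ i` elements of `Rem`, so `H_i` has no strictly increasing chain of length
`τ * 2 ^ (k - i)` (last property of `dec_slots`), and `diag` gives
`H_i.card ≤ 2 * L * (τ * 2 ^ (k - i))`. Every cell contains less than `2 ^ (i+1)` elements of `Lt_i`
(`Finset.card_le_mul_card_image`), so
`Lt_i.card ≤ 2 ^ (i+1) * (2 * L * (τ * 2 ^ (k - i))) = 4 * L * (τ * 2 ^ k)`. Sum over `i < k`.
HEAVY. The cells `(f e, g e)`, `e ∈ Hv`, have at least `2 ^ k` elements of `Rem`, so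
`H = Hv.image (fun e => (f e, g e))` has no strictly increasing chain of length `τ = τ * 2 ^ (k - k)`.
Take the function `h₀` of `height'` for `H` and the relation `c.1 < d.1 ∧ c.2 < d.2`;
`h e = h₀ (f e, g e)`.
-/

namespace Tw11

theorem dec {α : Type*} [DecidableEq α] (C : Finset α) (f g : α → ℕ) (a a' L τ k N : ℕ)
    (hτ : 0 < τ) (hf : ∀ e ∈ C, a ≤ f e ∧ f e < a + L) (hg : ∀ e ∈ C, a' ≤ g e ∧ g e < a' + L)
    (hC : C.card ≤ τ * 2 ^ k * N) :
    ∃ (slot : α → Option ℕ) (Lt Hv : Finset α) (h : α → ℕ), Lt ⊆ C ∧ Hv ⊆ C ∧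
      (∀ e ∈ C, ∀ σ, slot e = some σ → σ < N) ∧
      (∀ e ∈ C, ∀ e' ∈ C, slot e ≠ none → slot e = slot e' → (f e < f e' ↔ g e < g e')) ∧
      (∀ σ x : ℕ, (C.filter fun e => slot e = some σ ∧ f e = x).card ≤ 2 ^ k) ∧
      (∀ e ∈ C, slot e = none → e ∈ Lt ∨ e ∈ Hv) ∧
      Lt.card ≤ 4 * L * (τ * 2 ^ k) * k ∧
      (∀ e ∈ Hv, h e < τ) ∧
      (∀ e ∈ Hv, ∀ e' ∈ Hv, f e < f e' → g e < g e' → h e < h e') := by
  obtain ⟨slot, s1, s2, s3, s4⟩ := dec_slots f g τ k hτ N C hC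
  obtain ⟨cell, hcell⟩ : ∃ cell : α → ℕ × ℕ, ∀ e, cell e = (f e, g e) := ⟨_, fun _ => rfl⟩
  obtain ⟨Rem, hRem⟩ : ∃ Rem : Finset α, Rem = C.filter fun e => slot e = none := ⟨_, rfl⟩
  obtain ⟨mult, hmult⟩ : ∃ mult : α → ℕ, ∀ e, mult e =
      (Rem.filter fun e' => cell e' = cell e).card := ⟨_, fun _ => rfl⟩
  have hmem : ∀ e, e ∈ Rem ↔ e ∈ C ∧ slot e = none := by
    intro e
    rw [hRem, Finset.mem_filter]
  have hcnt : ∀ e ∈ Rem, mult e =
      (C.filter fun e' => slot e' = none ∧ f e' = (cell e).1 ∧ g e' = (cell e).2).card := by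
    intro e _
    rw [hmult, hRem, Finset.filter_filter]
    congr 1
    refine Finset.filter_congr fun e' _ => ?_
    rw [hcell, hcell, Prod.mk.injEq]
  -- no chains
  have hchain : ∀ i ≤ k, ∀ H : Finset (ℕ × ℕ),
      (∀ c ∈ H, ∃ e ∈ Rem, cell e = c ∧ 2 ^ i ≤ mult e) →
      ¬ ∃ c : Fin (τ * 2 ^ (k - i)) → ℕ × ℕ, (∀ l, c l ∈ H) ∧
        ∀ l l', l < l' → (c l).1 < (c l').1 ∧ (c l).2 < (c l').2 := by
    rintro i hi H hH ⟨c, hc1, hc2⟩
    refine s4 i hi ⟨c, ?_, hc2⟩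
    intro l
    obtain ⟨e, he, hce, hm⟩ := hH (c l) (hc1 l)
    rw [← hce, ← hcnt e he]
    exact hm
  have hbox : ∀ (S : Finset α), S ⊆ Rem → ∀ c ∈ S.image cell,
      a ≤ c.1 ∧ c.1 < a + L ∧ a' ≤ c.2 ∧ c.2 < a' + L := by
    intro S hS c hc
    rw [Finset.mem_image] at hc
    obtain ⟨e, he, rfl⟩ := hc
    have h1 := (hmem e).1 (hS he)
    have h2 := hf e h1.1
    have h3 := hg e h1.1
    rw [hcell]
    exact ⟨h2.1, h2.2, h3.1, h3.2⟩
  -- light cells
  have hlight : ∀ i < k, (Rem.filter fun e => 2 ^ i ≤ mult e ∧ mult e < 2 ^ (i + 1)).card ≤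
      4 * L * (τ * 2 ^ k) := by
    intro i hi
    obtain ⟨Li, hLi⟩ : ∃ Li, Li = Rem.filter fun e => 2 ^ i ≤ mult e ∧ mult e < 2 ^ (i + 1) :=
      ⟨_, rfl⟩
    rw [← hLi]
    have hsub : Li ⊆ Rem := by
      rw [hLi]
      exact Finset.filter_subset _ _
    have hmemL : ∀ e, e ∈ Li → 2 ^ i ≤ mult e ∧ mult e < 2 ^ (i + 1) := by
      intro e he
      rw [hLi, Finset.mem_filter] at he
      exact he.2
    have h1 := diag (Li.image cell) a a' L (τ * 2 ^ (k - i)) (hbox Li hsub)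
      (hchain i hi.le (Li.image cell) (by
        intro c hc
        rw [Finset.mem_image] at hc
        obtain ⟨e, he, hce⟩ := hc
        exact ⟨e, hsub he, hce, (hmemL e he).1⟩))
    have h2 : Li.card ≤ 2 ^ (i + 1) * (Li.image cell).card := by
      refine Finset.card_le_mul_card_image _ _ ?_
      intro c hc
      rw [Finset.mem_image] at hc
      obtain ⟨e, he, rfl⟩ := hc
      have h3 : (Li.filter fun x => cell x = cell e).card ≤ mult e := by
        rw [hmult]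
        exact Finset.card_le_card (Finset.filter_subset_filter _ hsub)
      exact h3.trans (hmemL e he).2.le
    have h3 : 2 ^ (i + 1) * 2 ^ (k - i) = 2 * 2 ^ k := by
      rw [← pow_add]
      have : i + 1 + (k - i) = k + 1 := by omega
      rw [this, pow_succ, mul_comm]
    calc Li.card ≤ 2 ^ (i + 1) * (Li.image cell).card := h2
      _ ≤ 2 ^ (i + 1) * (2 * L * (τ * 2 ^ (k - i))) := Nat.mul_le_mul_left _ h1
      _ = (2 ^ (i + 1) * 2 ^ (k - i)) * (2 * L * τ) := by ring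
      _ = 4 * L * (τ * 2 ^ k) := by
          rw [h3]
          ring
  -- heights
  have hnoH := hchain k le_rfl ((Rem.filter fun e => 2 ^ k ≤ mult e).image cell) (by
    intro c hc
    rw [Finset.mem_image] at hc
    obtain ⟨e, he, hce⟩ := hc
    rw [Finset.mem_filter] at he
    exact ⟨e, he.1, hce, he.2⟩)
  have hnoH : ¬ ∃ c : Fin τ → ℕ × ℕ,
      (∀ l, c l ∈ (Rem.filter fun e => 2 ^ k ≤ mult e).image cell) ∧
      ∀ l l', l < l' → (c l).1 < (c l').1 ∧ (c l).2 < (c l').2 := by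
    have e : τ * 2 ^ (k - k) = τ := by simp
    rintro ⟨c, h1, h2⟩
    exact hnoH ⟨fun l => c (Fin.cast e l), fun l => h1 _, fun l l' hl => h2 _ _ (by
      rw [Fin.lt_def] at hl ⊢
      simpa using hl)⟩
  obtain ⟨h0, hh1, hh2⟩ := height' (fun c d : ℕ × ℕ => c.1 < d.1 ∧ c.2 < d.2)
    (fun x y z hxy hyz => ⟨hxy.1.trans hyz.1, hxy.2.trans hyz.2⟩) τ _ hnoH
  refine ⟨slot, Rem.filter fun e => mult e < 2 ^ k, Rem.filter fun e => 2 ^ k ≤ mult e,
    fun e => h0 (cell e), ?_, ?_, s1, s2, s3, ?_, ?_, ?_, ?_⟩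
  · intro e he
    rw [Finset.mem_filter, hmem] at he
    exact he.1.1
  · intro e he
    rw [Finset.mem_filter, hmem] at he
    exact he.1.1
  · intro e he hs
    rcases lt_or_ge (mult e) (2 ^ k) with h | h
    · exact Or.inl (Finset.mem_filter.2 ⟨(hmem e).2 ⟨he, hs⟩, h⟩)
    · exact Or.inr (Finset.mem_filter.2 ⟨(hmem e).2 ⟨he, hs⟩, h⟩)
  · have hsub : (Rem.filter fun e => mult e < 2 ^ k) ⊆ (Finset.range k).biUnion fun i =>
        Rem.filter fun e => 2 ^ i ≤ mult e ∧ mult e < 2 ^ (i + 1) := by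
      intro e he
      rw [Finset.mem_filter] at he
      have hpos : mult e ≠ 0 := by
        rw [hmult]
        exact Finset.card_ne_zero_of_mem (Finset.mem_filter.2 ⟨he.1, rfl⟩)
      rw [Finset.mem_biUnion]
      have h1 := Nat.pow_log_le_self 2 hpos
      have h2 := Nat.lt_pow_succ_log_self (by norm_num : 1 < 2) (mult e)
      refine ⟨Nat.log 2 (mult e), ?_, ?_⟩
      · rw [Finset.mem_range]
        by_contra hcon
        push Not at hcon
        have h3 : 2 ^ k ≤ 2 ^ Nat.log 2 (mult e) := Nat.pow_le_pow_right (by norm_num) hcon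
        omega
      · rw [Finset.mem_filter]
        exact ⟨he.1, h1, h2⟩
    refine (Finset.card_le_card hsub).trans (Finset.card_biUnion_le.trans ?_)
    calc ∑ i ∈ Finset.range k,
        (Rem.filter fun e => 2 ^ i ≤ mult e ∧ mult e < 2 ^ (i + 1)).card
        ≤ ∑ i ∈ Finset.range k, 4 * L * (τ * 2 ^ k) :=
          Finset.sum_le_sum fun i hi => hlight i (Finset.mem_range.1 hi)
      _ = 4 * L * (τ * 2 ^ k) * k := by
          rw [Finset.sum_const, Finset.card_range, smul_eq_mul, mul_comm]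
  · intro e he
    exact hh1 _ (Finset.mem_image_of_mem _ he)
  · intro e he e' he' hfe hge
    refine hh2 _ (Finset.mem_image_of_mem _ he) _ (Finset.mem_image_of_mem _ he') ?_
    rw [hcell, hcell]
    exact ⟨hfe, hge⟩

end Tw11
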