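import Mathlib

/-!
# Tw11 / Def  (MP_eb68d6_co, twins of length n^(20/33)/(log n)^2): definitions

Everything is done with finite sets of points of the plane `ℕ × ℕ` with distinct first
coordinates and distinct second coordinates. (Definitions only, no proofs to do here.)
-/

set_option autoImplicit false

namespace Tw11

/-- a point of the plane -/
abbrev Pt := ℕ × ℕ

/-- distinct points have distinct first coordinates and distinct second coordinates -/
def Gen (P : Finset Pt) : Prop :=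
  (∀ p ∈ P, ∀ q ∈ P, p.1 = q.1 → p = q) ∧ (∀ p ∈ P, ∀ q ∈ P, p.2 = q.2 → p = q)

/-- the pairs of points `e` and `f` are strictly parallel -/
def Par (e f : Pt × Pt) : Prop :=
  ((e.1.1 < f.1.1 ∧ e.2.1 < f.2.1) ∨ (f.1.1 < e.1.1 ∧ f.2.1 < e.2.1)) ∧
  ((e.1.2 < f.1.2 ∧ e.2.2 < f.2.2) ∨ (f.1.2 < e.1.2 ∧ f.2.2 < e.2.2))

/-- weak twins: a set of pairs (source, target) of points, pairwise strictly parallel (a source
may be the target of another pair) -/
def WT (P : Finset Pt) (M : Finset (Pt × Pt)) : Prop :=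
  (∀ e ∈ M, e.1 ∈ P ∧ e.2 ∈ P ∧ e.1 ≠ e.2) ∧ ∀ e ∈ M, ∀ f ∈ M, e ≠ f → Par e f

/-- the reflected point set -/
def sw (P : Finset Pt) : Finset Pt := P.image Prod.swap

/-- the graph of a permutation -/
def gr {n : ℕ} (π : Equiv.Perm (Fin n)) : Finset Pt :=
  Finset.univ.image fun i : Fin n => (i.val, (π i).val)

/-- the permutation `π` contains a twin of length `t`: two order-isomorphic subsequences with
disjoint index sets (`f` and `g` list the indices in increasing order) -/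
def HasTwin {n : ℕ} (π : Equiv.Perm (Fin n)) (t : ℕ) : Prop :=
  ∃ f g : Fin t ↪o Fin n, (∀ i j, f i ≠ g j) ∧
    ∀ i j, (π (f i) < π (f j) ↔ π (g i) < π (g j))

/-- The column structure of `P`: strips of width `w`, blocks of width `w * L`, super columns and
super rows of width `w * L * Q`. For two points `p, q` of the same super row in different blocks of
the same super column, `slot p q = some σ` says that the pair belongs to the chain number `σ` of the
two blocks; `Lt` and `Hv` are the remaining (light and heavy) pairs. -/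
structure ColS (P : Finset Pt) (w L Q R τ k N : ℕ) (slot : Pt → Pt → Option ℕ)
    (Lt Hv : Finset (Pt × Pt)) : Prop where
  slot_lt : ∀ p ∈ P, ∀ q ∈ P, ∀ σ, slot p q = some σ → σ < N
  mono : ∀ p ∈ P, ∀ q ∈ P, ∀ p' ∈ P, ∀ q' ∈ P,
    p.1 / (w * L) = p'.1 / (w * L) → q.1 / (w * L) = q'.1 / (w * L) →
    p.1 / (w * L) ≠ q.1 / (w * L) →
    p.2 / (w * L * Q) = q.2 / (w * L * Q) → p'.2 / (w * L * Q) = q'.2 / (w * L * Q) →
    slot p q ≠ none → slot p q = slot p' q' → (p.1 / w < p'.1 / w ↔ q.1 / w < q'.1 / w)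
  mult : ∀ c b σ : ℕ, ((P ×ˢ P).filter fun g => g.1.1 / w = c ∧ g.2.1 / (w * L) = b ∧
    g.1.1 / (w * L) ≠ b ∧ g.1.2 / (w * L * Q) = g.2.2 / (w * L * Q) ∧
    slot g.1 g.2 = some σ).card ≤ 2 ^ k
  cover : ∀ p ∈ P, ∀ q ∈ P, p ≠ q → p.1 / (w * L * Q) = q.1 / (w * L * Q) →
    p.2 / (w * L * Q) = q.2 / (w * L * Q) → slot p q ≠ none ∨ (p, q) ∈ Lt ∨ (p, q) ∈ Hv
  light : Lt.card ≤ R * Q ^ 2 * (4 * L * (τ * 2 ^ k) * k)
  symm : ∀ p q, (p, q) ∈ Hv → (q, p) ∈ Hv
  heavy : ((P ×ˢ (P ×ˢ P)).filter fun x => (x.1, x.2.1) ∈ Hv ∧ (x.1, x.2.2) ∈ Hv ∧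
    (x.2.1, x.2.2) ∈ Hv).card ≤ R * Q ^ 3 * (3 * w * τ ^ 3)

end Tw11
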