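import Pool.Agent.Tw11.Core

/-!
# Tw11 / Final: twins of length c n^(20/33) / (log n)^2

PROOF. `r = Nat.log 2 n / 330 + 1`: `n < 2^(330r) ≤ 2^330 * n`, `r ≤ 2 log n`. If `r < 100` use
`hasTwin_one`. Otherwise `core` for `gr π` and `hasTwin_of_wt`.
-/

set_option autoImplicit false

namespace Tw11

theorem Final_r_le (n : ℕ) (hn : 2 ≤ n) :
    ((Nat.log 2 n / 330 + 1 : ℕ) : ℝ) ≤ 2 * Real.log n := by
  have hn0 : n ≠ 0 := by omega
  have h1 : 2 ^ Nat.log 2 n ≤ n := Nat.pow_log_le_self 2 hn0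
  have hnR : (2 : ℝ) ≤ n := by exact_mod_cast hn
  have hlog2 : (0.69 : ℝ) < Real.log 2 := by
    have := Real.log_two_gt_d9
    linarith
  have hlogn : Real.log 2 ≤ Real.log n := Real.log_le_log (by norm_num) hnR
  have hlle : (Nat.log 2 n : ℝ) * Real.log 2 ≤ Real.log n := by
    have h7 : Real.log ((2 : ℝ) ^ Nat.log 2 n) ≤ Real.log n := by
      refine Real.log_le_log (by positivity) ?_
      exact_mod_cast h1
    rwa [Real.log_pow] at h7
  have h9 : ((Nat.log 2 n / 330 : ℕ) : ℝ) ≤ (Nat.log 2 n : ℝ) / 330 := by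
    have := @Nat.cast_div_le ℝ _ _ _ (Nat.log 2 n) 330
    simpa using this
  have h10 : (Nat.log 2 n : ℝ) * 0.69 ≤ Real.log n := by
    have : (0 : ℝ) ≤ (Nat.log 2 n : ℝ) := by positivity
    nlinarith
  have h11 : (0.69 : ℝ) ≤ Real.log n := by linarith
  push_cast
  push_cast at h9
  linarith

theorem Final_bound : ∃ B : ℝ, 0 < B ∧ ∀ r : ℕ, ¬ 100 ≤ r → (2 : ℝ) ^ (200 * r) ≤ B := by
  refine ⟨2 ^ (200 * 100), by positivity, fun r hr => pow_le_pow_right₀ (by norm_num) ?_⟩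
  omega

theorem Final_pow (n r : ℕ) (h4 : n < 2 ^ (330 * r)) :
    (n : ℝ) ^ ((20 : ℝ) / 33) ≤ 2 ^ (200 * r) := by
  have h12 : (n : ℝ) ≤ (2 : ℝ) ^ (330 * r) := by exact_mod_cast h4.le
  calc (n : ℝ) ^ ((20 : ℝ) / 33) ≤ ((2 : ℝ) ^ (330 * r)) ^ ((20 : ℝ) / 33) :=
        Real.rpow_le_rpow (by positivity) h12 (by norm_num)
    _ = 2 ^ (200 * r) := by
        rw [← Real.rpow_natCast, ← Real.rpow_natCast, ← Real.rpow_mul (by norm_num)]
        congr 1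
        push_cast
        ring

theorem final_of (K E : ℕ) (hE : E = 330)
    (hK : ∀ (r : ℕ), 100 ≤ r → ∀ P : Finset Pt, Gen P →
      (∀ p ∈ P, p.1 < 2 ^ (330 * r) ∧ p.2 < 2 ^ (330 * r)) →
      2 ^ (330 * r) ≤ 2 ^ E * P.card →
      ∃ M : Finset (Pt × Pt), WT P M ∧ 2 ^ (200 * r) ≤ K * r ^ 2 * M.card) :
    ∃ c : ℝ, 0 < c ∧ ∀ n : ℕ, 2 ≤ n → ∀ π : Equiv.Perm (Fin n),
    ∃ t : ℕ, HasTwin π t ∧ c * (n : ℝ) ^ ((20 : ℝ) / 33) / (Real.log n) ^ 2 ≤ t := by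
  obtain ⟨B, hB0, hB⟩ := Final_bound
  have hc0 : (0 : ℝ) < 12 * K + 4 * B := by positivity
  refine ⟨(12 * K + 4 * B)⁻¹, inv_pos.2 hc0, fun n hn π => ?_⟩
  have hn0 : n ≠ 0 := by omega
  have h1 : 2 ^ Nat.log 2 n ≤ n := Nat.pow_log_le_self 2 hn0
  have h2 : n < 2 ^ (Nat.log 2 n + 1) := Nat.lt_pow_succ_log_self (by norm_num) n
  have hrle := Final_r_le n hn
  obtain ⟨l, hl⟩ : ∃ l, l = Nat.log 2 n := ⟨_, rfl⟩
  rw [← hl] at h1 h2 hrle
  obtain ⟨r, hr⟩ : ∃ r, r = l / 330 + 1 := ⟨_, rfl⟩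
  rw [← hr] at hrle
  have h3 : l + 1 ≤ 330 * r := by omega
  have h4 : n < 2 ^ (330 * r) := lt_of_lt_of_le h2 (Nat.pow_le_pow_right (by norm_num) h3)
  have h5 : 2 ^ (330 * r) ≤ 2 ^ E * n := by
    have h6 : 330 * r = E + 330 * (l / 330) := by omega
    rw [h6, pow_add]
    refine Nat.mul_le_mul_left _ (le_trans (Nat.pow_le_pow_right (by norm_num) ?_) h1)
    omega
  have hpow := Final_pow n r h4
  have hlog2 : (0.69 : ℝ) < Real.log 2 := by
    have := Real.log_two_gt_d9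
    linarith
  have hnR : (2 : ℝ) ≤ n := by exact_mod_cast hn
  have hlogn : Real.log 2 ≤ Real.log n := Real.log_le_log (by norm_num) hnR
  have hlog : (0.69 : ℝ) ≤ Real.log n := by linarith
  have hlogpos : 0 < Real.log n := by linarith
  by_cases hr100 : 100 ≤ r
  · obtain ⟨M, hM, hMc⟩ := hK r hr100 (gr π) (gen_gr π)
      (fun p hp => ⟨lt_trans (gr_lt π hp).1 h4, lt_trans (gr_lt π hp).2 h4⟩)
      (by rw [card_gr]; exact h5)
    obtain ⟨t, ht, htc⟩ := hasTwin_of_wt π M hM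
    refine ⟨t, ht, ?_⟩
    have h13 : (2 : ℝ) ^ (200 * r) ≤ K * r ^ 2 * (3 * t) := by
      have : (2 : ℕ) ^ (200 * r) ≤ K * r ^ 2 * (3 * t) :=
        hMc.trans (Nat.mul_le_mul_left _ htc)
      exact_mod_cast this
    rw [div_le_iff₀ (by positivity), inv_mul_le_iff₀ hc0]
    have h14 : (r : ℝ) ^ 2 ≤ 4 * Real.log n ^ 2 := by
      have : (0 : ℝ) ≤ r := by positivity
      nlinarith
    calc (n : ℝ) ^ ((20 : ℝ) / 33) ≤ K * r ^ 2 * (3 * t) := hpow.trans h13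
      _ ≤ K * (4 * Real.log n ^ 2) * (3 * t) := by
          refine mul_le_mul_of_nonneg_right (mul_le_mul_of_nonneg_left h14 (by positivity))
            (by positivity)
      _ = (12 * K) * (t * Real.log n ^ 2) := by ring
      _ ≤ (12 * K + 4 * B) * (t * Real.log n ^ 2) :=
          mul_le_mul_of_nonneg_right (by linarith) (by positivity)
  · refine ⟨1, hasTwin_one hn π, ?_⟩
    rw [div_le_iff₀ (by positivity), inv_mul_le_iff₀ hc0]
    have h16 : (1 : ℝ) / 4 ≤ Real.log n ^ 2 := by nlinarith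
    have hK0 : (0 : ℝ) ≤ K := by positivity
    calc (n : ℝ) ^ ((20 : ℝ) / 33) ≤ B := hpow.trans (hB r hr100)
      _ = (4 * B) * (1 / 4) := by ring
      _ ≤ (12 * K + 4 * B) * (Real.log n ^ 2) :=
          mul_le_mul (by linarith) h16 (by positivity) (by positivity)
      _ = (12 * K + 4 * B) * ((1 : ℕ) * Real.log n ^ 2) := by
          push_cast
          ring

theorem final : ∃ c : ℝ, 0 < c ∧ ∀ n : ℕ, 2 ≤ n → ∀ π : Equiv.Perm (Fin n),
    ∃ t : ℕ, HasTwin π t ∧ c * (n : ℝ) ^ ((20 : ℝ) / 33) / (Real.log n) ^ 2 ≤ t :=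
  final_of _ _ rfl core

end Tw11
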