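import Mathlib

/-!
# Tw11 / Goodman: triangles in a two-colouring

PROOF. Replace `r` by `r' = r \ c` (symmetric because `c` and `r` are). For `p, q ∈ P` let
`C(p,q), R(p,q), O(p,q) ∈ {0,1}` be the indicators of `c, r', o`; `C + R ≤ 1`, `C + R + O ≥ 1`.
For every `(p, q, s) ∈ P ^ 3`:
`2 ≤ 2 (O(p,q) + O(p,s) + O(q,s)) + 2 C(p,q) C(p,s) C(q,s) + 2 R(p,q) R(p,s) R(q,s)`
`      + [C(p,q) R(p,s) + R(p,q) C(p,s)] + [C(q,p) R(q,s) + R(q,p) C(q,s)] + [C(s,p) R(s,q) + R(s,p) C(s,q)]`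
(if no `O` and not monochromatic, exactly two of the three vertices see two colours; use symmetry).
Sum over all `(p, q, s)`: the first sum is `2 * 3 * P.card * #o`; each bracket sums to
`∑_v 2 * dC(v) * dR(v) ≤ ∑_v (dC(v) + dR(v)) ^ 2 / 2 ≤ P.card ^ 3 / 2` where
`dC(v) = ∑_q C(v,q)`, `dC(v) + dR(v) ≤ P.card`. So
`2 P ^ 3 ≤ 6 P #o + 2 tc + 2 tr + (3/2) P ^ 3`, i.e. `P ^ 3 ≤ 12 P #o + 4 tc + 4 tr`.
-/

set_option autoImplicit false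

namespace Tw11

namespace GoodmanAux

theorem pointwise {c1 r1 o1 c2 r2 o2 c3 r3 o3 : ℤ} (h1 : 0 ≤ o1) (h2 : 0 ≤ o2) (h3 : 0 ≤ o3)
    (H1 : (c1 = 1 ∧ r1 = 0) ∨ (c1 = 0 ∧ r1 = 1) ∨ (c1 = 0 ∧ r1 = 0 ∧ o1 = 1))
    (H2 : (c2 = 1 ∧ r2 = 0) ∨ (c2 = 0 ∧ r2 = 1) ∨ (c2 = 0 ∧ r2 = 0 ∧ o2 = 1))
    (H3 : (c3 = 1 ∧ r3 = 0) ∨ (c3 = 0 ∧ r3 = 1) ∨ (c3 = 0 ∧ r3 = 0 ∧ o3 = 1)) :
    2 ≤ 2 * (o1 + o2 + o3) + 2 * (c1 * c2 * c3) + 2 * (r1 * r2 * r3) +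
      (c1 * r2 + r1 * c2) + (c1 * r3 + r1 * c3) + (c2 * r3 + r2 * c3) := by
  rcases H1 with ⟨rfl, rfl⟩ | ⟨rfl, rfl⟩ | ⟨rfl, rfl, rfl⟩ <;>
  rcases H2 with ⟨rfl, rfl⟩ | ⟨rfl, rfl⟩ | ⟨rfl, rfl, rfl⟩ <;>
  rcases H3 with ⟨rfl, rfl⟩ | ⟨rfl, rfl⟩ | ⟨rfl, rfl, rfl⟩ <;>
  omega

theorem prod_le {x y n : ℤ} (h0 : 0 ≤ x + y) (h : x + y ≤ n) : 4 * (x * y) ≤ n ^ 2 := by
  have h1 : 4 * (x * y) ≤ (x + y) ^ 2 := by nlinarith [sq_nonneg (x - y)]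
  have h2 : (x + y) ^ 2 ≤ n ^ 2 := pow_le_pow_left₀ h0 h 2
  linarith

theorem bracket {α : Type*} (P : Finset α) (C R : α → α → ℤ) (hC : ∀ p q, 0 ≤ C p q)
    (hR : ∀ p q, 0 ≤ R p q) (h : ∀ p q, C p q + R p q ≤ 1) :
    2 * ∑ p ∈ P, ∑ q ∈ P, ∑ s ∈ P, (C p q * R p s + R p q * C p s) ≤ (P.card : ℤ) ^ 3 := by
  have h1 : ∀ p ∈ P, ∑ q ∈ P, ∑ s ∈ P, (C p q * R p s + R p q * C p s) =
      2 * ((∑ q ∈ P, C p q) * (∑ q ∈ P, R p q)) := by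
    intro p _
    have h2 : ∑ q ∈ P, ∑ s ∈ P, (C p q * R p s + R p q * C p s) =
        (∑ q ∈ P, ∑ s ∈ P, C p q * R p s) + ∑ q ∈ P, ∑ s ∈ P, R p q * C p s := by
      rw [← Finset.sum_add_distrib]
      exact Finset.sum_congr rfl fun q _ => Finset.sum_add_distrib
    rw [h2, ← Finset.sum_mul_sum, ← Finset.sum_mul_sum]
    ring
  rw [Finset.sum_congr rfl h1, Finset.mul_sum]
  calc ∑ p ∈ P, 2 * (2 * ((∑ q ∈ P, C p q) * (∑ q ∈ P, R p q))) ≤ ∑ _p ∈ P, (P.card : ℤ) ^ 2 := by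
        refine Finset.sum_le_sum fun p _ => ?_
        have h3 : (∑ q ∈ P, C p q) + (∑ q ∈ P, R p q) ≤ P.card := by
          rw [← Finset.sum_add_distrib]
          calc ∑ q ∈ P, (C p q + R p q) ≤ ∑ _q ∈ P, (1 : ℤ) := Finset.sum_le_sum fun q _ => h p q
            _ = P.card := by simp
        have h4 : 0 ≤ (∑ q ∈ P, C p q) + (∑ q ∈ P, R p q) :=
          add_nonneg (Finset.sum_nonneg fun q _ => hC p q) (Finset.sum_nonneg fun q _ => hR p q)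
        have h5 := prod_le h4 h3
        linarith
    _ = (P.card : ℤ) ^ 3 := by
        rw [Finset.sum_const, nsmul_eq_mul]
        ring

end GoodmanAux

open GoodmanAux

theorem goodman {α : Type*} [DecidableEq α] (P : Finset α) (c r o : Finset (α × α))
    (hc : ∀ p q, (p, q) ∈ c → (q, p) ∈ c) (hr : ∀ p q, (p, q) ∈ r → (q, p) ∈ r)
    (hcov : ∀ p ∈ P, ∀ q ∈ P, (p, q) ∈ c ∨ (p, q) ∈ r ∨ (p, q) ∈ o) :
    P.card ^ 3 ≤ 4 * (3 * (P.card * ((P ×ˢ P).filter fun x => x ∈ o).card) +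
      ((P ×ˢ (P ×ˢ P)).filter fun x => (x.1, x.2.1) ∈ c ∧ (x.1, x.2.2) ∈ c ∧
        (x.2.1, x.2.2) ∈ c).card +
      ((P ×ˢ (P ×ˢ P)).filter fun x => (x.1, x.2.1) ∈ r ∧ (x.1, x.2.2) ∈ r ∧
        (x.2.1, x.2.2) ∈ r).card) := by
  classical
  obtain ⟨C, hC⟩ : ∃ C : α → α → ℤ, C = fun p q => if (p, q) ∈ c then 1 else 0 := ⟨_, rfl⟩
  obtain ⟨R, hR⟩ : ∃ R : α → α → ℤ, R = fun p q => if (p, q) ∈ r ∧ (p, q) ∉ c then 1 else 0 :=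
    ⟨_, rfl⟩
  obtain ⟨O, hO⟩ : ∃ O : α → α → ℤ, O = fun p q => if (p, q) ∈ o then 1 else 0 := ⟨_, rfl⟩
  have hcs : ∀ p q, (p, q) ∈ c ↔ (q, p) ∈ c := fun p q => ⟨hc p q, hc q p⟩
  have hrs : ∀ p q, (p, q) ∈ r ↔ (q, p) ∈ r := fun p q => ⟨hr p q, hr q p⟩
  have hCs : ∀ p q, C p q = C q p := by
    intro p q
    rw [hC]
    simp only [hcs p q]
  have hRs : ∀ p q, R p q = R q p := by
    intro p q
    rw [hR]
    simp only [hcs p q, hrs p q]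
  have hC0 : ∀ p q, 0 ≤ C p q := by
    intro p q
    rw [hC]
    simp only
    split_ifs <;> norm_num
  have hR0 : ∀ p q, 0 ≤ R p q := by
    intro p q
    rw [hR]
    simp only
    split_ifs <;> norm_num
  have hO0 : ∀ p q, 0 ≤ O p q := by
    intro p q
    rw [hO]
    simp only
    split_ifs <;> norm_num
  have hCR : ∀ p q, C p q + R p q ≤ 1 := by
    intro p q
    rw [hC, hR]
    simp only
    by_cases h1 : (p, q) ∈ c <;> by_cases h2 : (p, q) ∈ r <;> simp [h1, h2]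
  have htri : ∀ p ∈ P, ∀ q ∈ P, (C p q = 1 ∧ R p q = 0) ∨ (C p q = 0 ∧ R p q = 1) ∨
      (C p q = 0 ∧ R p q = 0 ∧ O p q = 1) := by
    intro p hp q hq
    have h := hcov p hp q hq
    rw [hC, hR, hO]
    simp only
    by_cases h1 : (p, q) ∈ c <;> by_cases h2 : (p, q) ∈ r <;> by_cases h3 : (p, q) ∈ o <;>
      simp [h1, h2, h3] at h ⊢
  have key : ∀ p ∈ P, ∀ q ∈ P, ∀ s ∈ P, (2 : ℤ) ≤ 2 * (O p q + O p s + O q s) +
      2 * (C p q * C p s * C q s) + 2 * (R p q * R p s * R q s) +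
      (C p q * R p s + R p q * C p s) + (C q p * R q s + R q p * C q s) +
      (C s p * R s q + R s p * C s q) := by
    intro p hp q hq s hs
    have := pointwise (hO0 p q) (hO0 p s) (hO0 q s) (htri p hp q hq) (htri p hp s hs) (htri q hq s hs)
    rw [hCs q p, hRs q p, hCs s p, hRs s p, hCs s q, hRs s q]
    exact this
  have hsum : ∑ _p ∈ P, ∑ _q ∈ P, ∑ _s ∈ P, (2 : ℤ) ≤ ∑ p ∈ P, ∑ q ∈ P, ∑ s ∈ P,
      (2 * (O p q + O p s + O q s) +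
      2 * (C p q * C p s * C q s) + 2 * (R p q * R p s * R q s) +
      (C p q * R p s + R p q * C p s) + (C q p * R q s + R q p * C q s) +
      (C s p * R s q + R s p * C s q)) :=
    Finset.sum_le_sum fun p hp => Finset.sum_le_sum fun q hq => Finset.sum_le_sum fun s hs =>
      key p hp q hq s hs
  have hL : ∑ _p ∈ P, ∑ _q ∈ P, ∑ _s ∈ P, (2 : ℤ) = 2 * (P.card : ℤ) ^ 3 := by
    simp only [Finset.sum_const, nsmul_eq_mul]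
    ring
  have hOc : ((((P ×ˢ P).filter fun x => x ∈ o).card : ℕ) : ℤ) = ∑ p ∈ P, ∑ q ∈ P, O p q := by
    rw [Finset.card_filter, Finset.sum_product]
    push_cast
    rw [hO]
  have hTc : ((((P ×ˢ (P ×ˢ P)).filter fun x => (x.1, x.2.1) ∈ c ∧ (x.1, x.2.2) ∈ c ∧
        (x.2.1, x.2.2) ∈ c).card : ℕ) : ℤ) =
      ∑ p ∈ P, ∑ q ∈ P, ∑ s ∈ P, C p q * C p s * C q s := by
    rw [Finset.card_filter, Finset.sum_product]
    push_cast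
    refine Finset.sum_congr rfl fun p _ => ?_
    rw [Finset.sum_product]
    refine Finset.sum_congr rfl fun q _ => Finset.sum_congr rfl fun s _ => ?_
    rw [hC]
    simp only
    by_cases h1 : (p, q) ∈ c <;> by_cases h2 : (p, s) ∈ c <;> by_cases h3 : (q, s) ∈ c <;>
      simp [h1, h2, h3]
  have hTr : ∑ p ∈ P, ∑ q ∈ P, ∑ s ∈ P, R p q * R p s * R q s ≤
      ((((P ×ˢ (P ×ˢ P)).filter fun x => (x.1, x.2.1) ∈ r ∧ (x.1, x.2.2) ∈ r ∧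
        (x.2.1, x.2.2) ∈ r).card : ℕ) : ℤ) := by
    rw [Finset.card_filter, Finset.sum_product]
    push_cast
    refine Finset.sum_le_sum fun p _ => ?_
    rw [Finset.sum_product]
    refine Finset.sum_le_sum fun q _ => Finset.sum_le_sum fun s _ => ?_
    have hR1 : ∀ p q, R p q ≤ if (p, q) ∈ r then 1 else 0 := by
      intro p q
      rw [hR]
      simp only
      by_cases h1 : (p, q) ∈ r <;> by_cases h2 : (p, q) ∈ c <;> simp [h1, h2]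
    have hi0 : ∀ p q, (0 : ℤ) ≤ if (p, q) ∈ r then 1 else 0 := by
      intro p q
      split_ifs <;> norm_num
    have h4 : R p q * R p s * R q s ≤ (if (p, q) ∈ r then 1 else 0) * (if (p, s) ∈ r then 1 else 0) *
        (if (q, s) ∈ r then 1 else 0) :=
      mul_le_mul (mul_le_mul (hR1 p q) (hR1 p s) (hR0 _ _) (hi0 _ _)) (hR1 q s) (hR0 _ _)
        (mul_nonneg (hi0 _ _) (hi0 _ _))
    refine h4.trans (le_of_eq ?_)
    by_cases h1 : (p, q) ∈ r <;> by_cases h2 : (p, s) ∈ r <;> by_cases h3 : (q, s) ∈ r <;>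
      simp [h1, h2, h3]
  have hO1 : ∑ p ∈ P, ∑ q ∈ P, ∑ _s ∈ P, O p q = P.card * ∑ p ∈ P, ∑ q ∈ P, O p q := by
    simp only [Finset.sum_const, nsmul_eq_mul, Finset.mul_sum]
  have hO2 : ∑ p ∈ P, ∑ _q ∈ P, ∑ s ∈ P, O p s = P.card * ∑ p ∈ P, ∑ q ∈ P, O p q := by
    simp only [Finset.sum_const, nsmul_eq_mul, Finset.mul_sum]
  have hO3 : ∑ _p ∈ P, ∑ q ∈ P, ∑ s ∈ P, O q s = P.card * ∑ p ∈ P, ∑ q ∈ P, O p q := by
    rw [Finset.sum_const, nsmul_eq_mul]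
  have hB1 := bracket P C R hC0 hR0 hCR
  have hB2 : ∑ p ∈ P, ∑ q ∈ P, ∑ s ∈ P, (C q p * R q s + R q p * C q s) =
      ∑ p ∈ P, ∑ q ∈ P, ∑ s ∈ P, (C p q * R p s + R p q * C p s) := Finset.sum_comm
  have hB3 : ∑ p ∈ P, ∑ q ∈ P, ∑ s ∈ P, (C s p * R s q + R s p * C s q) =
      ∑ p ∈ P, ∑ q ∈ P, ∑ s ∈ P, (C p q * R p s + R p q * C p s) := by
    have h1 : ∀ p ∈ P, ∑ q ∈ P, ∑ s ∈ P, (C s p * R s q + R s p * C s q) =
        ∑ s ∈ P, ∑ q ∈ P, (C s p * R s q + R s p * C s q) := fun p _ => Finset.sum_comm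
    rw [Finset.sum_congr rfl h1, Finset.sum_comm]
  have hR' : ∑ p ∈ P, ∑ q ∈ P, ∑ s ∈ P,
      (2 * (O p q + O p s + O q s) +
      2 * (C p q * C p s * C q s) + 2 * (R p q * R p s * R q s) +
      (C p q * R p s + R p q * C p s) + (C q p * R q s + R q p * C q s) +
      (C s p * R s q + R s p * C s q)) =
      2 * ((∑ p ∈ P, ∑ q ∈ P, ∑ _s ∈ P, O p q) + (∑ p ∈ P, ∑ _q ∈ P, ∑ s ∈ P, O p s) +
        ∑ _p ∈ P, ∑ q ∈ P, ∑ s ∈ P, O q s) +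
      2 * (∑ p ∈ P, ∑ q ∈ P, ∑ s ∈ P, C p q * C p s * C q s) +
      2 * (∑ p ∈ P, ∑ q ∈ P, ∑ s ∈ P, R p q * R p s * R q s) +
      (∑ p ∈ P, ∑ q ∈ P, ∑ s ∈ P, (C p q * R p s + R p q * C p s)) +
      (∑ p ∈ P, ∑ q ∈ P, ∑ s ∈ P, (C q p * R q s + R q p * C q s)) +
      (∑ p ∈ P, ∑ q ∈ P, ∑ s ∈ P, (C s p * R s q + R s p * C s q)) := by
    simp only [Finset.sum_add_distrib, Finset.mul_sum, mul_add]
  rw [hR', hL, hO1, hO2, hO3, hB2, hB3, ← hOc, ← hTc] at hsum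
  have hfin : (P.card : ℤ) ^ 3 ≤ 4 * (3 * (P.card * ((((P ×ˢ P).filter fun x => x ∈ o).card : ℕ) : ℤ)) +
      ((((P ×ˢ (P ×ˢ P)).filter fun x => (x.1, x.2.1) ∈ c ∧ (x.1, x.2.2) ∈ c ∧
        (x.2.1, x.2.2) ∈ c).card : ℕ) : ℤ) +
      ((((P ×ˢ (P ×ˢ P)).filter fun x => (x.1, x.2.1) ∈ r ∧ (x.1, x.2.2) ∈ r ∧
        (x.2.1, x.2.2) ∈ r).card : ℕ) : ℤ)) := by
    linarith
  exact_mod_cast hfin

end Tw11
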