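import Pool.Agent.Tw11.Col
import Pool.Agent.Tw11.Count
import Pool.Agent.Tw11.Capture

/-!
# Tw11 / Main: twins in a clean point set

PROOF. `col_exists` for `P` and for `sw P` (`gen_sw`, `mem_sw`; the cell condition for `sw P` is
`hrc`) give `slotC, LtC, HvC` and `slotR, LtR, HvR`. `capture` gives `T`. Let `Gd` be the filtered set
in `capture`. Apply `count_other` with `cell p = (p.1 / v, p.2 / v)`, `v = w * L * Q`,
`c = HvC`, `r = HvR.image (fun x => (x.1.swap, x.2.swap))`,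
`o = P.image (fun p => (p, p)) ∪ LtC ∪ LtR.image (fun x => (x.1.swap, x.2.swap)) ∪ Gd`,
`t = R * Q ^ 3 * (3 * w * τ ^ 3)` (the triangles of `r` in `P` correspond to the triangles of `HvR` in
`sw P`). `o.card ≤ P.card + 2 * (R * Q ^ 2 * (4 * L * (τ * 2 ^ k) * k)) + Gd.card`. With `n = P.card`:
`3 n ^ 3 ≤ 48 R ^ 2 n (n + 8 R Q^2 L τ 2^k k + Gd.card) + 192 R^5 Q^3 w τ^3`, and by the three
hypotheses `48 R ^ 2 n ^ 2 ≤ (3/4) n ^ 3`, `384 R^3 Q^2 L τ 2^k k n ≤ (3/4) n ^ 3`,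
`192 R^5 Q^3 w τ^3 ≤ (3/4) n^3`. So `(3/4) n ^ 3 ≤ 48 R ^ 2 n * Gd.card`, `n ^ 2 ≤ 64 R ^ 2 * Gd.card`.
-/

set_option autoImplicit false

namespace Tw11

/-- reflected pairs -/
def Main_sw2 (H : Finset (Pt × Pt)) : Finset (Pt × Pt) := H.image fun x => (x.1.swap, x.2.swap)

theorem Main_mem_sw2 {H : Finset (Pt × Pt)} {p q : Pt} :
    (p, q) ∈ Main_sw2 H ↔ (p.swap, q.swap) ∈ H := by
  unfold Main_sw2
  rw [Finset.mem_image]
  constructor
  · rintro ⟨x, hx, hxe⟩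
    have h1 : x.1.swap = p := congrArg Prod.fst hxe
    have h2 : x.2.swap = q := congrArg Prod.snd hxe
    rw [← h1, ← h2, Prod.swap_swap, Prod.swap_swap]
    exact hx
  · intro h
    exact ⟨(p.swap, q.swap), h, rfl⟩

theorem Main_card_sw2 (H : Finset (Pt × Pt)) : (Main_sw2 H).card ≤ H.card := Finset.card_image_le

theorem Main_tri_sw (P : Finset Pt) (H : Finset (Pt × Pt)) :
    ((P ×ˢ (P ×ˢ P)).filter fun x => (x.1, x.2.1) ∈ Main_sw2 H ∧ (x.1, x.2.2) ∈ Main_sw2 H ∧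
      (x.2.1, x.2.2) ∈ Main_sw2 H).card ≤
    ((sw P ×ˢ (sw P ×ˢ sw P)).filter fun x => (x.1, x.2.1) ∈ H ∧ (x.1, x.2.2) ∈ H ∧
      (x.2.1, x.2.2) ∈ H).card := by
  refine Finset.card_le_card_of_injOn (fun x => (x.1.swap, (x.2.1.swap, x.2.2.swap))) ?_ ?_
  · intro x hx
    rw [Finset.mem_coe, Finset.mem_filter, Finset.mem_product, Finset.mem_product] at hx
    rw [Finset.mem_coe, Finset.mem_filter, Finset.mem_product, Finset.mem_product]
    simp only [Main_mem_sw2] at hx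
    simp only [mem_sw, Prod.swap_swap]
    exact hx
  · intro x _ y _ hxy
    have h1 : x.1.swap = y.1.swap := congrArg (fun z => z.1) hxy
    have h2 : x.2.1.swap = y.2.1.swap := congrArg (fun z => z.2.1) hxy
    have h3 : x.2.2.swap = y.2.2.swap := congrArg (fun z => z.2.2) hxy
    have e1 := Prod.swap_injective h1
    have e2 := Prod.swap_injective h2
    have e3 := Prod.swap_injective h3
    exact Prod.ext e1 (Prod.ext e2 e3)

theorem Main_arith (n R Q L w τ k K g : ℕ) (hn : 0 < n)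
    (h : 3 * n ^ 3 ≤ 48 * R ^ 2 * n * (n + 2 * (R * Q ^ 2 * (4 * L * (τ * K) * k)) + g) +
      64 * R ^ 4 * (R * Q ^ 3 * (3 * w * τ ^ 3)))
    (h1 : 64 * R ^ 2 ≤ n)
    (h2 : 512 * R ^ 3 * Q ^ 2 * L * (τ * K) * k ≤ n ^ 2)
    (h3 : 256 * R ^ 5 * Q ^ 3 * w * τ ^ 3 ≤ n ^ 3) : n ^ 2 ≤ 64 * R ^ 2 * g := by
  have e1 : 4 * (48 * R ^ 2 * n * n) ≤ 3 * n ^ 3 := by
    calc 4 * (48 * R ^ 2 * n * n) = 3 * (64 * R ^ 2) * n ^ 2 := by ring
      _ ≤ 3 * n * n ^ 2 := Nat.mul_le_mul_right _ (Nat.mul_le_mul_left _ h1)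
      _ = 3 * n ^ 3 := by ring
  have e2 : 4 * (48 * R ^ 2 * n * (2 * (R * Q ^ 2 * (4 * L * (τ * K) * k)))) ≤ 3 * n ^ 3 := by
    calc 4 * (48 * R ^ 2 * n * (2 * (R * Q ^ 2 * (4 * L * (τ * K) * k))))
        = 3 * n * (512 * R ^ 3 * Q ^ 2 * L * (τ * K) * k) := by ring
      _ ≤ 3 * n * n ^ 2 := Nat.mul_le_mul_left _ h2
      _ = 3 * n ^ 3 := by ring
  have e3 : 4 * (64 * R ^ 4 * (R * Q ^ 3 * (3 * w * τ ^ 3))) ≤ 3 * n ^ 3 := by
    calc 4 * (64 * R ^ 4 * (R * Q ^ 3 * (3 * w * τ ^ 3)))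
        = 3 * (256 * R ^ 5 * Q ^ 3 * w * τ ^ 3) := by ring
      _ ≤ 3 * n ^ 3 := Nat.mul_le_mul_left _ h3
  have e4 : 48 * R ^ 2 * n * (n + 2 * (R * Q ^ 2 * (4 * L * (τ * K) * k)) + g) =
      48 * R ^ 2 * n * n + 48 * R ^ 2 * n * (2 * (R * Q ^ 2 * (4 * L * (τ * K) * k))) +
      48 * R ^ 2 * n * g := by ring
  rw [e4] at h
  have e5 : 3 * n ^ 3 ≤ 4 * (48 * R ^ 2 * n * g) := by omega
  have e6 : 3 * n * n ^ 2 ≤ 3 * n * (64 * R ^ 2 * g) := by
    calc 3 * n * n ^ 2 = 3 * n ^ 3 := by ring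
      _ ≤ 4 * (48 * R ^ 2 * n * g) := e5
      _ = 3 * n * (64 * R ^ 2 * g) := by ring
  exact Nat.le_of_mul_le_mul_left e6 (by omega)

theorem main_step (P : Finset Pt) (hP : Gen P) (w L Q R τ k N : ℕ) (hw : 0 < w) (hL : 0 < L)
    (hQ : 0 < Q) (hτ : 0 < τ) (hX : ∀ p ∈ P, p.1 < w * L * Q * R ∧ p.2 < w * L * Q * R)
    (hcc : ∀ p ∈ P, ∀ q ∈ P, p.1 / (w * L) = q.1 / (w * L) →
      p.2 / (w * L * Q) = q.2 / (w * L * Q) → p = q)
    (hrc : ∀ p ∈ P, ∀ q ∈ P, p.1 / (w * L * Q) = q.1 / (w * L * Q) →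
      p.2 / (w * L) = q.2 / (w * L) → p = q)
    (hN : w * L ≤ τ * 2 ^ k * N)
    (h1 : 64 * R ^ 2 ≤ P.card)
    (h2 : 512 * R ^ 3 * Q ^ 2 * L * (τ * 2 ^ k) * k ≤ P.card ^ 2)
    (h3 : 256 * R ^ 5 * Q ^ 3 * w * τ ^ 3 ≤ P.card ^ 3) :
    ∃ T : Finset (Pt × Pt), WT P T ∧
      P.card ^ 2 ≤ 64 * R ^ 2 * (2 * T.card * (2 * ((2 * Q * N) * (2 * Q * N)) +
        2 ^ k * (2 * Q * N) + 2 ^ k * (2 * Q * N))) := by
  by_cases hP0 : P.card = 0
  · refine ⟨∅, ⟨by simp, by simp⟩, ?_⟩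
    rw [hP0]
    simp
  have hPpos : 0 < P.card := Nat.pos_of_ne_zero hP0
  have hN0 : 0 < N := by
    rcases Nat.eq_zero_or_pos N with h | h
    · rw [h, Nat.mul_zero] at hN
      have := Nat.mul_pos hw hL
      omega
    · exact h
  have hv : 0 < w * L * Q := by positivity
  obtain ⟨slotC, LtC, HvC, hC⟩ := col_exists P hP w L Q R τ k N hw hL hQ hτ
    (fun p hp => (hX p hp).1) hcc hN
  obtain ⟨slotR, LtR, HvR, hR⟩ := col_exists (sw P) (gen_sw hP) w L Q R τ k N hw hL hQ hτ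
    (fun p hp => by
      rw [mem_sw] at hp
      exact (hX _ hp).2)
    (fun p hp q hq h h' => by
      rw [mem_sw] at hp hq
      exact Prod.swap_injective (hrc _ hp _ hq h' h)) hN
  obtain ⟨T, hT, hTc⟩ := capture P hP w L Q R τ k N hw hL hQ hN0 hX hcc hrc slotC LtC HvC hC
    slotR LtR HvR hR
  refine ⟨T, hT, ?_⟩
  obtain ⟨Gd, hGd⟩ : ∃ Gd, Gd = (P ×ˢ P).filter fun g => g.1 ≠ g.2 ∧
      g.1.1 / (w * L * Q) = g.2.1 / (w * L * Q) ∧
      g.1.2 / (w * L * Q) = g.2.2 / (w * L * Q) ∧ slotC g.1 g.2 ≠ none ∧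
      slotR g.1.swap g.2.swap ≠ none := ⟨_, rfl⟩
  rw [← hGd] at hTc
  have key : P.card ^ 2 ≤ 64 * R ^ 2 * Gd.card := by
    obtain ⟨o, ho⟩ : ∃ o, o = (P.image (fun p => (p, p)) ∪ LtC ∪ Main_sw2 LtR) ∪ Gd := ⟨_, rfl⟩
    have hocard : o.card ≤ P.card + 2 * (R * Q ^ 2 * (4 * L * (τ * 2 ^ k) * k)) + Gd.card := by
      rw [ho]
      have a1 := Finset.card_union_le (P.image (fun p => (p, p)) ∪ LtC ∪ Main_sw2 LtR) Gd
      have a2 := Finset.card_union_le (P.image (fun p => (p, p)) ∪ LtC) (Main_sw2 LtR)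
      have a3 := Finset.card_union_le (P.image (fun p : Pt => (p, p))) LtC
      have a4 : (P.image (fun p : Pt => (p, p))).card ≤ P.card := Finset.card_image_le
      have a5 := Main_card_sw2 LtR
      have a6 := hC.light
      have a7 := hR.light
      omega
    have hcount := count_other P (fun p => (p.1 / (w * L * Q), p.2 / (w * L * Q))) R
      (fun p hp => ⟨(Nat.div_lt_iff_lt_mul hv).2 (by rw [mul_comm R]; exact (hX p hp).1),
        (Nat.div_lt_iff_lt_mul hv).2 (by rw [mul_comm R]; exact (hX p hp).2)⟩)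
      HvC (Main_sw2 HvR) o hC.symm
      (fun p q h => by
        rw [Main_mem_sw2] at h ⊢
        exact hR.symm _ _ h)
      (fun p hp q hq hpq => by
        by_cases hne : p = q
        · refine Or.inr (Or.inr ?_)
          rw [ho, hne]
          exact Finset.mem_union_left _ (Finset.mem_union_left _ (Finset.mem_union_left _
            (Finset.mem_image_of_mem _ hq)))
        have e1 : p.1 / (w * L * Q) = q.1 / (w * L * Q) := congrArg Prod.fst hpq
        have e2 : p.2 / (w * L * Q) = q.2 / (w * L * Q) := congrArg Prod.snd hpq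
        have hp' : p.swap ∈ sw P := by rw [mem_sw, Prod.swap_swap]; exact hp
        have hq' : q.swap ∈ sw P := by rw [mem_sw, Prod.swap_swap]; exact hq
        have hne' : p.swap ≠ q.swap := fun h => hne (Prod.swap_injective h)
        rcases hC.cover p hp q hq hne e1 e2 with h | h | h
        · rcases hR.cover p.swap hp' q.swap hq' hne' e2 e1 with h' | h' | h'
          · refine Or.inr (Or.inr ?_)
            rw [ho]
            refine Finset.mem_union_right _ ?_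
            rw [hGd, Finset.mem_filter, Finset.mem_product]
            exact ⟨⟨hp, hq⟩, hne, e1, e2, h, h'⟩
          · refine Or.inr (Or.inr ?_)
            rw [ho]
            refine Finset.mem_union_left _ (Finset.mem_union_right _ ?_)
            rw [Main_mem_sw2]
            exact h'
          · refine Or.inr (Or.inl ?_)
            rw [Main_mem_sw2]
            exact h'
        · refine Or.inr (Or.inr ?_)
          rw [ho]
          exact Finset.mem_union_left _ (Finset.mem_union_left _ (Finset.mem_union_right _ h))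
        · exact Or.inl h)
      (R * Q ^ 3 * (3 * w * τ ^ 3)) hC.heavy ((Main_tri_sw P HvR).trans hR.heavy)
    refine Main_arith P.card R Q L w τ k (2 ^ k) Gd.card hPpos ?_ h1 h2 h3
    exact hcount.trans (Nat.add_le_add_right (Nat.mul_le_mul_left _ hocard) _)
  exact key.trans (Nat.mul_le_mul_left _ hTc)

end Tw11
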