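import Mathlib

/-!
# Tw11 / Match: a large matching from second moments

PROOF. Choose `T ⊆ M` with `i` and `j` injective on `T`, of maximal cardinality. Every `g ∈ M` has
some `t ∈ T` with `i g = i t` or `j g = j t` (otherwise `insert g T`; for `g ∈ T` take `t = g`). Let
`X t = #{g ∈ M | i g = i t}`, `Y t = #{g ∈ M | j g = j t}`. So `M.card ≤ ∑_{t ∈ T} (X t + Y t)`, and
by Cauchy-Schwarz (`sq_sum_le_card_mul_sum_sq`)
`M.card ^ 2 ≤ T.card * ∑_{t ∈ T} (X t + Y t) ^ 2 ≤ 2 * T.card * (∑_T (X t) ^ 2 + ∑_T (Y t) ^ 2)`.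
As `i` is injective on `T`, the sets `{x ∈ M × M | i x.1 = i t = i x.2}`, `t ∈ T`, are disjoint
subsets of `{x ∈ M × M | i x.1 = i x.2}`, so `∑_T (X t) ^ 2 ≤ #{x ∈ M × M | i x.1 = i x.2}`; same
for `Y`.
-/

set_option autoImplicit false

namespace Tw11

theorem match_sumsq {G I : Type*} [DecidableEq G] [DecidableEq I]
    (M T : Finset G) (i : G → I) (hi : Set.InjOn i (T : Set G)) :
    ∑ t ∈ T, (M.filter fun g => i g = i t).card ^ 2 ≤
      ((M ×ˢ M).filter fun x => i x.1 = i x.2).card := by
  classical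
  have h1 : ∑ t ∈ T, (M.filter fun g => i g = i t).card ^ 2 =
      ∑ t ∈ T, ((M.filter fun g => i g = i t) ×ˢ (M.filter fun g => i g = i t)).card := by
    refine Finset.sum_congr rfl fun t _ => ?_
    rw [Finset.card_product, sq]
  rw [h1, ← Finset.card_biUnion]
  · refine Finset.card_le_card ?_
    intro x hx
    simp only [Finset.mem_biUnion, Finset.mem_product, Finset.mem_filter] at hx ⊢
    obtain ⟨t, -, ⟨h1, h2⟩, h3, h4⟩ := hx
    exact ⟨⟨h1, h3⟩, h2.trans h4.symm⟩
  · intro t ht t' ht' hne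
    rw [Function.onFun, Finset.disjoint_left]
    intro x hx hx'
    simp only [Finset.mem_product, Finset.mem_filter] at hx hx'
    exact hne (hi ht ht' (hx.1.2.symm.trans hx'.1.2))

theorem match_lemma {G I J : Type*} [DecidableEq G] [DecidableEq I] [DecidableEq J]
    (M : Finset G) (i : G → I) (j : G → J) :
    ∃ T ⊆ M, Set.InjOn i (T : Set G) ∧ Set.InjOn j (T : Set G) ∧
      M.card ^ 2 ≤ 2 * T.card * (((M ×ˢ M).filter fun x => i x.1 = i x.2).card +
        ((M ×ˢ M).filter fun x => j x.1 = j x.2).card) := by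
  classical
  obtain ⟨T, hT, hmax⟩ := Finset.exists_max_image
    ((M.powerset).filter fun T : Finset G => Set.InjOn i (T : Set G) ∧ Set.InjOn j (T : Set G))
    Finset.card ⟨∅, by simp⟩
  simp only [Finset.mem_filter, Finset.mem_powerset] at hT hmax
  obtain ⟨hTM, hi, hj⟩ := hT
  refine ⟨T, hTM, hi, hj, ?_⟩
  have key : ∀ g ∈ M, ∃ t ∈ T, i g = i t ∨ j g = j t := by
    intro g hg
    by_contra hcon
    push Not at hcon
    have hgT : g ∉ T := fun h => (hcon g h).1 rfl
    have h1 : Set.InjOn i ((insert g T : Finset G) : Set G) := by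
      rw [Finset.coe_insert, Set.injOn_insert (by simpa using hgT)]
      refine ⟨hi, ?_⟩
      rintro ⟨t, ht, hte⟩
      exact (hcon t ht).1 hte.symm
    have h2 : Set.InjOn j ((insert g T : Finset G) : Set G) := by
      rw [Finset.coe_insert, Set.injOn_insert (by simpa using hgT)]
      refine ⟨hj, ?_⟩
      rintro ⟨t, ht, hte⟩
      exact (hcon t ht).2 hte.symm
    have h3 := hmax (insert g T) ⟨Finset.insert_subset hg hTM, h1, h2⟩
    rw [Finset.card_insert_of_notMem hgT] at h3
    omega
  have hcard : M.card ≤ ∑ t ∈ T, ((M.filter fun g => i g = i t).card +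
      (M.filter fun g => j g = j t).card) := by
    calc M.card ≤ (T.biUnion fun t => (M.filter fun g => i g = i t) ∪
          (M.filter fun g => j g = j t)).card := by
            refine Finset.card_le_card ?_
            intro g hg
            obtain ⟨t, ht, h⟩ := key g hg
            simp only [Finset.mem_biUnion, Finset.mem_union, Finset.mem_filter]
            exact ⟨t, ht, h.imp (fun h => ⟨hg, h⟩) (fun h => ⟨hg, h⟩)⟩
      _ ≤ ∑ t ∈ T, ((M.filter fun g => i g = i t) ∪ (M.filter fun g => j g = j t)).card :=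
            Finset.card_biUnion_le
      _ ≤ _ := Finset.sum_le_sum fun t _ => Finset.card_union_le _ _
  calc M.card ^ 2 ≤ (∑ t ∈ T, ((M.filter fun g => i g = i t).card +
        (M.filter fun g => j g = j t).card)) ^ 2 := Nat.pow_le_pow_left hcard 2
    _ ≤ T.card * ∑ t ∈ T, ((M.filter fun g => i g = i t).card +
        (M.filter fun g => j g = j t).card) ^ 2 := sq_sum_le_card_mul_sum_sq
    _ ≤ T.card * ∑ t ∈ T, 2 * ((M.filter fun g => i g = i t).card ^ 2 +
        (M.filter fun g => j g = j t).card ^ 2) := by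
          refine Nat.mul_le_mul_left _ (Finset.sum_le_sum fun t _ => add_sq_le)
    _ = 2 * T.card * (∑ t ∈ T, (M.filter fun g => i g = i t).card ^ 2 +
        ∑ t ∈ T, (M.filter fun g => j g = j t).card ^ 2) := by
          rw [← Finset.mul_sum, Finset.sum_add_distrib]; ring
    _ ≤ _ := Nat.mul_le_mul_left _ (add_le_add (match_sumsq M T i hi) (match_sumsq M T j hj))

end Tw11
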